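import Mathlib
import Pool.Agent.Helper606.CA.Defs

set_option autoImplicit false

namespace Pool.Agent.Helper606.CA

open Complex Set

/-! ### second part: C^1 curvature -/

/-- `s'` is the next bounce after `s` on the invariant family of lines. -/
def Next (κ θ : ℝ → ℝ) (s s' : ℝ) : Prop := s < s' ∧ psi κ s' - θ s' = psi κ s + θ s

noncomputable def JJ (κ θ : ℝ → ℝ) (s : ℝ) : ℝ := (1 - Real.cos (θ s)) / κ s

/-- the hat function supported on `[0,1]`, with maximum 1 at 1/2 -/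
noncomputable def hat (x : ℝ) : ℝ := max 0 (1 - |2 * x - 1|)

noncomputable def cf (j : ℕ) : ℝ := if j = 3 then -1 else 1

noncomputable def GG : ℕ → ℝ → ℝ
  | 0 => hat
  | n + 1 => fun u => ∑ j ∈ Finset.range 5, cf j * GG n (u - j * 5 ^ n)

/-- half the squared distance to the nearest multiple of `2t` -/
noncomputable def bb (t y : ℝ) : ℝ := (y - 2 * t * round (y / (2 * t))) ^ 2 / 2

noncomputable def pq (j : ℕ) : ℝ := 3/2 - 10 * (9/10:ℝ)^j
noncomputable def wq (j : ℕ) : ℝ := (1/2:ℝ)^(7*j)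
noncomputable def etq (j : ℕ) : ℝ := (9/10:ℝ)^j
/-- length of the `j`-th cluster -/
noncomputable def lq (j : ℕ) : ℝ := (5:ℝ)^j * wq j
noncomputable def k0 : ℝ := (1/2:ℝ)^930

/-- derivative of the curvature profile -/
noncomputable def gg (u : ℝ) : ℝ :=
  (1 - k0) * (2 / k0) * hat ((u - 1) / k0) +
    ∑' i : ℕ, etq (i + 130) * GG (i + 130) ((u - pq (i + 130)) / wq (i + 130))

noncomputable def f2 (s : ℝ) : ℝ := k0 + ∫ u in (0:ℝ)..s, gg u

noncomputable def h2 : ℝ := 3/2 + (Real.pi/2 - ∫ s in (0:ℝ)..(3/2), f2 s) / f2 (3/2)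

noncomputable def kap2 (s : ℝ) : ℝ := f2 ‖(s : AddCircle (2*h2))‖

end Pool.Agent.Helper606.CA
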