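import Pool.Agent.Helper606.CA2.Defs

set_option autoImplicit false

namespace Pool.Agent.Helper606.CA
open Complex Set


theorem hat_facts : Continuous hat ∧ (∀ x, 0 ≤ hat x ∧ hat x ≤ 1) ∧ (∀ x, x ≤ 0 → hat x = 0) ∧
    (∀ x, 1 ≤ x → hat x = 0) ∧ (∫ x in (0:ℝ)..1, hat x = 1/2) := by
  have hc : Continuous hat := by unfold hat; fun_prop
  refine ⟨hc, ?_, ?_, ?_, ?_⟩
  · intro x
    unfold hat
    refine ⟨le_max_left _ _, max_le zero_le_one ?_⟩
    have := abs_nonneg (2 * x - 1)
    linarith
  · intro x hx
    unfold hat
    apply max_eq_left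
    rw [abs_of_nonpos (by linarith)]
    linarith
  · intro x hx
    unfold hat
    apply max_eq_left
    rw [abs_of_nonneg (by linarith)]
    linarith
  · have h1 : ∫ x in (0:ℝ)..(1/2), hat x = ∫ x in (0:ℝ)..(1/2), 2 * x := by
      apply intervalIntegral.integral_congr
      intro x hx
      rw [uIcc_of_le (by norm_num)] at hx
      obtain ⟨ha, hb⟩ := hx
      show hat x = 2 * x
      unfold hat
      rw [abs_of_nonpos (by linarith), max_eq_right (by linarith)]
      ring
    have h2 : ∫ x in (1/2:ℝ)..1, hat x = ∫ x in (1/2:ℝ)..1, (2 - 2 * x) := by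
      apply intervalIntegral.integral_congr
      intro x hx
      rw [uIcc_of_le (by norm_num)] at hx
      obtain ⟨ha, hb⟩ := hx
      show hat x = 2 - 2 * x
      unfold hat
      rw [abs_of_nonneg (by linarith), max_eq_right (by linarith)]
      ring
    rw [← intervalIntegral.integral_add_adjacent_intervals (b := 1/2)
      (hc.intervalIntegrable _ _) (hc.intervalIntegrable _ _), h1, h2]
    rw [intervalIntegral.integral_sub (by simp) ((by fun_prop : Continuous fun x : ℝ => 2 * x).intervalIntegrable _ _),
      intervalIntegral.integral_const_mul, intervalIntegral.integral_const_mul, integral_id, integral_id,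
      intervalIntegral.integral_const]
    norm_num

end Pool.Agent.Helper606.CA
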