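import Pool.Agent.Helper606.CA2.Defs
import Pool.Agent.Helper606.CA2.P_hat_facts

set_option autoImplicit false

namespace Pool.Agent.Helper606.CA
open Complex Set


theorem GG_facts_zero (f : ℝ → ℝ) (a b : ℝ) (h : ∀ x ∈ Set.uIcc a b, f x = 0) :
    ∫ u in a..b, f u = 0 := by
  rw [intervalIntegral.integral_congr (g := fun _ => (0 : ℝ)) h]
  simp

theorem GG_facts_aux (n : ℕ) : Continuous (GG n) ∧ (∀ x, |GG n x| ≤ 1) ∧ (∀ x, x ≤ 0 → GG n x = 0) ∧
    (∀ x, (5:ℝ)^n ≤ x → GG n x = 0) ∧ (∀ x, 0 ≤ ∫ u in (0:ℝ)..x, GG n u) ∧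
    (∀ x, (∫ u in (0:ℝ)..x, GG n u) ≤ 3^n / 2) ∧ (∀ x, x ≤ 0 → (∫ u in (0:ℝ)..x, GG n u) = 0) ∧
    (∀ x, (5:ℝ)^n ≤ x → (∫ u in (0:ℝ)..x, GG n u) = 3^n / 2) := by
  induction n with
  | zero =>
    obtain ⟨h1, h2, h3, h4, h5⟩ := hat_facts
    have hII : ∀ a b : ℝ, IntervalIntegrable hat MeasureTheory.volume a b := fun a b =>
      h1.intervalIntegrable a b
    have z1 : ∀ x : ℝ, x ≤ 0 → (∫ u in (0:ℝ)..x, hat u) = 0 := by
      intro x hx
      apply GG_facts_zero
      intro y hy
      rw [Set.uIcc_of_ge hx] at hy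
      exact h3 y hy.2
    have z2 : ∀ x : ℝ, 1 ≤ x → (∫ u in (0:ℝ)..x, hat u) = 1 / 2 := by
      intro x hx
      rw [← intervalIntegral.integral_add_adjacent_intervals (hII 0 1) (hII 1 x), h5,
        GG_facts_zero hat 1 x, add_zero]
      intro y hy
      rw [Set.uIcc_of_le hx] at hy
      exact h4 y hy.1
    refine ⟨h1, ?_, h3, ?_, ?_, ?_, z1, ?_⟩
    · intro x
      show |hat x| ≤ 1
      rw [abs_of_nonneg (h2 x).1]
      exact (h2 x).2
    · intro x hx
      exact h4 x (by simpa using hx)
    · intro x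
      show 0 ≤ ∫ u in (0:ℝ)..x, hat u
      rcases le_total x 0 with hx | hx
      · rw [z1 x hx]
      · exact intervalIntegral.integral_nonneg hx fun u _ => (h2 u).1
    · intro x
      show (∫ u in (0:ℝ)..x, hat u) ≤ 3 ^ 0 / 2
      rw [pow_zero]
      rcases le_total x 1 with hx | hx
      · rw [← h5, ← intervalIntegral.integral_add_adjacent_intervals (hII 0 x) (hII x 1)]
        have := intervalIntegral.integral_nonneg (μ := MeasureTheory.volume) hx fun u _ => (h2 u).1
        linarith
      · rw [z2 x hx]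
    · intro x hx
      show (∫ u in (0:ℝ)..x, hat u) = 3 ^ 0 / 2
      rw [pow_zero]
      exact z2 x (by simpa using hx)
  | succ n ih =>
    obtain ⟨h1, h2, h3, h4, h5, h6, h7, h8⟩ := ih
    set M : ℝ := (5:ℝ) ^ n with hM
    have hM0 : 0 < M := by positivity
    have h5n : (5:ℝ) ^ (n + 1) = 5 * M := by rw [pow_succ, hM]; ring
    have h3n : (3:ℝ) ^ (n + 1) / 2 = 3 * (3 ^ n / 2) := by rw [pow_succ]; ring
    set T : ℝ := (3:ℝ) ^ n / 2 with hT
    have hG : ∀ u, GG (n + 1) u = GG n u + GG n (u - M) + GG n (u - 2 * M) - GG n (u - 3 * M)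
        + GG n (u - 4 * M) := by
      intro u
      show ∑ j ∈ Finset.range 5, cf j * GG n (u - j * 5 ^ n) = _
      simp only [Finset.sum_range_succ, Finset.sum_range_zero, cf]
      norm_num
      ring
    have hGf : GG (n + 1) = fun u => GG n u + GG n (u - M) + GG n (u - 2 * M) - GG n (u - 3 * M)
        + GG n (u - 4 * M) := funext hG
    have hc : ∀ c : ℝ, Continuous (fun u => GG n (u - c)) := fun c =>
      h1.comp (continuous_id.sub continuous_const)
    have hI : ∀ x, (∫ u in (0:ℝ)..x, GG (n + 1) u) = (∫ u in (0:ℝ)..x, GG n u)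
        + (∫ u in (0:ℝ)..(x - M), GG n u) + (∫ u in (0:ℝ)..(x - 2 * M), GG n u)
        - (∫ u in (0:ℝ)..(x - 3 * M), GG n u) + (∫ u in (0:ℝ)..(x - 4 * M), GG n u) := by
      intro x
      have hsh : ∀ c : ℝ, 0 ≤ c → (∫ u in (0:ℝ)..x, GG n (u - c)) =
          ∫ u in (0:ℝ)..(x - c), GG n u := by
        intro c hc0
        rw [intervalIntegral.integral_comp_sub_right (fun u => GG n u) c,
          ← intervalIntegral.integral_add_adjacent_intervals
            (h1.intervalIntegrable (0 - c) 0) (h1.intervalIntegrable 0 (x - c)),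
          GG_facts_zero (GG n) (0 - c) 0, zero_add]
        intro y hy
        rw [Set.uIcc_of_le (by linarith)] at hy
        exact h3 y hy.2
      rw [hGf]
      rw [intervalIntegral.integral_add, intervalIntegral.integral_sub,
        intervalIntegral.integral_add, intervalIntegral.integral_add, hsh M hM0.le,
        hsh (2 * M) (by positivity), hsh (3 * M) (by positivity), hsh (4 * M) (by positivity)]
      all_goals
        apply Continuous.intervalIntegrable
        first
          | exact h1
          | exact hc _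
          | exact h1.add (hc _)
          | exact (h1.add (hc _)).add (hc _)
          | exact ((h1.add (hc _)).add (hc _)).sub (hc _)
    refine ⟨?_, ?_, ?_, ?_, ?_, ?_, ?_, ?_⟩
    · rw [hGf]
      exact ((((h1.add (hc _)).add (hc _)).sub (hc _)).add (hc _))
    · intro x
      rw [hG]
      rcases le_total x M with a1 | a1
      · rw [h3 (x - M) (by linarith), h3 (x - 2 * M) (by linarith), h3 (x - 3 * M) (by linarith),
          h3 (x - 4 * M) (by linarith)]
        simpa using h2 x
      · rw [h4 x a1]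
        rcases le_total x (2 * M) with a2 | a2
        · rw [h3 (x - 2 * M) (by linarith), h3 (x - 3 * M) (by linarith),
            h3 (x - 4 * M) (by linarith)]
          simpa using h2 (x - M)
        · rw [h4 (x - M) (by linarith)]
          rcases le_total x (3 * M) with a3 | a3
          · rw [h3 (x - 3 * M) (by linarith), h3 (x - 4 * M) (by linarith)]
            simpa using h2 (x - 2 * M)
          · rw [h4 (x - 2 * M) (by linarith)]
            rcases le_total x (4 * M) with a4 | a4
            · rw [h3 (x - 4 * M) (by linarith)]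
              simpa using h2 (x - 3 * M)
            · rw [h4 (x - 3 * M) (by linarith)]
              simpa using h2 (x - 4 * M)
    · intro x hx
      rw [hG, h3 x hx, h3 (x - M) (by linarith), h3 (x - 2 * M) (by linarith),
        h3 (x - 3 * M) (by linarith), h3 (x - 4 * M) (by linarith)]
      ring
    · intro x hx
      rw [h5n] at hx
      rw [hG, h4 x (by linarith), h4 (x - M) (by linarith), h4 (x - 2 * M) (by linarith),
        h4 (x - 3 * M) (by linarith), h4 (x - 4 * M) (by linarith)]
      ring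
    · intro x
      rw [hI]
      have b1 : (∫ u in (0:ℝ)..(x - 3 * M), GG n u) ≤ ∫ u in (0:ℝ)..(x - 2 * M), GG n u := by
        rcases le_total x (3 * M) with a | a
        · rw [h7 (x - 3 * M) (by linarith)]
          exact h5 _
        · rw [h8 (x - 2 * M) (by linarith)]
          exact h6 _
      have b2 := h5 x
      have b3 := h5 (x - M)
      have b4 := h5 (x - 4 * M)
      linarith
    · intro x
      rw [hI, h3n]
      have b1 : (∫ u in (0:ℝ)..(x - 4 * M), GG n u) ≤ ∫ u in (0:ℝ)..(x - 3 * M), GG n u := by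
        rcases le_total x (4 * M) with a | a
        · rw [h7 (x - 4 * M) (by linarith)]
          exact h5 _
        · rw [h8 (x - 3 * M) (by linarith)]
          exact h6 _
      have b2 := h6 x
      have b3 := h6 (x - M)
      have b4 := h6 (x - 2 * M)
      linarith
    · intro x hx
      rw [hI, h7 x hx, h7 (x - M) (by linarith), h7 (x - 2 * M) (by linarith),
        h7 (x - 3 * M) (by linarith), h7 (x - 4 * M) (by linarith)]
      ring
    · intro x hx
      rw [h5n] at hx
      rw [hI, h3n, h8 x (by linarith), h8 (x - M) (by linarith), h8 (x - 2 * M) (by linarith),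
        h8 (x - 3 * M) (by linarith), h8 (x - 4 * M) (by linarith)]
      ring

theorem GG_facts (n : ℕ) : Continuous (GG n) ∧ (∀ x, |GG n x| ≤ 1) ∧ (∀ x, x ≤ 0 → GG n x = 0) ∧
    (∀ x, (5:ℝ)^n ≤ x → GG n x = 0) ∧ (∀ x, 0 ≤ ∫ u in (0:ℝ)..x, GG n u) ∧ (∀ x, (∫ u in (0:ℝ)..x, GG n u) ≤ 3^n / 2) := by
  obtain ⟨h1, h2, h3, h4, h5, h6, -, -⟩ := GG_facts_aux n
  exact ⟨h1, h2, h3, h4, h5, h6⟩

end Pool.Agent.Helper606.CA
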