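import Pool.Agent.Helper606.CA2.Defs

set_option autoImplicit false

namespace Pool.Agent.Helper606.CA
open Complex Set


theorem barker (z : ℂ) (hz : ‖z‖ = 1) : 3/2 ≤ ‖1 + z + z^2 - z^3 + z^4‖ := by
  have hab : z.re ^ 2 + z.im ^ 2 = 1 := by
    have h := Complex.sq_norm z
    rw [hz, Complex.normSq_apply] at h
    nlinarith
  have hc : z * (starRingEnd ℂ) z = 1 := by
    rw [Complex.mul_conj, Complex.normSq_apply]
    have : z.re * z.re + z.im * z.im = 1 := by nlinarith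
    rw [this]; simp
  have hw : 1 + z + z^2 - z^3 + z^4
      = z^2 * ((starRingEnd ℂ) z ^ 2 + (starRingEnd ℂ) z + 1 - z + z^2) := by
    linear_combination -(1 + z * (starRingEnd ℂ) z + z) * hc
  have hre : ((starRingEnd ℂ) z ^ 2 + (starRingEnd ℂ) z + 1 - z + z^2).re
      = 1 + 2 * (z.re ^ 2 - z.im ^ 2) := by
    simp [pow_two]; ring
  have him : ((starRingEnd ℂ) z ^ 2 + (starRingEnd ℂ) z + 1 - z + z^2).im
      = -2 * z.im := by
    simp [pow_two]; ring
  rw [hw, norm_mul, norm_pow, hz, one_pow, one_mul]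
  refine le_of_sq_le_sq ?_ (norm_nonneg _)
  rw [Complex.sq_norm, Complex.normSq_apply, hre, him]
  have hb : z.im ^ 2 = 1 - z.re ^ 2 := by linarith
  have e : (1 + 2 * (z.re ^ 2 - z.im ^ 2)) * (1 + 2 * (z.re ^ 2 - z.im ^ 2))
      + -2 * z.im * (-2 * z.im)
      = (1 + 2 * (z.re ^ 2 - z.im ^ 2)) ^ 2 + 4 * z.im ^ 2 := by ring
  rw [e, hb]
  nlinarith [sq_nonneg (z.re ^ 2 - 3/8)]

end Pool.Agent.Helper606.CA
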