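import Pool.Agent.Helper606.CA2.Defs

set_option autoImplicit false

namespace Pool.Agent.Helper606.CA
open Complex Set


theorem hat_ft_cont : Continuous hat := by
  unfold hat
  fun_prop

theorem hat_ft_poly : ∫ x in (0:ℝ)..1, (-x/2 + 21/2 * x^2 - 20 * x^3 + 10 * x^4) = 1/4 := by
  have hder : ∀ x : ℝ, HasDerivAt (fun x : ℝ => -x^2/4 + 7/2 * x^3 - 5 * x^4 + 2 * x^5)
      (-x/2 + 21/2 * x^2 - 20 * x^3 + 10 * x^4) x := by
    intro x
    have h2 : HasDerivAt (fun x : ℝ => x^2) (2 * x) x := by simpa using hasDerivAt_pow 2 x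
    have h3 : HasDerivAt (fun x : ℝ => x^3) (3 * x^2) x := by simpa using hasDerivAt_pow 3 x
    have h4 : HasDerivAt (fun x : ℝ => x^4) (4 * x^3) x := by simpa using hasDerivAt_pow 4 x
    have h5 : HasDerivAt (fun x : ℝ => x^5) (5 * x^4) x := by simpa using hasDerivAt_pow 5 x
    have h := (((h2.neg.div_const 4).add (h3.const_mul (7/2))).sub (h4.const_mul 5)).add
      (h5.const_mul 2)
    refine h.congr_deriv ?_
    ring
  rw [intervalIntegral.integral_eq_sub_of_hasDerivAt (fun x _ => hder x)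
    (by apply Continuous.intervalIntegrable; fun_prop)]
  norm_num

theorem hat_ft {ω : ℝ} (h0 : 0 < ω) (h1 : ω ≤ Real.pi) :
    1/4 ≤ ‖∫ x in (0:ℝ)..1, (hat x : ℂ) * exp ((ω * x : ℝ) * I)‖ := by
  have hc := hat_ft_cont
  set c : ℂ := exp (((-(ω/2) : ℝ) : ℂ) * I) with hcd
  have hcn : ‖c‖ = 1 := Complex.norm_exp_ofReal_mul_I _
  have hcont : Continuous (fun x : ℝ => c * ((hat x : ℂ) * exp ((ω * x : ℝ) * I))) := by
    have h2 : Continuous (fun x : ℝ => (hat x : ℂ)) := Complex.continuous_ofReal.comp hc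
    have h3 : Continuous (fun x : ℝ => exp (((ω * x : ℝ) : ℂ) * I)) := by fun_prop
    exact continuous_const.mul (h2.mul h3)
  have h2 : ‖∫ x in (0:ℝ)..1, (hat x : ℂ) * exp ((ω * x : ℝ) * I)‖ =
      ‖∫ x in (0:ℝ)..1, c * ((hat x : ℂ) * exp ((ω * x : ℝ) * I))‖ := by
    rw [intervalIntegral.integral_const_mul, norm_mul, hcn, one_mul]
  rw [h2]
  refine le_trans ?_ (Complex.re_le_norm _)
  have h3 : (∫ x in (0:ℝ)..1, c * ((hat x : ℂ) * exp ((ω * x : ℝ) * I))).re =
      ∫ x in (0:ℝ)..1, (c * ((hat x : ℂ) * exp ((ω * x : ℝ) * I))).re :=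
    (Complex.reCLM.intervalIntegral_comp_comm (hcont.intervalIntegrable 0 1)).symm
  have h4 : ∀ x : ℝ, (c * ((hat x : ℂ) * exp ((ω * x : ℝ) * I))).re =
      hat x * Real.cos (ω * (x - 1/2)) := by
    intro x
    have h5 : c * ((hat x : ℂ) * exp ((ω * x : ℝ) * I)) =
        (hat x : ℂ) * exp (((ω * (x - 1/2) : ℝ) : ℂ) * I) := by
      rw [hcd, mul_left_comm, ← Complex.exp_add]
      congr 2
      push_cast
      ring
    rw [h5, Complex.re_ofReal_mul, Complex.exp_ofReal_mul_I_re]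
  rw [h3]
  simp only [h4]
  rw [← hat_ft_poly]
  refine intervalIntegral.integral_mono_on zero_le_one ?_ ?_ ?_
  · apply Continuous.intervalIntegrable; fun_prop
  · apply Continuous.intervalIntegrable; fun_prop
  · intro x hx
    obtain ⟨hx0, hx1⟩ := hx
    obtain ⟨v, hv⟩ : ∃ v : ℝ, v = 2 * x - 1 := ⟨_, rfl⟩
    have hv1 : -1 ≤ v := by rw [hv]; linarith
    have hv2 : v ≤ 1 := by rw [hv]; linarith
    have hhat : (1 - v^2) / 2 ≤ hat x := by
      unfold hat
      refine le_trans ?_ (le_max_right _ _)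
      rw [← hv]
      have h6 : |v| ^ 2 = v ^ 2 := sq_abs v
      nlinarith [sq_nonneg (1 - |v|)]
    have harg : ω * (x - 1/2) = ω * v / 2 := by rw [hv]; ring
    have hcos0 : 0 ≤ Real.cos (ω * (x - 1/2)) := by
      rw [harg]
      apply Real.cos_nonneg_of_mem_Icc
      constructor <;> nlinarith
    have hcos1 : 1 - 5/4 * v^2 ≤ Real.cos (ω * (x - 1/2)) := by
      rw [harg]
      refine le_trans ?_ (Real.one_sub_sq_div_two_le_cos)
      have hπ : Real.pi < 3.15 := Real.pi_lt_d2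
      have hω : ω^2 ≤ 10 := by nlinarith
      have : (ω * v / 2)^2 / 2 = ω^2 * v^2 / 8 := by ring
      rw [this]
      nlinarith [sq_nonneg v]
    have hv3 : 0 ≤ (1 - v^2) / 2 := by nlinarith
    calc -x/2 + 21/2 * x^2 - 20 * x^3 + 10 * x^4 = (1 - v^2) / 2 * (1 - 5/4 * v^2) := by
          rw [hv]; ring
      _ ≤ (1 - v^2) / 2 * Real.cos (ω * (x - 1/2)) := mul_le_mul_of_nonneg_left hcos1 hv3
      _ ≤ hat x * Real.cos (ω * (x - 1/2)) := mul_le_mul_of_nonneg_right hhat hcos0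

end Pool.Agent.Helper606.CA
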