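import Pool.Agent.Helper606.CA2.Defs
import Pool.Agent.Helper606.CA2.P_hat_ft
import Pool.Agent.Helper606.CA2.P_barker
import Pool.Agent.Helper606.CA2.P_GG_facts

set_option autoImplicit false

namespace Pool.Agent.Helper606.CA
open Complex Set


theorem GG_ft_supp (g : ℝ → ℂ) (hg : Continuous g) (L a b : ℝ) (ha : a ≤ 0) (hb : L ≤ b)
    (h0 : ∀ u, u ≤ 0 → g u = 0) (h1 : ∀ u, L ≤ u → g u = 0) :
    ∫ x in a..b, g x = ∫ x in (0:ℝ)..L, g x := by
  have i : ∀ s t : ℝ, IntervalIntegrable g MeasureTheory.volume s t :=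
    fun s t => hg.intervalIntegrable s t
  rw [← intervalIntegral.integral_add_adjacent_intervals (i a 0) (i 0 b),
    ← intervalIntegral.integral_add_adjacent_intervals (i 0 L) (i L b)]
  have e1 : ∫ x in a..(0:ℝ), g x = 0 := by
    have h : ∫ x in a..(0:ℝ), g x = ∫ x in a..(0:ℝ), (0:ℂ) := by
      refine intervalIntegral.integral_congr (fun x hx => ?_)
      rw [uIcc_of_le ha] at hx
      exact h0 x hx.2
    rw [h, intervalIntegral.integral_zero]
  have e2 : ∫ x in L..b, g x = 0 := by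
    have h : ∫ x in L..b, g x = ∫ x in L..b, (0:ℂ) := by
      refine intervalIntegral.integral_congr (fun x hx => ?_)
      rw [uIcc_of_le hb] at hx
      exact h1 x hx.1
    rw [h, intervalIntegral.integral_zero]
  rw [e1, e2, zero_add, add_zero]

theorem GG_ft (n : ℕ) {ω : ℝ} (h0 : 0 < ω) (h1 : ω ≤ Real.pi) :
    (1/4) * (3/2:ℝ)^n ≤ ‖∫ x in (0:ℝ)..((5:ℝ)^n), (GG n x : ℂ) * exp ((ω * x : ℝ) * I)‖ := by
  induction n with
  | zero =>
    have h := hat_ft h0 h1
    rw [pow_zero, pow_zero, mul_one]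
    exact h
  | succ n ih =>
    obtain ⟨hc, _, hz0, hz1, _, _⟩ := GG_facts n
    obtain ⟨F, hF⟩ : ∃ F, F = ∫ x in (0:ℝ)..((5:ℝ)^n), (GG n x : ℂ) * exp ((ω * x : ℝ) * I) :=
      ⟨_, rfl⟩
    rw [← hF] at ih
    obtain ⟨z, hzdef⟩ : ∃ z, z = exp ((ω * 5 ^ n : ℝ) * I) := ⟨_, rfl⟩
    have hz : ‖z‖ = 1 := by rw [hzdef]; exact Complex.norm_exp_ofReal_mul_I _
    have h5 : (0:ℝ) < 5 ^ n := by positivity
    have hcc : Continuous (fun u : ℝ => (GG n u : ℂ) * exp ((ω * u : ℝ) * I)) := by
      refine (Complex.continuous_ofReal.comp hc).mul ?_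
      exact Complex.continuous_exp.comp
        ((Complex.continuous_ofReal.comp (continuous_const.mul continuous_id)).mul continuous_const)
    have hj : ∀ j ∈ Finset.range 5, ∫ x in (0:ℝ)..((5:ℝ)^(n+1)),
        (cf j : ℂ) * ((GG n (x - j * 5 ^ n) : ℂ) * exp ((ω * x : ℝ) * I)) =
        (cf j : ℂ) * (z ^ j * F) := by
      intro j hj
      rw [Finset.mem_range] at hj
      rw [intervalIntegral.integral_const_mul]
      congr 1
      have e : ∀ x : ℝ, (GG n (x - j * 5 ^ n) : ℂ) * exp ((ω * x : ℝ) * I) =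
          (fun u : ℝ => z ^ j * ((GG n u : ℂ) * exp ((ω * u : ℝ) * I))) (x - j * 5 ^ n) := by
        intro x
        have h2 : exp ((ω * x : ℝ) * I) = z ^ j * exp ((ω * (x - j * 5 ^ n) : ℝ) * I) := by
          rw [hzdef, ← Complex.exp_nat_mul, ← Complex.exp_add]
          congr 1
          push_cast
          ring
        show _ = z ^ j * ((GG n (x - j * 5 ^ n) : ℂ) * exp ((ω * (x - j * 5 ^ n) : ℝ) * I))
        rw [h2]
        ring
      simp_rw [e]
      rw [intervalIntegral.integral_comp_sub_right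
        (fun u : ℝ => z ^ j * ((GG n u : ℂ) * exp ((ω * u : ℝ) * I)))]
      have hj4 : (j : ℝ) ≤ 4 := by exact_mod_cast (Nat.lt_succ_iff.mp hj)
      rw [intervalIntegral.integral_const_mul,
        GG_ft_supp (fun u : ℝ => (GG n u : ℂ) * exp ((ω * u : ℝ) * I)) hcc ((5:ℝ)^n) _ _
          ?_ ?_ ?_ ?_, ← hF]
      · have : (0:ℝ) ≤ j * 5 ^ n := by positivity
        linarith
      · rw [pow_succ]
        nlinarith
      · intro u hu
        rw [hz0 u hu]
        simp
      · intro u hu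
        rw [hz1 u hu]
        simp
    have hsum : ∫ x in (0:ℝ)..((5:ℝ)^(n+1)), (GG (n+1) x : ℂ) * exp ((ω * x : ℝ) * I) =
        ∑ j ∈ Finset.range 5, (cf j : ℂ) * (z ^ j * F) := by
      have e : ∀ x : ℝ, (GG (n+1) x : ℂ) * exp ((ω * x : ℝ) * I) =
          ∑ j ∈ Finset.range 5,
            (cf j : ℂ) * ((GG n (x - j * 5 ^ n) : ℂ) * exp ((ω * x : ℝ) * I)) := by
        intro x
        have h2 : (GG (n+1) x) = ∑ j ∈ Finset.range 5, cf j * GG n (x - j * 5 ^ n) := rfl
        rw [h2, Complex.ofReal_sum, Finset.sum_mul]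
        refine Finset.sum_congr rfl (fun j _ => ?_)
        rw [Complex.ofReal_mul, mul_assoc]
      simp_rw [e]
      rw [intervalIntegral.integral_finsetSum]
      · exact Finset.sum_congr rfl hj
      · intro j _
        refine Continuous.intervalIntegrable ?_ _ _
        refine continuous_const.mul (Continuous.mul ?_ ?_)
        · exact Complex.continuous_ofReal.comp (hc.comp (continuous_id.sub continuous_const))
        · exact Complex.continuous_exp.comp
            ((Complex.continuous_ofReal.comp (continuous_const.mul continuous_id)).mul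
              continuous_const)
    rw [hsum]
    have hval : ∑ j ∈ Finset.range 5, (cf j : ℂ) * (z ^ j * F) =
        (1 + z + z ^ 2 - z ^ 3 + z ^ 4) * F := by
      simp only [Finset.sum_range_succ, Finset.sum_range_zero, cf]
      norm_num
      ring
    rw [hval, norm_mul]
    have hb := barker z hz
    have hFn : 0 ≤ ‖F‖ := norm_nonneg _
    calc (1/4) * (3/2:ℝ)^(n+1) = (3/2) * ((1/4) * (3/2:ℝ)^n) := by ring
      _ ≤ (3/2) * ‖F‖ := by linarith
      _ ≤ ‖1 + z + z ^ 2 - z ^ 3 + z ^ 4‖ * ‖F‖ := mul_le_mul_of_nonneg_right hb hFn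

end Pool.Agent.Helper606.CA
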