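import Pool.Agent.Helper606.CA2.Defs

set_option autoImplicit false

namespace Pool.Agent.Helper606.CA
open Complex Set


theorem J_close {κ : ℝ → ℝ} {θ : ℝ → ℝ} {a b t μ : ℝ} (hκ : κ a = κ b) (hk : 1 ≤ κ a)
    (ht : 0 < t) (ht1 : t ≤ 1/4) (hμ : 0 ≤ μ) (hμ1 : μ ≤ 1) (hb : θ b = t)
    (hab : |θ a - θ b| ≤ μ * t) :
    |JJ κ θ a - JJ κ θ b| ≤ 2 * μ * t ^ 2 := by
  have hS := abs_le.mp hab
  have hκ0 : 0 < κ a := by linarith
  have e1 : JJ κ θ a - JJ κ θ b = (Real.cos (θ b) - Real.cos (θ a)) / κ a := by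
    unfold JJ
    rw [← hκ]
    ring
  have hsin : ∀ x : ℝ, |Real.sin x| ≤ |x| := by
    intro x
    exact Real.abs_sin_le_abs
  have hD : |(θ b - θ a) / 2| ≤ μ * t / 2 := by
    rw [abs_le]
    constructor <;> linarith [hS.1, hS.2]
  have hμt : μ * t ≤ t := by nlinarith
  have hS2 : |(θ b + θ a) / 2| ≤ 3 / 2 * t := by
    rw [abs_le, hb]
    rw [hb] at hS
    constructor <;> linarith [hS.1, hS.2]
  have hc : |Real.cos (θ b) - Real.cos (θ a)| ≤ 2 * μ * t ^ 2 := by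
    rw [Real.cos_sub_cos, abs_mul, abs_mul]
    have h1 := (hsin ((θ b + θ a) / 2)).trans hS2
    have h2 := (hsin ((θ b - θ a) / 2)).trans hD
    have h3 : |Real.sin ((θ b + θ a) / 2)| * |Real.sin ((θ b - θ a) / 2)|
        ≤ (3 / 2 * t) * (μ * t / 2) :=
      mul_le_mul h1 h2 (abs_nonneg _) (by positivity)
    have h4 : |(-2:ℝ)| = 2 := by norm_num
    rw [h4, mul_assoc]
    have h5 : 0 ≤ μ * t ^ 2 := by positivity
    have h6 : (3 / 2 * t) * (μ * t / 2) = 3 / 4 * (μ * t ^ 2) := by ring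
    rw [h6] at h3
    linarith
  rw [e1, abs_div, abs_of_pos hκ0]
  exact (div_le_self (abs_nonneg _) hk).trans hc

end Pool.Agent.Helper606.CA
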