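import Pool.Agent.Helper606.CA2.Defs
import Pool.Agent.Helper606.CA.P_ht_add
import Pool.Agent.Helper606.CA.P_ht_polar
import Pool.Agent.Helper606.CA.P_ang_mem
import Pool.Agent.Helper606.CA.P_fwd_le
import Pool.Agent.Helper606.CA.P_bwd_le

set_option autoImplicit false

namespace Pool.Agent.Helper606.CA
open Complex Set


theorem next_ht {κ : ℝ → ℝ} {C : Set ℂ} {θ : ℝ → ℝ} (hc : Continuous κ) (hp : ∀ s, 0 < κ s)
    (h : IsAngle κ C θ) {s s' : ℝ} (h1 : Next κ θ s s') :
    ht κ (psi κ s + θ s) s (gam κ s') = 0 := by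
  have hpi := Real.pi_pos
  have hF := (fwd_le h (h.pos s) (by linarith [h.lt s])).mpr (le_refl (θ s))
  have hB := (bwd_le h (h.pos s') (by linarith [h.lt s'])).mpr (le_refl (θ s'))
  rw [h1.2] at hB
  obtain ⟨c1, hc1, hang1⟩ := h.attl s
  obtain ⟨c2, hc2, hang2⟩ := h.attu s'
  have e1 : ht κ (psi κ s + θ s) s c1 = 0 := by
    rw [ht_polar, hang1, show θ s - (psi κ s + θ s - psi κ s) = 0 by ring, Real.sin_zero, mul_zero]
  have e2 : ht κ (psi κ s + θ s) s' c2 = 0 := by
    have h2 := h1.2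
    rw [ht_polar, hang2, show Real.pi - θ s' - (psi κ s + θ s - psi κ s') = Real.pi by linarith,
      Real.sin_pi, mul_zero]
  have a1 := ht_add κ (psi κ s + θ s) s s' c1
  have a2 := ht_add κ (psi κ s + θ s) s s' c2
  have b1 := hB c1 hc1
  have b2 := hF c2 hc2
  linarith

end Pool.Agent.Helper606.CA
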