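import Pool.Agent.Helper606.CA2.Defs
import Pool.Agent.Helper606.CA.P_psi_deriv
import Pool.Agent.Helper606.CA.P_ht_int
import Pool.Agent.Helper606.CA2.P_next_ht

set_option autoImplicit false

namespace Pool.Agent.Helper606.CA
open Complex Set


theorem next_J {κ g : ℝ → ℝ} {C : Set ℂ} {θ : ℝ → ℝ} (hp : ∀ s, 0 < κ s)
    (hd : ∀ s, HasDerivAt κ (g s) s) (hg : Continuous g)
    (h : IsAngle κ C θ) {s s' : ℝ} (h1 : Next κ θ s s') :
    JJ κ θ s' - JJ κ θ s =
      - ∫ u in s..s', (1 - Real.cos (psi κ u - (psi κ s + θ s))) * (g u / κ u ^ 2) := by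
  have hκc : Continuous κ := continuous_iff_continuousAt.mpr fun u => (hd u).continuousAt
  obtain ⟨α, hα⟩ : ∃ α : ℝ, α = psi κ s + θ s := ⟨_, rfl⟩
  rw [← hα]
  have hpc : Continuous (psi κ) := continuous_iff_continuousAt.mpr fun u => (psi_deriv hκc u).continuousAt
  have h0 : ∫ u in s..s', Real.sin (psi κ u - α) = 0 := by
    rw [← ht_int hκc, hα]
    exact next_ht hκc hp h h1
  have hne : ∀ u, κ u ≠ 0 := fun u => (hp u).ne'
  have hF : ∀ u, HasDerivAt (fun u => (1 - Real.cos (psi κ u - α)) / κ u)
      (Real.sin (psi κ u - α) - (1 - Real.cos (psi κ u - α)) * (g u / κ u ^ 2)) u := by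
    intro u
    have h2 : HasDerivAt (fun u => psi κ u - α) (κ u) u := (psi_deriv hκc u).sub_const α
    have h3 : HasDerivAt (fun u => 1 - Real.cos (psi κ u - α)) (Real.sin (psi κ u - α) * κ u) u := by
      have h4 := (h2.cos).const_sub 1
      exact h4.congr_deriv (by ring)
    have h5 := h3.div (hd u) (hne u)
    refine h5.congr_deriv ?_
    have := hne u
    field_simp
  have c1 : Continuous fun u => Real.sin (psi κ u - α) := Real.continuous_sin.comp (hpc.sub continuous_const)
  have c2 : Continuous fun u => (1 - Real.cos (psi κ u - α)) * (g u / κ u ^ 2) :=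
    (continuous_const.sub (Real.continuous_cos.comp (hpc.sub continuous_const))).mul
      (hg.div (hκc.pow 2) (fun u => pow_ne_zero 2 (hne u)))
  have h6 := intervalIntegral.integral_eq_sub_of_hasDerivAt (a := s) (b := s') (fun u _ => hF u)
    ((c1.sub c2).intervalIntegrable s s')
  rw [intervalIntegral.integral_sub (c1.intervalIntegrable s s') (c2.intervalIntegrable s s'), h0] at h6
  have e1 : psi κ s' - α = θ s' := by
    have := h1.2
    rw [hα]; linarith
  have e2 : psi κ s - α = -θ s := by rw [hα]; ring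
  rw [e1, e2, Real.cos_neg] at h6
  unfold JJ
  linarith

end Pool.Agent.Helper606.CA
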