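import Pool.Agent.Helper606.CA2.Defs
import Pool.Agent.Helper606.CA.P_psi_deriv
import Pool.Agent.Helper606.CA.P_psi_mono

set_option autoImplicit false

namespace Pool.Agent.Helper606.CA
open Complex Set


theorem next_range {κ : ℝ → ℝ} {C : Set ℂ} {θ : ℝ → ℝ} (hc : Continuous κ) (hp : ∀ s, 0 < κ s)
    (h : IsAngle κ C θ) {s s' u : ℝ} (h1 : Next κ θ s s') (h2 : s ≤ u) (h3 : u ≤ s') :
    -θ s ≤ psi κ u - (psi κ s + θ s) ∧ psi κ u - (psi κ s + θ s) ≤ θ s' := by
  have hm := (psi_mono hc hp).monotone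
  have h4 := hm h2
  have h5 := hm h3
  have h6 := h1.2
  constructor
  · linarith
  · linarith

end Pool.Agent.Helper606.CA
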