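import Pool.Agent.Helper606.CA2.Defs
import Pool.Agent.Helper606.CA2.P_next_J
import Pool.Agent.Helper606.CA2.P_next_range

set_option autoImplicit false

namespace Pool.Agent.Helper606.CA
open Complex Set


theorem J_step {κ g : ℝ → ℝ} {C : Set ℂ} {θ : ℝ → ℝ} (hp : ∀ s, 0 < κ s)
    (hd : ∀ s, HasDerivAt κ (g s) s) (hg : Continuous g)
    (h : IsAngle κ C θ) {s s' η : ℝ} (h1 : Next κ θ s s') (hη : 0 ≤ η)
    (hgη : ∀ u ∈ Icc s s', |g u| ≤ η) (hκ : ∀ u ∈ Icc s s', 1 ≤ κ u ∧ κ u ≤ 2)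
    (hsm : η * (s' - s) ≤ 1/8) :
    |JJ κ θ s' - JJ κ θ s| ≤ 4 * η * (s' - s) * JJ κ θ s := by
  obtain ⟨hlt, _⟩ := h1
  have hc : Continuous κ := continuous_iff_continuousAt.mpr fun x => (hd x).continuousAt
  have hs : s ∈ Icc s s' := ⟨le_rfl, hlt.le⟩
  have hs' : s' ∈ Icc s s' := ⟨hlt.le, le_rfl⟩
  have hJs : 1 - Real.cos (θ s) = κ s * JJ κ θ s := by
    unfold JJ; field_simp [(hp s).ne']
  have hJs' : 1 - Real.cos (θ s') = κ s' * JJ κ θ s' := by
    unfold JJ; field_simp [(hp s').ne']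
  have hJ0 : 0 ≤ JJ κ θ s := div_nonneg (by linarith [Real.cos_le_one (θ s)]) (hp s).le
  have hJ0' : 0 ≤ JJ κ θ s' := div_nonneg (by linarith [Real.cos_le_one (θ s')]) (hp s').le
  set D := |JJ κ θ s' - JJ κ θ s| with hD
  have hM : JJ κ θ s' ≤ JJ κ θ s + D := by
    have := le_abs_self (JJ κ θ s' - JJ κ θ s)
    linarith
  have hD0 : 0 ≤ D := abs_nonneg _
  have hb1 : 1 - Real.cos (θ s) ≤ 2 * (JJ κ θ s + D) := by
    rw [hJs]; nlinarith [(hκ s hs).2, (hκ s hs).1]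
  have hb2 : 1 - Real.cos (θ s') ≤ 2 * (JJ κ θ s + D) := by
    rw [hJs']; nlinarith [(hκ s' hs').2, (hκ s' hs').1]
  have hint : ‖∫ u in s..s', (1 - Real.cos (psi κ u - (psi κ s + θ s))) * (g u / κ u ^ 2)‖ ≤
      (2 * (JJ κ θ s + D) * η) * |s' - s| := by
    apply intervalIntegral.norm_integral_le_of_norm_le_const
    intro u hu
    rw [Set.uIoc_of_le hlt.le] at hu
    have huI : u ∈ Icc s s' := ⟨hu.1.le, hu.2⟩
    obtain ⟨r1, r2⟩ := next_range hc hp h ⟨hlt, ‹_›⟩ huI.1 huI.2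
    have hcos : 1 - Real.cos (psi κ u - (psi κ s + θ s)) ≤ 2 * (JJ κ θ s + D) := by
      rcases le_total 0 (psi κ u - (psi κ s + θ s)) with hx | hx
      · have : Real.cos (θ s') ≤ Real.cos (psi κ u - (psi κ s + θ s)) :=
          Real.cos_le_cos_of_nonneg_of_le_pi hx (by linarith [h.lt s', Real.pi_pos]) r2
        linarith
      · have : Real.cos (θ s) ≤ Real.cos (-(psi κ u - (psi κ s + θ s))) :=
          Real.cos_le_cos_of_nonneg_of_le_pi (by linarith) (by linarith [h.lt s, Real.pi_pos])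
            (by linarith)
        rw [Real.cos_neg] at this
        linarith
    rw [norm_mul, Real.norm_eq_abs, Real.norm_eq_abs,
      abs_of_nonneg (by linarith [Real.cos_le_one (psi κ u - (psi κ s + θ s))] :
        0 ≤ 1 - Real.cos (psi κ u - (psi κ s + θ s)))]
    have hg2 : |g u / κ u ^ 2| ≤ η := by
      rw [abs_div, abs_of_pos (by have := hp u; positivity : 0 < κ u ^ 2)]
      have h1k := (hκ u huI).1
      have : 1 ≤ κ u ^ 2 := by nlinarith
      rw [div_le_iff₀ (by linarith)]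
      have := hgη u huI
      nlinarith
    exact mul_le_mul hcos hg2 (abs_nonneg _) (by linarith)
  have hnext := next_J hp hd hg h ⟨hlt, ‹_›⟩
  have hDle : D ≤ (2 * (JJ κ θ s + D) * η) * (s' - s) := by
    rw [hD, hnext, abs_neg, ← Real.norm_eq_abs]
    rw [abs_of_pos (by linarith : 0 < s' - s)] at hint
    rw [hD, hnext, abs_neg, ← Real.norm_eq_abs] at hint
    exact hint
  have h5 : η * (s' - s) * D ≤ 1 / 8 * D := mul_le_mul_of_nonneg_right hsm hD0
  have h6 : 0 ≤ η * (s' - s) * JJ κ θ s := by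
    have : 0 ≤ s' - s := by linarith
    positivity
  nlinarith

end Pool.Agent.Helper606.CA
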