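import Pool.Agent.Helper606.CA2.Defs
import Pool.Agent.Helper606.CA2.P_J_step

set_option autoImplicit false

namespace Pool.Agent.Helper606.CA
open Complex Set


theorem J_orbit {κ g : ℝ → ℝ} {C : Set ℂ} {θ : ℝ → ℝ} (hp : ∀ s, 0 < κ s)
    (hd : ∀ s, HasDerivAt κ (g s) s) (hg : Continuous g)
    (h : IsAngle κ C θ) {x : ℕ → ℝ} (hx : ∀ i, Next κ θ (x i) (x (i+1))) {m : ℕ} {η D : ℝ}
    (hη : 0 ≤ η) (hgη : ∀ u ∈ Icc (x 0) (x m), |g u| ≤ η)
    (hκ : ∀ u ∈ Icc (x 0) (x m), 1 ≤ κ u ∧ κ u ≤ 2) (hD : x m - x 0 ≤ D) (hsm : η * D ≤ 1/100) :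
    |JJ κ θ (x m) - JJ κ θ (x 0)| ≤ 8 * (η * D) * JJ κ θ (x 0) := by
  have hmono : StrictMono x := strictMono_nat_of_lt_succ (fun i => (hx i).1)
  have hJ0 : ∀ s, 0 ≤ JJ κ θ s := fun s => by
    unfold JJ
    exact div_nonneg (by linarith [Real.cos_le_one (θ s)]) (hp s).le
  have key : ∀ i, i ≤ m → |JJ κ θ (x i) - JJ κ θ (x 0)| ≤ 8 * (η * (x i - x 0)) * JJ κ θ (x 0) := by
    intro i
    induction i with
    | zero => intro _; simp
    | succ i ih =>
      intro him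
      have h1 := ih (by omega)
      have h0i : x 0 ≤ x i := hmono.monotone (Nat.zero_le i)
      have hii : x i < x (i+1) := (hx i).1
      have him' : x (i+1) ≤ x m := hmono.monotone him
      have hsub : ∀ u ∈ Icc (x i) (x (i+1)), u ∈ Icc (x 0) (x m) := fun u hu =>
        ⟨le_trans h0i hu.1, le_trans hu.2 him'⟩
      have hηD : η * (x i - x 0) ≤ 1/100 := by
        have : η * (x i - x 0) ≤ η * D := mul_le_mul_of_nonneg_left (by linarith) hη
        linarith
      have hδ : η * (x (i+1) - x i) ≤ 1/8 := by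
        have : η * (x (i+1) - x i) ≤ η * D := mul_le_mul_of_nonneg_left (by linarith) hη
        linarith
      have h2 := J_step hp hd hg h (hx i) hη (fun u hu => hgη u (hsub u hu))
        (fun u hu => hκ u (hsub u hu)) hδ
      have hJ := hJ0 (x 0)
      have hJi : JJ κ θ (x i) ≤ 2 * JJ κ θ (x 0) := by
        have h3 := (abs_le.mp h1).2
        have h4 : 8 * (η * (x i - x 0)) * JJ κ θ (x 0) ≤ 1 * JJ κ θ (x 0) :=
          mul_le_mul_of_nonneg_right (by linarith) hJ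
        linarith
      have hδ0 : 0 ≤ 4 * η * (x (i+1) - x i) := by
        have : 0 ≤ η * (x (i+1) - x i) := mul_nonneg hη (by linarith)
        linarith
      have h5 : 4 * η * (x (i+1) - x i) * JJ κ θ (x i) ≤
          4 * η * (x (i+1) - x i) * (2 * JJ κ θ (x 0)) := mul_le_mul_of_nonneg_left hJi hδ0
      have h6 : |JJ κ θ (x (i+1)) - JJ κ θ (x 0)| ≤
          |JJ κ θ (x (i+1)) - JJ κ θ (x i)| + |JJ κ θ (x i) - JJ κ θ (x 0)| := abs_sub_le _ _ _
      calc |JJ κ θ (x (i+1)) - JJ κ θ (x 0)|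
          ≤ 4 * η * (x (i+1) - x i) * (2 * JJ κ θ (x 0)) + 8 * (η * (x i - x 0)) * JJ κ θ (x 0) := by
            linarith
        _ = 8 * (η * (x (i+1) - x 0)) * JJ κ θ (x 0) := by ring
  refine (key m le_rfl).trans ?_
  refine mul_le_mul_of_nonneg_right ?_ (hJ0 _)
  have := mul_le_mul_of_nonneg_left hD hη
  linarith

end Pool.Agent.Helper606.CA
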