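import Pool.Agent.Helper606.CA2.Defs

set_option autoImplicit false

namespace Pool.Agent.Helper606.CA
open Complex Set


theorem pq_facts : (∀ j, 0 < wq j) ∧ (∀ j, 0 < etq j ∧ etq j ≤ 1) ∧ (∀ j, 0 < lq j) ∧
    (∀ j, pq (j+1) - pq j = etq j) ∧ (∀ j, pq j < 3/2) ∧
    (∀ j, 130 ≤ j → pq j + lq j + etq j / 2 ≤ pq (j+1)) ∧
    (∀ j, 130 ≤ j → 5/4 ≤ pq j) ∧ (∀ j, 130 ≤ j → pq j + lq j + etq (j+1) / 2 ≤ pq (j+1)) ∧
    (∀ j, 130 ≤ j → etq j ≤ 1/1000) := by
  have hw : ∀ j, 0 < wq j := fun j => by unfold wq; positivity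
  have he : ∀ j, 0 < etq j := fun j => by unfold etq; positivity
  have he1 : ∀ j, etq j ≤ 1 := fun j => by
    unfold etq; exact pow_le_one₀ (by norm_num) (by norm_num)
  have hl : ∀ j, 0 < lq j := fun j => by unfold lq wq; positivity
  have hstep : ∀ j, pq (j+1) - pq j = etq j := fun j => by
    unfold pq etq; rw [pow_succ]; ring
  have hesucc : ∀ j, etq (j+1) = 9/10 * etq j := fun j => by
    unfold etq; rw [pow_succ]; ring
  have hl2 : ∀ j, 1 ≤ j → lq j ≤ etq j / 2 := by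
    intro j hj
    have h1 : lq j = (5/128 : ℝ)^j := by
      unfold lq wq
      rw [pow_mul, ← mul_pow]
      norm_num
    have h2 : (5/128 : ℝ)^j ≤ (9/20 : ℝ)^j :=
      pow_le_pow_left₀ (by norm_num) (by norm_num) j
    have h3 : (9/20 : ℝ)^j = (9/10:ℝ)^j * (1/2:ℝ)^j := by
      rw [← mul_pow]; norm_num
    have h4 : (1/2:ℝ)^j ≤ 1/2 := by
      calc (1/2:ℝ)^j ≤ (1/2:ℝ)^1 := pow_le_pow_of_le_one (by norm_num) (by norm_num) hj
        _ = 1/2 := by norm_num
    have h5 := he j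
    unfold etq at h5 ⊢
    rw [h1]
    calc (5/128 : ℝ)^j ≤ (9/10:ℝ)^j * (1/2:ℝ)^j := by rw [← h3]; exact h2
      _ ≤ (9/10:ℝ)^j * (1/2) := by gcongr
      _ = (9/10:ℝ)^j / 2 := by ring
  have hsmall : ∀ j, 130 ≤ j → etq j ≤ 1/1000 := by
    intro j hj
    unfold etq
    calc (9/10:ℝ)^j ≤ (9/10:ℝ)^130 := pow_le_pow_of_le_one (by norm_num) (by norm_num) hj
      _ ≤ 1/1000 := by norm_num
  refine ⟨hw, fun j => ⟨he j, he1 j⟩, hl, hstep, ?_, ?_, ?_, ?_, hsmall⟩
  · intro j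
    have := he j
    unfold etq at this
    unfold pq
    linarith
  · intro j hj
    have h1 := hstep j
    have h2 := hl2 j (by omega)
    linarith
  · intro j hj
    have h1 := hsmall j hj
    unfold etq at h1
    unfold pq
    linarith
  · intro j hj
    have h1 := hstep j
    have h2 := hl2 j (by omega)
    have h3 := hesucc j
    have h4 := he j
    linarith

end Pool.Agent.Helper606.CA
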