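import Pool.Agent.Helper606.CA2.Defs
import Pool.Agent.Helper606.CA2.P_GG_facts
import Pool.Agent.Helper606.CA2.P_pq_facts

set_option autoImplicit false

namespace Pool.Agent.Helper606.CA
open Complex Set


theorem T_zero {j : ℕ} {s : ℝ} (h : s ≤ pq j ∨ pq j + lq j ≤ s) :
    GG j ((s - pq j) / wq j) = 0 := by
  have hw : 0 < wq j := by unfold wq; positivity
  rcases h with h | h
  · exact (GG_facts j).2.2.1 _ (div_nonpos_of_nonpos_of_nonneg (by linarith) hw.le)
  · refine (GG_facts j).2.2.2.1 _ ?_
    rw [le_div_iff₀ hw]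
    unfold lq at h
    linarith

end Pool.Agent.Helper606.CA
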