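import Pool.Agent.Helper606.CA2.Defs
import Pool.Agent.Helper606.CA.P_psi_deriv
import Pool.Agent.Helper606.CA.P_angle_lip

set_option autoImplicit false

namespace Pool.Agent.Helper606.CA
open Complex Set


theorem angle_cont {κ : ℝ → ℝ} {C : Set ℂ} {θ : ℝ → ℝ} (hc : Continuous κ) (hp : ∀ s, 0 < κ s)
    (h : IsAngle κ C θ) : Continuous θ := by
  have hψ : Continuous (psi κ) :=
    continuous_iff_continuousAt.2 fun s => (psi_deriv hc s).continuousAt
  have hle : ∀ s s', |θ s' - θ s| ≤ |psi κ s' - psi κ s| := by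
    intro s s'
    rcases lt_trichotomy s s' with h1 | h1 | h1
    · exact (angle_lip hc hp h h1).trans (le_abs_self _)
    · subst h1; simp
    · rw [abs_sub_comm (θ s') (θ s), abs_sub_comm (psi κ s') (psi κ s)]
      exact (angle_lip hc hp h h1).trans (le_abs_self _)
  rw [continuous_iff_continuousAt]
  intro s
  rw [ContinuousAt, tendsto_iff_dist_tendsto_zero]
  have h0 : Filter.Tendsto (fun s' => |psi κ s' - psi κ s|) (nhds s) (nhds 0) := by
    have h1 : Filter.Tendsto (fun s' => dist (psi κ s') (psi κ s)) (nhds s) (nhds 0) :=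
      tendsto_iff_dist_tendsto_zero.1 hψ.continuousAt
    simpa [Real.dist_eq] using h1
  refine squeeze_zero (fun _ => dist_nonneg) (fun s' => ?_) h0
  rw [Real.dist_eq]
  exact hle s s'

end Pool.Agent.Helper606.CA
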