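import Pool.Agent.Helper606.CA2.Defs
import Pool.Agent.Helper606.CA.P_psi_deriv
import Pool.Agent.Helper606.CA.P_psi_mono
import Pool.Agent.Helper606.CA.P_ht_int
import Pool.Agent.Helper606.CA.P_ht_add
import Pool.Agent.Helper606.CA.P_fwd_lt
import Pool.Agent.Helper606.CA.P_fwd_le
import Pool.Agent.Helper606.CA.P_bwd_lt
import Pool.Agent.Helper606.CA.P_bwd_le

set_option autoImplicit false

namespace Pool.Agent.Helper606.CA
open Complex Set


theorem angle_strict {κ : ℝ → ℝ} {C : Set ℂ} {θ : ℝ → ℝ} (hc : Continuous κ) (hp : ∀ s, 0 < κ s)
    (h : IsAngle κ C θ) {s s' : ℝ} (h1 : s < s') :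
    psi κ s + θ s < psi κ s' + θ s' ∧ psi κ s - θ s < psi κ s' - θ s' := by
  have hmono := psi_mono hc hp
  have hcont : Continuous (psi κ) :=
    continuous_iff_continuousAt.2 fun u => (psi_deriv hc u).continuousAt
  have hpi := Real.pi_pos
  constructor
  · obtain ⟨φ, hφ⟩ : ∃ φ : ℝ, φ = psi κ s + θ s := ⟨_, rfl⟩
    rw [← hφ]
    rcases le_or_gt φ (psi κ s') with h2 | h2
    · linarith [h.pos s']
    · have hβ : 0 < φ - psi κ s' := by linarith
      have hβ' : φ - psi κ s' < Real.pi := by
        have := hmono h1
        have := h.lt s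
        linarith
      have hI : 0 < ∫ u in s..s', Real.sin (φ - psi κ u) := by
        apply intervalIntegral.intervalIntegral_pos_of_pos_on _ _ h1
        · exact (Real.continuous_sin.comp (continuous_const.sub hcont)).intervalIntegrable _ _
        · intro u hu
          have h3 := hmono hu.1
          have h4 := hmono hu.2
          have h5 := h.lt s
          exact Real.sin_pos_of_pos_of_lt_pi (by linarith) (by linarith)
      have hI2 : ∫ u in s..s', Real.sin (psi κ u - φ) = -∫ u in s..s', Real.sin (φ - psi κ u) := by
        rw [← intervalIntegral.integral_neg]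
        apply intervalIntegral.integral_congr
        intro u _
        show Real.sin (psi κ u - φ) = -Real.sin (φ - psi κ u)
        rw [← Real.sin_neg]
        congr 1
        ring
      have h6 : ∀ c ∈ C, 0 < ht κ (psi κ s' + (φ - psi κ s')) s' c := by
        intro c hcC
        have h7 := (fwd_le h (s := s) (h.pos s) (by linarith [h.lt s])).2 le_rfl c hcC
        rw [← hφ] at h7
        have h8 := ht_add κ φ s s' c
        rw [ht_int hc, hI2] at h8
        have h9 : psi κ s' + (φ - psi κ s') = φ := by ring
        rw [h9]
        linarith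
      have h10 := (fwd_lt h hβ hβ').1 h6
      linarith
  · obtain ⟨φ, hφ⟩ : ∃ φ : ℝ, φ = psi κ s' - θ s' := ⟨_, rfl⟩
    rw [← hφ]
    rcases le_or_gt (psi κ s) φ with h2 | h2
    · linarith [h.pos s]
    · have hβ : 0 < psi κ s - φ := by linarith
      have hβ' : psi κ s - φ < Real.pi := by
        have := hmono h1
        have := h.lt s'
        linarith
      have hI : 0 < ∫ u in s..s', Real.sin (psi κ u - φ) := by
        apply intervalIntegral.intervalIntegral_pos_of_pos_on _ _ h1
        · exact (Real.continuous_sin.comp (hcont.sub continuous_const)).intervalIntegrable _ _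
        · intro u hu
          have h3 := hmono hu.1
          have h4 := hmono hu.2
          have h5 := h.lt s'
          exact Real.sin_pos_of_pos_of_lt_pi (by linarith) (by linarith)
      have h6 : ∀ c ∈ C, 0 < ht κ (psi κ s - (psi κ s - φ)) s c := by
        intro c hcC
        have h7 := (bwd_le h (s := s') (h.pos s') (by linarith [h.lt s'])).2 le_rfl c hcC
        rw [← hφ] at h7
        have h8 := ht_add κ φ s s' c
        rw [ht_int hc] at h8
        have h9 : psi κ s - (psi κ s - φ) = φ := by ring
        rw [h9]
        linarith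
      have h10 := (bwd_lt h hβ hβ').1 h6
      linarith

end Pool.Agent.Helper606.CA
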