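import Pool.Agent.Helper606.CA2.Defs

set_option autoImplicit false

namespace Pool.Agent.Helper606.CA
open Complex Set


theorem k0_facts : 0 < k0 ∧ k0 ≤ 1/1000000 ∧ 130 * k0 ≤ 2048 * wq 130 := by
  have hk : k0 = (1/2:ℝ)^910 * (1/2)^20 := by
    unfold k0
    rw [← pow_add]
  have hw : wq 130 = (1/2:ℝ)^910 := by
    unfold wq
    norm_num only
  have hp : 0 < (1/2:ℝ)^910 := by positivity
  have hle : (1/2:ℝ)^910 ≤ 1 := pow_le_one₀ (by norm_num) (by norm_num)
  refine ⟨?_, ?_, ?_⟩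
  · rw [hk]
    positivity
  · rw [hk]
    generalize (1/2:ℝ)^910 = x at hp hle
    norm_num
    linarith
  · rw [hk, hw]
    generalize (1/2:ℝ)^910 = x at hp hle
    norm_num
    linarith

end Pool.Agent.Helper606.CA
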