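import Pool.Agent.Helper606.CA2.Defs
import Pool.Agent.Helper606.CA2.P_hat_facts
import Pool.Agent.Helper606.CA2.P_GG_facts
import Pool.Agent.Helper606.CA2.P_k0_facts
import Pool.Agent.Helper606.CA2.P_pq_facts

set_option autoImplicit false

namespace Pool.Agent.Helper606.CA
open Complex Set


theorem gg_cont : Continuous gg := by
  have hh : Continuous hat := hat_facts.1
  have h1 : Continuous (fun u : ℝ => (1 - k0) * (2 / k0) * hat ((u - 1) / k0)) := by
    have : Continuous (fun u : ℝ => hat ((u - 1) / k0)) := hh.comp (by fun_prop)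
    exact continuous_const.mul this
  have h2 : Continuous (fun u : ℝ => ∑' i : ℕ, etq (i + 130) * GG (i + 130) ((u - pq (i + 130)) / wq (i + 130))) := by
    have hs : Summable (fun i : ℕ => etq (i + 130)) := by
      have h0 : Summable (fun i : ℕ => (9/10:ℝ)^i) := summable_geometric_of_lt_one (by norm_num) (by norm_num)
      have h00 : Summable (fun i : ℕ => (9/10:ℝ)^i * (9/10:ℝ)^130) := h0.mul_right _
      refine h00.congr fun i => ?_
      unfold etq
      rw [pow_add]
    refine continuous_tsum (fun i => ?_) hs (fun i u => ?_)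
    · have : Continuous (fun u : ℝ => GG (i + 130) ((u - pq (i + 130)) / wq (i + 130))) :=
        (GG_facts (i + 130)).1.comp (by fun_prop)
      exact continuous_const.mul this
    · have h3 := (pq_facts.2.1 (i + 130)).1
      rw [norm_mul, Real.norm_eq_abs, Real.norm_eq_abs, abs_of_pos h3]
      have h4 := (GG_facts (i + 130)).2.1 ((u - pq (i + 130)) / wq (i + 130))
      calc etq (i + 130) * |GG (i + 130) ((u - pq (i + 130)) / wq (i + 130))| ≤ etq (i + 130) * 1 :=
            mul_le_mul_of_nonneg_left h4 h3.le
        _ = etq (i + 130) := mul_one _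
  exact h1.add h2

end Pool.Agent.Helper606.CA
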