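import Pool.Agent.Helper606.CA2.Defs
import Pool.Agent.Helper606.CA2.P_gg_cont

set_option autoImplicit false

namespace Pool.Agent.Helper606.CA
open Complex Set


theorem f2_deriv (s : ℝ) : HasDerivAt f2 (gg s) s := by
  have h := intervalIntegral.integral_hasDerivAt_right (gg_cont.intervalIntegrable 0 s)
    (gg_cont.stronglyMeasurableAtFilter _ _) (gg_cont.continuousAt (x := s))
  exact h.const_add k0
end Pool.Agent.Helper606.CA
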