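import Pool.Agent.Helper606.CA2.Defs
import Pool.Agent.Helper606.CA2.P_pq_facts

set_option autoImplicit false

namespace Pool.Agent.Helper606.CA
open Complex Set


theorem pq_mono {i j : ℕ} (hi : 130 ≤ i) (h : i < j) : pq i + lq i < pq j := by
  obtain ⟨-, hE, -, hstep, -, hA, -, -, -⟩ := pq_facts
  have h1 : pq i + lq i < pq (i + 1) := by
    have := hA i hi
    have := (hE i).1
    linarith
  have h2 : ∀ k : ℕ, pq (i + 1) ≤ pq (i + 1 + k) := by
    intro k
    induction k with
    | zero => exact le_rfl
    | succ k ih =>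
      have := hstep (i + 1 + k)
      have := (hE (i + 1 + k)).1
      have h3 : i + 1 + (k + 1) = i + 1 + k + 1 := by ring
      rw [h3]
      linarith
  obtain ⟨k, rfl⟩ := Nat.exists_eq_add_of_le (Nat.succ_le_of_lt h)
  exact lt_of_lt_of_le h1 (h2 k)

end Pool.Agent.Helper606.CA
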