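import Pool.Agent.Helper606.CA2.Defs
import Pool.Agent.Helper606.CA2.P_hat_facts
import Pool.Agent.Helper606.CA2.P_k0_facts
import Pool.Agent.Helper606.CA2.P_pq_facts
import Pool.Agent.Helper606.CA2.P_pq_mono
import Pool.Agent.Helper606.CA2.P_T_zero

set_option autoImplicit false

namespace Pool.Agent.Helper606.CA
open Complex Set


theorem gg_cluster {j : ℕ} (hj : 130 ≤ j) {s : ℝ} (h1 : pq j ≤ s) (h2 : s ≤ pq (j+1)) :
    gg s = etq j * GG j ((s - pq j) / wq j) := by
  obtain ⟨hk1, hk2, -⟩ := k0_facts
  obtain ⟨-, -, -, -, -, -, h54, -, -⟩ := pq_facts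
  obtain ⟨-, -, -, hhat, -⟩ := hat_facts
  have hj54 := h54 j hj
  have hz : hat ((s - 1) / k0) = 0 := by
    apply hhat
    rw [le_div_iff₀ hk1]
    linarith
  unfold gg
  rw [hz, mul_zero, zero_add, tsum_eq_single (j - 130)]
  · have hjj : j - 130 + 130 = j := by omega
    rw [hjj]
  · intro i hi
    have hT : GG (i + 130) ((s - pq (i + 130)) / wq (i + 130)) = 0 := by
      apply T_zero
      rcases lt_or_gt_of_ne (show i + 130 ≠ j by omega) with h3 | h3
      · right
        have := pq_mono (by omega) h3
        linarith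
      · left
        rcases Nat.lt_or_ge (j + 1) (i + 130) with h4 | h4
        · have h5 := pq_mono (i := j + 1) (by omega) h4
          have h6 := (pq_facts).2.2.1 (j + 1)
          linarith
        · have h5 : i + 130 = j + 1 := by omega
          rw [h5]
          exact h2
    rw [hT, mul_zero]

end Pool.Agent.Helper606.CA
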