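import Pool.Agent.Helper606.CA2.Defs
import Pool.Agent.Helper606.CA2.P_GG_facts
import Pool.Agent.Helper606.CA2.P_pq_facts
import Pool.Agent.Helper606.CA2.P_gg_cont
import Pool.Agent.Helper606.CA2.P_gg_cluster
import Pool.Agent.Helper606.CA2.P_f2_deriv

set_option autoImplicit false

namespace Pool.Agent.Helper606.CA
open Complex Set


theorem f2_cluster {j : ℕ} (hj : 130 ≤ j) {s : ℝ} (h1 : pq j ≤ s) (h2 : s ≤ pq (j+1)) :
    f2 (pq j) ≤ f2 s ∧ f2 s ≤ f2 (pq j) + (1/2:ℝ)^j := by
  obtain ⟨hG1, -, -, -, hG5, hG6⟩ := GG_facts j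
  obtain ⟨hw, het, -⟩ := pq_facts
  have hint : ∀ a b : ℝ, IntervalIntegrable gg MeasureTheory.volume a b :=
    fun a b => gg_cont.intervalIntegrable a b
  have hdiff : f2 s - f2 (pq j) = ∫ u in (pq j)..s, gg u := by
    unfold f2
    rw [← intervalIntegral.integral_interval_sub_left (hint 0 s) (hint 0 (pq j))]
    ring
  have hcongr : ∫ u in (pq j)..s, gg u
      = ∫ u in (pq j)..s, etq j * GG j ((u - pq j) / wq j) := by
    apply intervalIntegral.integral_congr
    intro u hu
    rw [Set.uIcc_of_le h1] at hu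
    exact gg_cluster hj hu.1 (hu.2.trans h2)
  have hsub : ∫ u in (pq j)..s, GG j ((u - pq j) / wq j)
      = wq j * ∫ u in (0:ℝ)..((s - pq j) / wq j), GG j u := by
    have e1 := intervalIntegral.integral_comp_sub_right (a := pq j) (b := s)
      (fun u => GG j (u / wq j)) (pq j)
    have e2 := intervalIntegral.integral_comp_div (a := 0) (b := s - pq j)
      (fun u => GG j u) (hw j).ne'
    rw [e1, sub_self, e2, zero_div, smul_eq_mul]
  rw [hcongr, intervalIntegral.integral_const_mul, hsub] at hdiff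
  have hI0 := hG5 ((s - pq j) / wq j)
  have hI1 := hG6 ((s - pq j) / wq j)
  obtain ⟨I, hI⟩ : ∃ I : ℝ, I = ∫ u in (0:ℝ)..((s - pq j) / wq j), GG j u := ⟨_, rfl⟩
  rw [← hI] at hdiff hI0 hI1
  have hwj := hw j
  obtain ⟨he0, he1⟩ := het j
  have hpow : wq j * 3 ^ j ≤ (1/2:ℝ)^j := by
    unfold wq
    rw [pow_mul, ← mul_pow]
    apply pow_le_pow_left₀ (by norm_num)
    norm_num
  constructor
  · have : 0 ≤ etq j * (wq j * I) := by positivity
    linarith
  · have hb : etq j * (wq j * I) ≤ (1/2:ℝ)^j := by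
      calc etq j * (wq j * I) ≤ 1 * (wq j * I) :=
            mul_le_mul_of_nonneg_right he1 (by positivity)
        _ = wq j * I := one_mul _
        _ ≤ wq j * (3 ^ j / 2) := mul_le_mul_of_nonneg_left hI1 hwj.le
        _ = (wq j * 3 ^ j) / 2 := by ring
        _ ≤ (1/2:ℝ)^j / 2 := by linarith
        _ ≤ (1/2:ℝ)^j := by
            have : (0:ℝ) < (1/2:ℝ)^j := by positivity
            linarith
    linarith

end Pool.Agent.Helper606.CA
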