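import Pool.Agent.Helper606.CA2.Defs
import Pool.Agent.Helper606.CA2.P_hat_facts
import Pool.Agent.Helper606.CA2.P_k0_facts
import Pool.Agent.Helper606.CA2.P_pq_facts
import Pool.Agent.Helper606.CA2.P_T_zero

set_option autoImplicit false

namespace Pool.Agent.Helper606.CA
open Complex Set


theorem gg_low {s : ℝ} (h : s ≤ 1) : gg s = 0 := by
  unfold gg
  have h1 : hat ((s - 1) / k0) = 0 := by
    apply hat_facts.2.2.1
    apply div_nonpos_of_nonpos_of_nonneg
    · linarith
    · exact k0_facts.1.le
  have h2 : ∀ i : ℕ, etq (i + 130) * GG (i + 130) ((s - pq (i + 130)) / wq (i + 130)) = 0 := by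
    intro i
    have hp := pq_facts.2.2.2.2.2.2.1 (i + 130) (by omega)
    rw [T_zero (Or.inl (by linarith)), mul_zero]
  rw [h1]
  simp only [h2, tsum_zero, mul_zero, add_zero]

end Pool.Agent.Helper606.CA
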