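import Pool.Agent.Helper606.CA2.Defs
import Pool.Agent.Helper606.CA2.P_gg_low

set_option autoImplicit false

namespace Pool.Agent.Helper606.CA
open Complex Set


theorem f2_low {s : ℝ} (h : s ≤ 1) : f2 s = k0 := by
  unfold f2
  have h1 : ∫ u in (0:ℝ)..s, gg u = ∫ u in (0:ℝ)..s, (0:ℝ) := by
    refine intervalIntegral.integral_congr ?_
    intro u hu
    refine gg_low ?_
    rcases le_total 0 s with h0 | h0
    · rw [uIcc_of_le h0] at hu
      exact hu.2.trans h
    · rw [uIcc_of_ge h0] at hu
      exact hu.2.trans zero_le_one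
  rw [h1, intervalIntegral.integral_zero, add_zero]

end Pool.Agent.Helper606.CA
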