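import Pool.Agent.Helper606.CA2.Defs
import Pool.Agent.Helper606.CA2.P_pq_facts
import Pool.Agent.Helper606.CA2.P_pq_mono
import Pool.Agent.Helper606.CA2.P_T_zero

set_option autoImplicit false

namespace Pool.Agent.Helper606.CA
open Complex Set


theorem gg_first {s : ℝ} (h : s ≤ pq 130) : gg s = (1 - k0) * (2 / k0) * hat ((s - 1) / k0) := by
  obtain ⟨_, he, _, hd, _⟩ := pq_facts
  have hm : ∀ i : ℕ, pq 130 ≤ pq (i + 130) := by
    intro i
    induction i with
    | zero => simp
    | succ n ih =>
      have h1 := hd (n + 130)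
      have h2 := (he (n + 130)).1
      have h3 : n + 1 + 130 = n + 130 + 1 := by omega
      rw [h3]
      linarith
  have h0 : ∀ i : ℕ, etq (i + 130) * GG (i + 130) ((s - pq (i + 130)) / wq (i + 130)) = 0 := by
    intro i
    rw [T_zero (Or.inl (h.trans (hm i))), mul_zero]
  unfold gg
  rw [tsum_congr h0, tsum_zero, add_zero]

end Pool.Agent.Helper606.CA
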