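import Pool.Agent.Helper606.CA2.Defs
import Pool.Agent.Helper606.CA2.P_hat_facts
import Pool.Agent.Helper606.CA2.P_k0_facts
import Pool.Agent.Helper606.CA2.P_gg_first

set_option autoImplicit false

namespace Pool.Agent.Helper606.CA
open Complex Set


theorem gg_gap {s : ℝ} (h1 : 1 + k0 ≤ s) (h2 : s ≤ pq 130) : gg s = 0 := by
  have hk : 0 < k0 := k0_facts.1
  rw [gg_first h2, hat_facts.2.2.2.1 ((s - 1) / k0) (by rw [le_div_iff₀ hk]; linarith), mul_zero]

end Pool.Agent.Helper606.CA
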