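import Pool.Agent.Helper606.CA2.Defs
import Pool.Agent.Helper606.CA2.P_hat_facts
import Pool.Agent.Helper606.CA2.P_k0_facts
import Pool.Agent.Helper606.CA2.P_pq_facts
import Pool.Agent.Helper606.CA2.P_gg_cont
import Pool.Agent.Helper606.CA2.P_gg_first
import Pool.Agent.Helper606.CA2.P_gg_gap
import Pool.Agent.Helper606.CA2.P_f2_deriv
import Pool.Agent.Helper606.CA2.P_f2_low

set_option autoImplicit false

namespace Pool.Agent.Helper606.CA
open Complex Set


theorem f2_gap {s : ℝ} (h1 : 1 + k0 ≤ s) (h2 : s ≤ pq 130) : f2 s = 1 := by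
  obtain ⟨hhc, -, -, -, hhi⟩ := hat_facts
  obtain ⟨hk0, -, -⟩ := k0_facts
  have e0 : f2 s - f2 1 = ∫ u in (1:ℝ)..s, gg u :=
    (intervalIntegral.integral_eq_sub_of_hasDerivAt (fun u _ => f2_deriv u)
      (gg_cont.intervalIntegrable _ _)).symm
  have e1 : ∫ u in (1:ℝ)..s, gg u = (∫ u in (1:ℝ)..(1 + k0), gg u) + ∫ u in (1 + k0)..s, gg u :=
    (intervalIntegral.integral_add_adjacent_intervals (gg_cont.intervalIntegrable _ _)
      (gg_cont.intervalIntegrable _ _)).symm
  have e2 : ∫ u in (1 + k0)..s, gg u = 0 := by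
    have : ∫ u in (1 + k0)..s, gg u = ∫ u in (1 + k0)..s, (0:ℝ) := by
      refine intervalIntegral.integral_congr fun u hu => ?_
      rw [Set.uIcc_of_le h1] at hu
      exact gg_gap hu.1 (hu.2.trans h2)
    rw [this, intervalIntegral.integral_zero]
  have e3 : ∫ u in (1:ℝ)..(1 + k0), gg u =
      ∫ u in (1:ℝ)..(1 + k0), (1 - k0) * (2 / k0) * hat (u / k0 - 1 / k0) := by
    refine intervalIntegral.integral_congr fun u hu => ?_
    rw [Set.uIcc_of_le (by linarith)] at hu
    show gg u = (1 - k0) * (2 / k0) * hat (u / k0 - 1 / k0)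
    rw [gg_first (by linarith [hu.2]), sub_div]
  have e4 : ∫ u in (1:ℝ)..(1 + k0), hat (u / k0 - 1 / k0) = k0 * (1 / 2) := by
    rw [intervalIntegral.integral_comp_div_sub (f := hat) hk0.ne' (1 / k0), sub_self,
      show (1 + k0) / k0 - 1 / k0 = 1 by field_simp; ring, hhi, smul_eq_mul]
  rw [e3, intervalIntegral.integral_const_mul, e4, e2] at e1
  rw [e1, f2_low le_rfl] at e0
  have e5 : (1 - k0) * (2 / k0) * (k0 * (1 / 2)) = 1 - k0 := by
    field_simp
  rw [e5] at e0
  linarith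

end Pool.Agent.Helper606.CA
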