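import Pool.Agent.Helper606.CA2.Defs
import Pool.Agent.Helper606.CA2.P_k0_facts
import Pool.Agent.Helper606.CA2.P_pq_facts
import Pool.Agent.Helper606.CA2.P_f2_gap
import Pool.Agent.Helper606.CA2.P_f2_cluster

set_option autoImplicit false

namespace Pool.Agent.Helper606.CA
open Complex Set


theorem f2_at (i : ℕ) : 1 ≤ f2 (pq (i+130)) ∧ f2 (pq (i+130)) ≤ 2 - (1/2:ℝ)^(i+129) := by
  induction i with
  | zero =>
    have hk := k0_facts
    have hp := pq_facts.2.2.2.2.2.2.1 130 le_rfl
    have h := f2_gap (s := pq 130) (by linarith [hk.2.1]) le_rfl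
    have h129 : (1/2:ℝ)^(0+129) ≤ 1 := pow_le_one₀ (by norm_num) (by norm_num)
    have e : pq (0 + 130) = pq 130 := by norm_num
    rw [e, h]
    exact ⟨le_rfl, by linarith⟩
  | succ i ih =>
    have hw := pq_facts.2.2.2.1 (i + 130)
    have het := (pq_facts.2.1 (i + 130)).1
    have hle : pq (i + 130) ≤ pq (i + 130 + 1) := by linarith
    have h := f2_cluster (j := i + 130) (by omega) (s := pq (i + 130 + 1)) hle le_rfl
    have e1 : i + 1 + 130 = i + 130 + 1 := by ring
    have e2 : i + 1 + 129 = i + 130 := by ring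
    have e3 : (1/2:ℝ)^(i+129) = 2 * (1/2:ℝ)^(i+130) := by
      rw [show i + 130 = (i + 129) + 1 from rfl, pow_succ]; ring
    rw [e1, e2]
    rw [e3] at ih
    exact ⟨by linarith [h.1, ih.1], by linarith [h.2, ih.2]⟩

end Pool.Agent.Helper606.CA
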