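import Pool.Agent.Helper606.CA2.Defs
import Pool.Agent.Helper606.CA2.P_pq_facts
import Pool.Agent.Helper606.CA2.P_f2_gap
import Pool.Agent.Helper606.CA2.P_f2_cluster
import Pool.Agent.Helper606.CA2.P_f2_at

set_option autoImplicit false

namespace Pool.Agent.Helper606.CA
open Complex Set


theorem f2_12 {s : ℝ} (h1 : 1 + k0 ≤ s) (h2 : s < 3/2) : 1 ≤ f2 s ∧ f2 s ≤ 2 := by
  by_cases h0 : s ≤ pq 130
  · rw [f2_gap h1 h0]
    norm_num
  · rw [not_le] at h0
    have hex : ∃ i : ℕ, s ≤ pq (i + 130) := by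
      obtain ⟨n, hn⟩ := exists_pow_lt_of_lt_one (show (0:ℝ) < (3/2 - s)/10 by linarith)
        (show (9/10:ℝ) < 1 by norm_num)
      refine ⟨n, ?_⟩
      have h3 : (9/10:ℝ)^(n+130) ≤ (9/10:ℝ)^n :=
        pow_le_pow_of_le_one (by norm_num) (by norm_num) (by omega)
      unfold pq
      linarith
    classical
    obtain ⟨k, hk⟩ : ∃ k, Nat.find hex = k + 1 := by
      rcases Nat.exists_eq_succ_of_ne_zero (n := Nat.find hex) (by
        intro h
        have h4 := Nat.find_spec hex
        rw [h, Nat.zero_add] at h4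
        linarith) with ⟨k, hk⟩
      exact ⟨k, hk⟩
    have h5 : s ≤ pq (k + 1 + 130) := by
      have h4 := Nat.find_spec hex
      rwa [hk] at h4
    have h6 : pq (k + 130) < s := by
      have h4 := Nat.find_min hex (m := k) (by omega)
      exact not_le.mp h4
    have e1 : k + 1 + 130 = k + 130 + 1 := by omega
    rw [e1] at h5
    have h7 := f2_cluster (j := k + 130) (by omega) h6.le h5
    have h8 := f2_at k
    have h9 : (1/2:ℝ)^(k+130) = (1/2:ℝ)^(k+129) * (1/2) := by
      rw [← pow_succ]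
    have h10 : (0:ℝ) < (1/2:ℝ)^(k+129) := by positivity
    constructor
    · linarith [h7.1, h8.1]
    · linarith [h7.2, h8.2]

end Pool.Agent.Helper606.CA
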