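import Pool.Agent.Helper606.CA2.Defs
import Pool.Agent.Helper606.CA2.P_hat_facts
import Pool.Agent.Helper606.CA2.P_k0_facts
import Pool.Agent.Helper606.CA2.P_pq_facts
import Pool.Agent.Helper606.CA2.P_gg_cont
import Pool.Agent.Helper606.CA2.P_gg_low
import Pool.Agent.Helper606.CA2.P_gg_first
import Pool.Agent.Helper606.CA2.P_f2_deriv
import Pool.Agent.Helper606.CA2.P_f2_low

set_option autoImplicit false

namespace Pool.Agent.Helper606.CA
open Complex Set


theorem f2_first {s : ℝ} (h1 : 1 ≤ s) (h2 : s ≤ 1 + k0) : k0 ≤ f2 s ∧ f2 s ≤ 1 := by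
  obtain ⟨hk0, hk1, -⟩ := k0_facts
  obtain ⟨hc, hb, -, -, hint⟩ := hat_facts
  have hpq : (5/4 : ℝ) ≤ pq 130 := pq_facts.2.2.2.2.2.2.1 130 le_rfl
  have hF : ∫ u in (1:ℝ)..s, gg u = f2 s - f2 1 :=
    intervalIntegral.integral_eq_sub_of_hasDerivAt (fun x _ => f2_deriv x)
      (gg_cont.intervalIntegrable _ _)
  have hf1 : f2 1 = k0 := f2_low le_rfl
  set G : ℝ → ℝ := fun u => (1 - k0) * (2 / k0) * hat ((u - 1) / k0) with hG
  have hGc : Continuous G := continuous_const.mul (hc.comp ((continuous_id.sub continuous_const).div_const _))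
  have hcoef : 0 ≤ (1 - k0) * (2 / k0) := mul_nonneg (by linarith) (by positivity)
  have hG0 : ∀ u, 0 ≤ G u := fun u => mul_nonneg hcoef (hb _).1
  have hcong : ∫ u in (1:ℝ)..s, gg u = ∫ u in (1:ℝ)..s, G u := by
    refine intervalIntegral.integral_congr fun u hu => ?_
    rw [Set.uIcc_of_le h1] at hu
    have : u ≤ pq 130 := by linarith [hu.2]
    exact gg_first this
  have hlow : 0 ≤ ∫ u in (1:ℝ)..s, G u := intervalIntegral.integral_nonneg h1 fun u _ => hG0 u
  have hrest : 0 ≤ ∫ u in s..(1 + k0), G u := intervalIntegral.integral_nonneg h2 fun u _ => hG0 u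
  have hsum : (∫ u in (1:ℝ)..s, G u) + ∫ u in s..(1 + k0), G u = ∫ u in (1:ℝ)..(1 + k0), G u :=
    intervalIntegral.integral_add_adjacent_intervals (hGc.intervalIntegrable _ _)
      (hGc.intervalIntegrable _ _)
  have htot : ∫ u in (1:ℝ)..(1 + k0), G u = 1 - k0 := by
    have e1 : ∫ u in (1:ℝ)..(1 + k0), G u =
        (1 - k0) * (2 / k0) * ∫ u in (1:ℝ)..(1 + k0), hat (u / k0 - 1 / k0) := by
      rw [← intervalIntegral.integral_const_mul]
      refine intervalIntegral.integral_congr fun u _ => ?_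
      show (1 - k0) * (2 / k0) * hat ((u - 1) / k0) = _
      rw [sub_div]
    have e2 : (1 + k0) / k0 - 1 / k0 = 1 := by field_simp; ring
    rw [e1, intervalIntegral.integral_comp_div_sub _ hk0.ne', e2, sub_self, hint, smul_eq_mul]
    field_simp
  constructor <;> linarith

end Pool.Agent.Helper606.CA
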