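import Pool.Agent.Helper606.CA2.Defs
import Pool.Agent.Helper606.CA2.P_hat_facts
import Pool.Agent.Helper606.CA2.P_k0_facts
import Pool.Agent.Helper606.CA2.P_pq_facts
import Pool.Agent.Helper606.CA2.P_T_zero

set_option autoImplicit false

namespace Pool.Agent.Helper606.CA
open Complex Set


theorem gg_top {s : ℝ} (h : 3/2 ≤ s) : gg s = 0 := by
  obtain ⟨hw, he, hl, hd, hp, h1, h2, h3, h4⟩ := pq_facts
  obtain ⟨hk0, hk1, hk2⟩ := k0_facts
  have hhat : hat ((s - 1) / k0) = 0 := by
    apply hat_facts.2.2.2.1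
    rw [le_div_iff₀ hk0]
    linarith
  have hterm : ∀ i : ℕ, etq (i + 130) * GG (i + 130) ((s - pq (i + 130)) / wq (i + 130)) = 0 := by
    intro i
    have hj : 130 ≤ i + 130 := Nat.le_add_left _ _
    have a1 := h1 (i + 130) hj
    have a2 := (he (i + 130)).1
    have a3 := hp (i + 130 + 1)
    rw [T_zero (Or.inr (by linarith)), mul_zero]
  unfold gg
  rw [hhat, tsum_congr hterm, tsum_zero]
  ring

end Pool.Agent.Helper606.CA
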