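import Pool.Agent.Helper606.CA2.Defs
import Pool.Agent.Helper606.CA2.P_k0_facts
import Pool.Agent.Helper606.CA2.P_gg_top
import Pool.Agent.Helper606.CA2.P_f2_deriv
import Pool.Agent.Helper606.CA2.P_f2_12

set_option autoImplicit false

namespace Pool.Agent.Helper606.CA
open Complex Set


theorem f2_top {s : ℝ} (h : 3/2 ≤ s) : f2 s = f2 (3/2) ∧ 1 ≤ f2 (3/2) ∧ f2 (3/2) ≤ 2 := by
  have hc : ∀ x, ContinuousAt f2 x := fun x => (f2_deriv x).continuousAt
  have hk : 1 + k0 < 3/2 := by linarith [k0_facts.2.1]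
  have ht : Filter.Tendsto f2 (nhdsWithin (3/2) (Set.Iio (3/2))) (nhds (f2 (3/2))) :=
    (hc (3/2)).tendsto.mono_left nhdsWithin_le_nhds
  have hev : ∀ᶠ x in nhdsWithin (3/2:ℝ) (Set.Iio (3/2)), x ∈ Set.Ioo (1 + k0) (3/2) := Ioo_mem_nhdsLT hk
  refine ⟨?_, ?_, ?_⟩
  · refine constant_of_has_deriv_right_zero (a := 3/2) (b := s) (fun x _ => (hc x).continuousWithinAt)
      (fun x hx => ?_) s ⟨h, le_rfl⟩
    have := f2_deriv x
    rw [gg_top hx.1] at this
    exact this.hasDerivWithinAt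
  · refine ge_of_tendsto ht ?_
    filter_upwards [hev] with x hx
    exact (f2_12 hx.1.le hx.2).1
  · refine le_of_tendsto ht ?_
    filter_upwards [hev] with x hx
    exact (f2_12 hx.1.le hx.2).2

end Pool.Agent.Helper606.CA
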