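import Pool.Agent.Helper606.CA2.Defs
import Pool.Agent.Helper606.CA2.P_k0_facts
import Pool.Agent.Helper606.CA2.P_f2_low
import Pool.Agent.Helper606.CA2.P_f2_first
import Pool.Agent.Helper606.CA2.P_f2_12
import Pool.Agent.Helper606.CA2.P_f2_top

set_option autoImplicit false

namespace Pool.Agent.Helper606.CA
open Complex Set


theorem f2_bounds (s : ℝ) : k0 ≤ f2 s ∧ f2 s ≤ 2 := by
  obtain ⟨hk, hk1, -⟩ := k0_facts
  rcases le_total s 1 with h | h
  · rw [f2_low h]
    constructor <;> linarith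
  rcases le_total s (1 + k0) with h' | h'
  · obtain ⟨a, b⟩ := f2_first h h'
    exact ⟨a, by linarith⟩
  rcases lt_or_ge s (3/2) with h'' | h''
  · obtain ⟨a, b⟩ := f2_12 h' h''
    exact ⟨by linarith, b⟩
  · obtain ⟨a, b, c⟩ := f2_top h''
    rw [a]
    exact ⟨by linarith, c⟩

end Pool.Agent.Helper606.CA
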