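import Pool.Agent.Helper606.CA2.Defs
import Pool.Agent.Helper606.CA2.P_k0_facts
import Pool.Agent.Helper606.CA2.P_f2_deriv
import Pool.Agent.Helper606.CA2.P_f2_low
import Pool.Agent.Helper606.CA2.P_f2_first
import Pool.Agent.Helper606.CA2.P_f2_12
import Pool.Agent.Helper606.CA2.P_f2_top
import Pool.Agent.Helper606.CA2.P_f2_bounds

set_option autoImplicit false

namespace Pool.Agent.Helper606.CA
open Complex Set


theorem h2_bounds : 3/2 < h2 ∧ h2 < 7/2 := by
  obtain ⟨hk, hk1, _⟩ := k0_facts
  have hc : Continuous f2 := continuous_iff_continuousAt.mpr (fun s => (f2_deriv s).continuousAt)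
  have hi : ∀ a b : ℝ, IntervalIntegrable f2 MeasureTheory.volume a b :=
    fun a b => hc.intervalIntegrable a b
  have h1 : ∫ s in (0:ℝ)..1, f2 s ≤ k0 := by
    have h := intervalIntegral.integral_mono_on (a := (0:ℝ)) (b := 1) (f := f2) (g := fun _ => k0)
      (by norm_num) (hi 0 1) _root_.intervalIntegrable_const
      (fun s hs => (f2_low hs.2).le)
    simpa using h
  have h2' : ∫ s in (1:ℝ)..(1 + k0), f2 s ≤ k0 := by
    have h := intervalIntegral.integral_mono_on (a := (1:ℝ)) (b := 1 + k0) (f := f2)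
      (g := fun _ => (1:ℝ))
      (by linarith) (hi 1 (1 + k0)) _root_.intervalIntegrable_const
      (fun s hs => (f2_first hs.1 hs.2).2)
    simpa using h
  have h3 : ∫ s in (1 + k0)..(3/2), f2 s ≤ 1 - 2 * k0 := by
    have h := intervalIntegral.integral_mono_on (a := 1 + k0) (b := (3/2:ℝ)) (f := f2)
      (g := fun _ => (2:ℝ))
      (by linarith) (hi (1 + k0) (3/2)) _root_.intervalIntegrable_const
      (fun s hs => (f2_bounds s).2)
    refine h.trans (le_of_eq ?_)
    rw [intervalIntegral.integral_const, smul_eq_mul]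
    ring
  have h0 : 0 ≤ ∫ s in (0:ℝ)..(3/2), f2 s :=
    intervalIntegral.integral_nonneg (by norm_num) (fun s _ => hk.le.trans (f2_bounds s).1)
  have e1 := intervalIntegral.integral_add_adjacent_intervals (hi 0 1) (hi 1 (1 + k0))
  have e2 := intervalIntegral.integral_add_adjacent_intervals (hi 0 (1 + k0)) (hi (1 + k0) (3/2))
  have hI : ∫ s in (0:ℝ)..(3/2), f2 s ≤ 1 := by linarith
  obtain ⟨_, ht1, ht2⟩ := f2_top (le_refl (3/2:ℝ))
  have hp1 := Real.pi_gt_three
  have hp2 := Real.pi_lt_four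
  have hpos : 0 < f2 (3/2) := by linarith
  unfold h2
  constructor
  · have : 0 < (Real.pi/2 - ∫ s in (0:ℝ)..(3/2), f2 s) / f2 (3/2) := div_pos (by linarith) hpos
    linarith
  · have : (Real.pi/2 - ∫ s in (0:ℝ)..(3/2), f2 s) / f2 (3/2) < 2 := by
      rw [div_lt_iff₀ hpos]
      linarith
    linarith

end Pool.Agent.Helper606.CA
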