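import Pool.Agent.Helper606.CA2.Defs
import Pool.Agent.Helper606.CA2.P_f2_deriv
import Pool.Agent.Helper606.CA2.P_f2_top
import Pool.Agent.Helper606.CA2.P_h2_bounds

set_option autoImplicit false

namespace Pool.Agent.Helper606.CA
open Complex Set


theorem int_h2 : ∫ s in (0:ℝ)..h2, f2 s = Real.pi / 2 := by
  have hc : Continuous f2 := continuous_iff_continuousAt.mpr (fun s => (f2_deriv s).continuousAt)
  have hi : ∀ a b : ℝ, IntervalIntegrable f2 MeasureTheory.volume a b := fun a b =>
    hc.intervalIntegrable a b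
  rw [← intervalIntegral.integral_add_adjacent_intervals (hi 0 (3/2)) (hi (3/2) h2)]
  have h1 : ∫ s in (3/2:ℝ)..h2, f2 s = ∫ s in (3/2:ℝ)..h2, f2 (3/2) := by
    apply intervalIntegral.integral_congr
    intro s hs
    rw [Set.uIcc_of_le h2_bounds.1.le] at hs
    exact (f2_top hs.1).1
  have h3 : f2 (3/2) ≠ 0 := by
    have := (f2_top (le_refl (3/2:ℝ))).2.1
    intro h0
    rw [h0] at this
    norm_num at this
  rw [h1, intervalIntegral.integral_const, smul_eq_mul]
  have h4 : h2 - 3/2 = (Real.pi/2 - ∫ s in (0:ℝ)..(3/2), f2 s) / f2 (3/2) := by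
    unfold h2; ring
  rw [h4, div_mul_cancel₀ _ h3]
  ring

end Pool.Agent.Helper606.CA
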