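import Pool.Agent.Helper606.CA2.Defs
import Pool.Agent.Helper606.CA2.P_f2_deriv

set_option autoImplicit false

namespace Pool.Agent.Helper606.CA
open Complex Set


theorem kap2_cont : Continuous kap2 := by
  have h1 : Continuous f2 := continuous_iff_continuousAt.2 fun s => (f2_deriv s).continuousAt
  have h2' : Continuous (fun s : ℝ => (s : AddCircle (2*h2))) := AddCircle.continuous_mk' (2*h2)
  exact h1.comp (continuous_norm.comp h2')

end Pool.Agent.Helper606.CA
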