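import Pool.Agent.Helper606.CA2.Defs
import Pool.Agent.Helper606.CA2.P_h2_bounds

set_option autoImplicit false

namespace Pool.Agent.Helper606.CA
open Complex Set


theorem kap2_eq {s : ℝ} (h : |s| ≤ h2) : kap2 s = f2 |s| := by
  have hb := h2_bounds.1
  have hp : (2 * h2) ≠ 0 := by
    intro e
    linarith
  have h1 : |s| ≤ |2 * h2| / 2 := by
    have e : |2 * h2| = 2 * h2 := abs_of_pos (by linarith)
    rw [e]
    linarith
  have h3 := (AddCircle.norm_coe_eq_abs_iff (p := 2 * h2) (x := s) hp).mpr h1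
  unfold kap2
  rw [h3]

end Pool.Agent.Helper606.CA
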