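import Pool.Agent.Helper606.CA2.Defs

set_option autoImplicit false

namespace Pool.Agent.Helper606.CA
open Complex Set


theorem kap2_even (s : ℝ) : kap2 (-s) = kap2 s := by
  unfold kap2
  rw [AddCircle.coe_neg, norm_neg]

end Pool.Agent.Helper606.CA
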