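import Pool.Agent.Helper606.CA2.Defs
import Pool.Agent.Helper606.CA2.P_k0_facts
import Pool.Agent.Helper606.CA2.P_f2_bounds
import Pool.Agent.Helper606.CA2.P_h2_bounds
import Pool.Agent.Helper606.CA2.P_int_h2
import Pool.Agent.Helper606.CA2.P_kap2_eq
import Pool.Agent.Helper606.CA2.P_kap2_per
import Pool.Agent.Helper606.CA2.P_kap2_even
import Pool.Agent.Helper606.CA2.P_kap2_cont

set_option autoImplicit false

namespace Pool.Agent.Helper606.CA
open Complex Set


theorem kap2_closed : Closed kap2 (2 * h2) := by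
  have hb := h2_bounds
  have hpos : 0 < h2 := by linarith [hb.1]
  have e0 : ∫ s in (0:ℝ)..h2, kap2 s = Real.pi / 2 := by
    rw [← int_h2]
    refine intervalIntegral.integral_congr ?_
    intro s hs
    rw [Set.uIcc_of_le hpos.le] at hs
    have h1 : |s| = s := abs_of_nonneg hs.1
    have h2' : kap2 s = f2 |s| := kap2_eq (by rw [h1]; exact hs.2)
    show kap2 s = f2 s
    rw [h2', h1]
  have e1 : ∫ s in h2..(2 * h2), kap2 s = Real.pi / 2 := by
    have h3 := intervalIntegral.integral_comp_sub_left (a := 0) (b := h2) kap2 (2 * h2)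
    have h4 : 2 * h2 - h2 = h2 := by ring
    rw [h4, sub_zero] at h3
    rw [← h3, ← e0]
    refine intervalIntegral.integral_congr ?_
    intro s _
    show kap2 (2 * h2 - s) = kap2 s
    have h5 : 2 * h2 - s = -s + 2 * h2 := by ring
    rw [h5, kap2_per, kap2_even]
  refine ⟨by linarith, kap2_cont, ?_, kap2_per, ?_⟩
  · intro s
    unfold kap2
    exact lt_of_lt_of_le k0_facts.1 (f2_bounds _).1
  · rw [← intervalIntegral.integral_add_adjacent_intervals (b := h2)
      (kap2_cont.intervalIntegrable _ _) (kap2_cont.intervalIntegrable _ _), e0, e1]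
    ring

end Pool.Agent.Helper606.CA
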