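import Pool.Agent.Helper606.CA2.Defs
import Pool.Agent.Helper606.CA2.P_f2_low
import Pool.Agent.Helper606.CA2.P_h2_bounds
import Pool.Agent.Helper606.CA2.P_kap2_eq

set_option autoImplicit false

namespace Pool.Agent.Helper606.CA
open Complex Set


theorem kap2_low {s : ℝ} (h : |s| ≤ 1) : kap2 s = k0 := by
  rw [kap2_eq (by linarith [h2_bounds.1]), f2_low h]

end Pool.Agent.Helper606.CA
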