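import Pool.Agent.Helper606.CA2.Defs
import Pool.Agent.Helper606.CA.P_flat_bound
import Pool.Agent.Helper606.CA2.P_k0_facts
import Pool.Agent.Helper606.CA2.P_h2_bounds
import Pool.Agent.Helper606.CA2.P_kap2_low
import Pool.Agent.Helper606.CA2.P_kap2_cont
import Pool.Agent.Helper606.CA2.P_kap2_closed

set_option autoImplicit false

namespace Pool.Agent.Helper606.CA
open Complex Set


theorem base2 {C : Set ℂ} {θ : ℝ → ℝ} (h : IsAngle kap2 C θ)
    (hC : ∀ c ∈ C, ‖c - gam kap2 1‖ ≤ 2 * h2) : θ 1 ≤ 28 * k0 := by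
  have hb := flat_bound kap2_cont kap2_closed.pos h (D := 2 * h2) (k := k0) (q := -1) (p := 1) hC
    k0_facts.1 (by norm_num) (fun u hu => kap2_low (abs_le.2 ⟨hu.1, hu.2⟩))
  have hk := k0_facts.1
  have hpi := Real.pi_lt_d2
  have hpi0 := Real.pi_pos
  have hh := h2_bounds
  have h1 : Real.pi * (2 * h2) ≤ 3.15 * 7 := by
    apply mul_le_mul hpi.le (by linarith) (by linarith) (by norm_num)
  have h2' : Real.pi * (2 * h2) * k0 ≤ 3.15 * 7 * k0 := mul_le_mul_of_nonneg_right h1 hk.le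
  linarith

end Pool.Agent.Helper606.CA
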