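import Pool.Agent.Helper606.CA2.Defs

set_option autoImplicit false

namespace Pool.Agent.Helper606.CA
open Complex Set


theorem bb_close_aux {a b δ t : ℝ} (ht : 0 < t) (h1 : |a - b| ≤ δ) (h2 : |a + b| ≤ 4 * t) :
    |a ^ 2 / 2 - b ^ 2 / 2| ≤ 2 * t * δ := by
  have h3 : a ^ 2 / 2 - b ^ 2 / 2 = (a - b) * (a + b) / 2 := by ring
  rw [h3, abs_div, abs_mul, abs_two]
  have h4 : |a - b| * |a + b| ≤ δ * (4 * t) :=
    mul_le_mul h1 h2 (abs_nonneg _) ((abs_nonneg _).trans h1)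
  linarith

theorem bb_close {t Y y e ε : ℝ} {i : ℤ} (ht : 0 < t) (hε : 0 ≤ ε) (hε1 : ε ≤ 1/10) (he : 0 ≤ e)
    (he1 : e ≤ t / 10) (hY : |Y| ≤ t * (1 + ε)) (hy : |Y - (y - 2 * t * i)| ≤ e) :
    |Y ^ 2 / 2 - bb t y| ≤ 2 * t * (e + 2 * ε * t) := by
  obtain ⟨z, hz⟩ : ∃ z, z = y - 2 * t * i := ⟨_, rfl⟩
  obtain ⟨r, hr⟩ : ∃ r : ℤ, r = round (y / (2 * t)) - i := ⟨_, rfl⟩
  have hb : bb t y = (z - 2 * t * r) ^ 2 / 2 := by
    unfold bb
    rw [hz, hr]
    push_cast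
    ring
  have hd : |z - 2 * t * r| ≤ t := by
    have h1 := abs_sub_round (y / (2 * t))
    have h2 : z - 2 * t * r = 2 * t * (y / (2 * t) - round (y / (2 * t))) := by
      rw [hz, hr]; push_cast; field_simp; ring
    rw [h2, abs_mul, abs_of_pos (by positivity : (0:ℝ) < 2 * t)]
    nlinarith
  rw [← hz] at hy
  rw [hb]
  rw [abs_le] at hY hy hd
  obtain ⟨hY1, hY2⟩ := hY
  obtain ⟨hy1, hy2⟩ := hy
  obtain ⟨hd1, hd2⟩ := hd
  have hεt : ε * t ≤ t / 10 := by nlinarith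
  have hεt0 : 0 ≤ ε * t := by positivity
  have hr1 : r ≤ 1 := by
    by_contra h
    push Not at h
    have h5 : (2:ℝ) ≤ r := by exact_mod_cast h
    nlinarith
  have hr2 : -1 ≤ r := by
    by_contra h
    push Not at h
    have h5 : (r:ℝ) ≤ -2 := by
      have : r ≤ -2 := by omega
      exact_mod_cast this
    nlinarith
  have hr3 : r = -1 ∨ r = 0 ∨ r = 1 := by omega
  rcases hr3 with h | h | h
  · rw [h] at hd1 hd2 ⊢
    push_cast at hd1 hd2 ⊢
    have h6 : (z - 2 * t * (-1:ℝ)) ^ 2 / 2 = (-(z + 2 * t)) ^ 2 / 2 := by ring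
    rw [h6]
    apply bb_close_aux ht
    · rw [abs_le]; constructor <;> nlinarith
    · rw [abs_le]; constructor <;> nlinarith
  · rw [h]
    push_cast
    have h6 : (z - 2 * t * (0:ℝ)) ^ 2 / 2 = z ^ 2 / 2 := by ring
    rw [h6]
    apply bb_close_aux ht
    · rw [abs_le]; constructor <;> nlinarith
    · rw [abs_le]; constructor <;> nlinarith
  · rw [h] at hd1 hd2 ⊢
    push_cast at hd1 hd2 ⊢
    have h6 : (z - 2 * t * (1:ℝ)) ^ 2 / 2 = (2 * t - z) ^ 2 / 2 := by ring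
    rw [h6]
    apply bb_close_aux ht
    · rw [abs_le]; constructor <;> nlinarith
    · rw [abs_le]; constructor <;> nlinarith

end Pool.Agent.Helper606.CA
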