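import Pool.Agent.Helper606.CA2.Defs

set_option autoImplicit false

namespace Pool.Agent.Helper606.CA
open Complex Set

theorem bb_cont {t : ℝ} (ht : 0 < t) : Continuous (bb t) := by
  have h : bb t = fun y : ℝ => ‖(y : AddCircle (2 * t))‖ ^ 2 / 2 := by
    funext y
    unfold bb
    rw [AddCircle.norm_eq, sq_abs, show (2 * t)⁻¹ * y = y / (2 * t) by ring]
    ring
  rw [h]
  have h1 : Continuous (fun y : ℝ => (y : AddCircle (2 * t))) := AddCircle.continuous_mk' (2 * t)
  exact ((continuous_norm.comp h1).pow 2).div_const 2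

end Pool.Agent.Helper606.CA
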