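import Pool.Agent.Helper606.CA2.Defs

set_option autoImplicit false

namespace Pool.Agent.Helper606.CA
open Complex Set


theorem bb_facts {t : ℝ} (ht : 0 < t) : (∀ y, 0 ≤ bb t y ∧ bb t y ≤ t ^ 2 / 2) ∧
    (∀ y, bb t (y + 2 * t) = bb t y) ∧ (∀ y, |y| ≤ t → bb t y = y ^ 2 / 2) := by
  have h2t : 0 < 2 * t := by linarith
  refine ⟨fun y => ⟨?_, ?_⟩, fun y => ?_, fun y hy => ?_⟩
  · unfold bb
    positivity
  · unfold bb
    have h1 := abs_sub_round (y / (2 * t))
    have h2 : y - 2 * t * (round (y / (2 * t)) : ℝ) = 2 * t * (y / (2 * t) - round (y / (2 * t))) := by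
      field_simp
    have h3 : |y - 2 * t * (round (y / (2 * t)) : ℝ)| ≤ t := by
      rw [h2, abs_mul, abs_of_pos h2t]
      have := mul_le_mul_of_nonneg_left h1 h2t.le
      linarith
    have h4 : (y - 2 * t * (round (y / (2 * t)) : ℝ)) ^ 2 ≤ t ^ 2 := sq_le_sq' (by linarith [(abs_le.mp h3).1]) (abs_le.mp h3).2
    linarith
  · unfold bb
    have h1 : (y + 2 * t) / (2 * t) = y / (2 * t) + 1 := by
      field_simp
    rw [h1, round_add_one]
    push_cast
    ring
  · have hy' := abs_le.mp hy
    unfold bb
    rcases eq_or_lt_of_le hy'.2 with h | h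
    · subst h
      have h1 : round (y / (2 * y)) = 1 := by
        have h2 : y / (2 * y) = 1 / 2 := by
          field_simp
        rw [h2, round_eq]
        norm_num
      rw [h1]
      push_cast
      ring
    · have h1 : round (y / (2 * t)) = 0 := by
        rw [round_eq, Int.floor_eq_zero_iff]
        have h3 : y / (2 * t) < 1 / 2 := by
          rw [div_lt_iff₀ h2t]
          linarith
        have h4 : -(1 / 2) ≤ y / (2 * t) := by
          rw [le_div_iff₀ h2t]
          linarith
        constructor <;> linarith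
      rw [h1]
      simp

end Pool.Agent.Helper606.CA
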