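import Pool.Agent.Helper606.CA2.Defs
import Pool.Agent.Helper606.CA.P_psi_deriv
import Pool.Agent.Helper606.CA.P_angle_lip
import Pool.Agent.Helper606.CA.P_end_geom
import Pool.Agent.Helper606.CA2.P_k0_facts
import Pool.Agent.Helper606.CA2.P_pq_facts
import Pool.Agent.Helper606.CA2.P_f2_first
import Pool.Agent.Helper606.CA2.P_f2_gap
import Pool.Agent.Helper606.CA2.P_h2_bounds
import Pool.Agent.Helper606.CA2.P_kap2_eq
import Pool.Agent.Helper606.CA2.P_kap2_cont
import Pool.Agent.Helper606.CA2.P_kap2_closed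

set_option autoImplicit false

namespace Pool.Agent.Helper606.CA
open Complex Set


theorem start2 {C : Set ℂ} {θ : ℝ → ℝ} (h : IsAngle kap2 C θ)
    (h1 : θ 1 ≤ 28 * k0) : θ (pq 130) ≤ 2048 * wq 130 := by
  obtain ⟨k1, k2, k3⟩ := k0_facts
  obtain ⟨p1, p2, p3, p4, p5, p6, p7, p8, p9⟩ := pq_facts
  have hpq1 : 5/4 ≤ pq 130 := p7 130 le_rfl
  have hpq2 : pq 130 < 3/2 := p5 130
  obtain ⟨hh1, hh2⟩ := h2_bounds
  have hc : Continuous kap2 := kap2_cont
  have hp : ∀ s, 0 < kap2 s := kap2_closed.pos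
  have hs12 : (1:ℝ) < 1 + k0 := by linarith
  have hL := angle_lip hc hp h hs12
  have hval : ∀ u : ℝ, 0 ≤ u → u ≤ 3/2 → kap2 u = f2 u := by
    intro u hu0 hu1
    have e : |u| = u := abs_of_nonneg hu0
    rw [kap2_eq (by rw [e]; linarith), e]
  have hpsi : psi kap2 (1 + k0) - psi kap2 1 ≤ k0 := by
    unfold psi
    rw [intervalIntegral.integral_interval_sub_left (hc.intervalIntegrable _ _)
      (hc.intervalIntegrable _ _)]
    have hm : ∫ u in (1:ℝ)..(1 + k0), kap2 u ≤ ∫ u in (1:ℝ)..(1 + k0), (1:ℝ) := by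
      apply intervalIntegral.integral_mono_on hs12.le (hc.intervalIntegrable _ _)
        (continuous_const.intervalIntegrable _ _)
      intro u hu
      rw [hval u (by linarith [hu.1]) (by linarith [hu.2])]
      exact (f2_first hu.1 hu.2).2
    have h1' : ∫ u in (1:ℝ)..(1 + k0), (1:ℝ) = k0 := by
      simp
    linarith
  have hθ : θ (1 + k0) ≤ 29 * k0 := by
    have := (abs_le.1 hL).2
    linarith
  have hend := end_geom hc hp h (k := 1) (s1 := 1 + k0) (s2 := pq 130) one_pos (by linarith)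
    (by
      intro u hu
      rw [hval u (by linarith [hu.1]) (by linarith [hu.2])]
      exact f2_gap hu.1 hu.2)
    (by linarith [Real.pi_gt_three])
    (by linarith)
  linarith

end Pool.Agent.Helper606.CA
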