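import Pool.Agent.Helper606.CA2.Defs
import Pool.Agent.Helper606.CA.P_arc_fp
import Pool.Agent.Helper606.CA.P_arc_rev
import Pool.Agent.Helper606.CA.P_arc_right
import Pool.Agent.Helper606.CA.P_left_geom

set_option autoImplicit false

namespace Pool.Agent.Helper606.CA
open Complex Set


theorem left_up {κ : ℝ → ℝ} {C : Set ℂ} {θ : ℝ → ℝ} (hc : Continuous κ) (hp : ∀ s, 0 < κ s)
    (h : IsAngle κ C θ) {k p l x : ℝ} {N : ℕ} (hk : 0 < k) (hl : 0 ≤ l) (hN : 1 ≤ N)
    (harc : ∀ u ∈ Icc (p - l) p, κ u = k) (hlt : k * l < 2 * Real.pi) (hx : 0 ≤ x)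
    (hx2 : x < 2 * θ p) (hA : 2 * (N + 1) * θ p ≤ k * l) :
    |θ (p - x / k) - θ p| ≤ θ p / N := by
  have hθ : 0 < θ p := h.pos p
  have hN0 : (0:ℝ) < N := by exact_mod_cast (Nat.lt_of_lt_of_le Nat.zero_lt_one hN)
  rcases eq_or_lt_of_le hx with hx0 | hx0
  · rw [← hx0]
    simp only [zero_div, sub_zero, sub_self, abs_zero]
    positivity
  · have hlow := left_geom (x := x) hc hp h hk hl hN harc hlt hx0 (by nlinarith)
    have hkl : k * (p - (p - l)) = k * l := by ring
    have hA1 := arc_fp hc hp h (s1 := p - l) (s2 := p) hk (by linarith) harc (by rw [hkl]; exact hlt)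
    rw [hkl] at hA1
    have hA2 := arc_rev hA1
    have e0 : p - l + (k * l - 0) / k = p := by
      field_simp
      ring
    have ex : p - l + (k * l - x) / k = p - x / k := by
      field_simp
      ring
    have hup := arc_right hA2 hN (a := x) hx
      (by
        show x < 2 * θ (p - l + (k * l - 0) / k)
        rw [e0]; exact hx2)
      (by
        show 2 * ((N : ℝ) + 1) * θ (p - l + (k * l - 0) / k) ≤ k * l
        rw [e0]; exact hA)
    have hup' : θ (p - l + (k * l - x) / k) <
        θ (p - l + (k * l - 0) / k) + (2 * θ (p - l + (k * l - 0) / k) - x) / (2 * N) := hup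
    rw [e0, ex] at hup'
    have h1 : x / (2 * N) ≤ θ p / N := by
      rw [div_le_div_iff₀ (by positivity) hN0]
      nlinarith
    have h2 : (2 * θ p - x) / (2 * N) ≤ θ p / N := by
      rw [div_le_div_iff₀ (by positivity) hN0]
      nlinarith
    rw [abs_le]
    constructor
    · linarith
    · linarith

end Pool.Agent.Helper606.CA
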