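import Pool.Agent.Helper606.CA2.Defs
import Pool.Agent.Helper606.CA.P_psi_arc
import Pool.Agent.Helper606.CA.P_arc_fp
import Pool.Agent.Helper606.CA.P_arc_step

set_option autoImplicit false

namespace Pool.Agent.Helper606.CA
open Complex Set


theorem next_arc {κ : ℝ → ℝ} {C : Set ℂ} {θ : ℝ → ℝ} (hc : Continuous κ) (hp : ∀ s, 0 < κ s)
    (h : IsAngle κ C θ) {k s : ℝ} (hk : 0 < k)
    (harc : ∀ u ∈ Icc s (s + 2 * θ s / k), κ u = k) :
    Next κ θ s (s + 2 * θ s / k) ∧ θ (s + 2 * θ s / k) = θ s := by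
  have hθ := h.pos s
  have hθ2 := h.lt s
  have hπ := Real.pi_pos
  have hle : s ≤ s + 2 * θ s / k := by
    have : 0 ≤ 2 * θ s / k := by positivity
    linarith
  have hA : k * ((s + 2 * θ s / k) - s) = 2 * θ s := by
    field_simp
    ring
  have hfp := arc_fp hc hp h hk hle harc (by rw [hA]; linarith)
  have h0 : (fun a => θ (s + a / k)) 0 = θ s := by
    simp only [zero_div, add_zero]
  have hst := arc_step hfp (a := 0) le_rfl (by rw [hA]; linarith) (by
    simp only [zero_div, add_zero, zero_add]; rw [hA])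
  have h1 : θ (s + 2 * θ s / k) = θ s := by
    simp only [zero_div, add_zero, zero_add] at hst
    exact hst
  have h2 := psi_arc hc harc le_rfl hle le_rfl
  rw [hA] at h2
  refine ⟨⟨?_, ?_⟩, h1⟩
  · have : 0 < 2 * θ s / k := by positivity
    linarith
  · rw [h2, h1]; ring

end Pool.Agent.Helper606.CA
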