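import Pool.Agent.Helper606.CA2.Defs
import Pool.Agent.Helper606.CA2.P_angle_strict

set_option autoImplicit false

namespace Pool.Agent.Helper606.CA
open Complex Set


theorem next_mono {κ : ℝ → ℝ} {C : Set ℂ} {θ : ℝ → ℝ} (hc : Continuous κ) (hp : ∀ s, 0 < κ s)
    (h : IsAngle κ C θ) {s s' t t' : ℝ} (h1 : Next κ θ s s') (h2 : Next κ θ t t') (hst : s < t) :
    s' < t' := by
  by_contra hcon
  rw [not_lt] at hcon
  have e1 := h1.2
  have e2 := h2.2
  have e3 := (angle_strict hc hp h hst).1
  rcases hcon.eq_or_lt with h0 | h0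
  · rw [h0] at e2
    linarith
  · have e4 := (angle_strict hc hp h h0).2
    linarith

end Pool.Agent.Helper606.CA
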