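import Pool.Agent.Helper606.CA2.Defs
import Pool.Agent.Helper606.CA.P_psi_deriv
import Pool.Agent.Helper606.CA2.P_next_J
import Pool.Agent.Helper606.CA2.P_next_range
import Pool.Agent.Helper606.CA2.P_bb_cont
import Pool.Agent.Helper606.CA2.P_bb_close

set_option autoImplicit false

namespace Pool.Agent.Helper606.CA
open Complex Set


theorem chord_int_pt {Y b κ k g η t ε δ e : ℝ} (hη : 0 ≤ η)
    (ht : 0 < t) (ht1 : t ≤ 1/8) (hk1 : 1 ≤ k) (hκ1 : 1 ≤ κ) (hε : 0 ≤ ε) (hε1 : ε ≤ 1/10)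
    (he : 0 ≤ e) (hδ : 0 ≤ δ) (hκk : |κ - k| ≤ δ) (hg : |g| ≤ η)
    (hY : |Y| ≤ t * (1 + ε)) (hb : |Y ^ 2 / 2 - b| ≤ 2 * t * (e + 2 * ε * t)) :
    |(1 / k ^ 2) * (b * g) - (1 - Real.cos Y) * (g / κ ^ 2)| ≤
      η * (t ^ 4 + 4 * t ^ 2 * δ + 2 * t * (e + 2 * ε * t)) := by
  have hY2 : |Y| ≤ t * (11/10) := le_trans hY (by nlinarith)
  have hY1 : |Y| ≤ 1 := by linarith
  have hYsq : Y ^ 2 ≤ (121/100) * t ^ 2 := by
    rw [← sq_abs Y]
    have := pow_le_pow_left₀ (abs_nonneg Y) hY2 2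
    nlinarith [this]
  have hY4 : |Y| ^ 4 ≤ (14641/10000) * t ^ 4 := by
    have := pow_le_pow_left₀ (abs_nonneg Y) hY2 4
    nlinarith [this]
  have hcos := Real.cos_bound hY1
  have ht4 : 0 ≤ t ^ 4 := by positivity
  have hcos2 : |Real.cos Y - (1 - Y ^ 2 / 2)| ≤ t ^ 4 := by
    refine le_trans hcos ?_
    nlinarith
  have hcos0 : 0 ≤ 1 - Real.cos Y := by linarith [Real.cos_le_one Y]
  have hcos3 : 1 - Real.cos Y ≤ t ^ 2 := by
    have := Real.one_sub_sq_div_two_le_cos (x := Y)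
    nlinarith [sq_nonneg t]
  have hkk : 0 < k ^ 2 := by positivity
  have hκκ : 0 < κ ^ 2 := by positivity
  have hk2 : 1 / k ^ 2 ≤ 1 := by
    rw [div_le_one hkk]
    nlinarith
  have hk20 : 0 ≤ 1 / k ^ 2 := by positivity
  have hdiff : |1 / k ^ 2 - 1 / κ ^ 2| ≤ 2 * δ := by
    have e1 : 1 / k ^ 2 - 1 / κ ^ 2 = (κ - k) * ((κ + k) / (k ^ 2 * κ ^ 2)) := by
      field_simp
      ring
    rw [e1, abs_mul]
    have e2 : |(κ + k) / (k ^ 2 * κ ^ 2)| ≤ 2 := by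
      rw [abs_of_nonneg (by positivity), div_le_iff₀ (by positivity)]
      have h1 : k ≤ k ^ 2 * κ ^ 2 := by
        have a1 : k * 1 ≤ k * (k * κ ^ 2) := by
          apply mul_le_mul_of_nonneg_left _ (by linarith)
          nlinarith
        nlinarith
      have h2 : κ ≤ k ^ 2 * κ ^ 2 := by
        have a1 : κ * 1 ≤ κ * (κ * k ^ 2) := by
          apply mul_le_mul_of_nonneg_left _ (by linarith)
          nlinarith
        nlinarith
      linarith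
    calc |κ - k| * |(κ + k) / (k ^ 2 * κ ^ 2)| ≤ δ * 2 :=
          mul_le_mul hκk e2 (abs_nonneg _) hδ
      _ = 2 * δ := by ring
  have hsplit : (1 / k ^ 2) * (b * g) - (1 - Real.cos Y) * (g / κ ^ 2) =
      g * ((1 / k ^ 2) * (-(Y ^ 2 / 2 - b)) + (1 / k ^ 2) * (Real.cos Y - (1 - Y ^ 2 / 2)) +
        (1 - Real.cos Y) * (1 / k ^ 2 - 1 / κ ^ 2)) := by
    field_simp
    ring
  rw [hsplit, abs_mul]
  have hin : |(1 / k ^ 2) * (-(Y ^ 2 / 2 - b)) + (1 / k ^ 2) * (Real.cos Y - (1 - Y ^ 2 / 2)) +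
        (1 - Real.cos Y) * (1 / k ^ 2 - 1 / κ ^ 2)| ≤
      t ^ 4 + 4 * t ^ 2 * δ + 2 * t * (e + 2 * ε * t) := by
    have a1 : |(1 / k ^ 2) * (-(Y ^ 2 / 2 - b))| ≤ 2 * t * (e + 2 * ε * t) := by
      rw [abs_mul, abs_neg, abs_of_nonneg hk20]
      calc (1 / k ^ 2) * |Y ^ 2 / 2 - b| ≤ 1 * |Y ^ 2 / 2 - b| :=
            mul_le_mul_of_nonneg_right hk2 (abs_nonneg _)
        _ ≤ _ := by rw [one_mul]; exact hb
    have a2 : |(1 / k ^ 2) * (Real.cos Y - (1 - Y ^ 2 / 2))| ≤ t ^ 4 := by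
      rw [abs_mul, abs_of_nonneg hk20]
      calc (1 / k ^ 2) * |Real.cos Y - (1 - Y ^ 2 / 2)| ≤ 1 * |Real.cos Y - (1 - Y ^ 2 / 2)| :=
            mul_le_mul_of_nonneg_right hk2 (abs_nonneg _)
        _ ≤ _ := by rw [one_mul]; exact hcos2
    have a3 : |(1 - Real.cos Y) * (1 / k ^ 2 - 1 / κ ^ 2)| ≤ 4 * t ^ 2 * δ := by
      rw [abs_mul, abs_of_nonneg hcos0]
      calc (1 - Real.cos Y) * |1 / k ^ 2 - 1 / κ ^ 2| ≤ t ^ 2 * (2 * δ) :=
            mul_le_mul hcos3 hdiff (abs_nonneg _) (by positivity)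
        _ ≤ _ := by nlinarith [mul_nonneg (sq_nonneg t) hδ]
    calc _ ≤ |(1 / k ^ 2) * (-(Y ^ 2 / 2 - b)) + (1 / k ^ 2) * (Real.cos Y - (1 - Y ^ 2 / 2))| +
          |(1 - Real.cos Y) * (1 / k ^ 2 - 1 / κ ^ 2)| := abs_add_le _ _
      _ ≤ (|(1 / k ^ 2) * (-(Y ^ 2 / 2 - b))| + |(1 / k ^ 2) * (Real.cos Y - (1 - Y ^ 2 / 2))|) +
          |(1 - Real.cos Y) * (1 / k ^ 2 - 1 / κ ^ 2)| := by
            gcongr
            exact abs_add_le _ _
      _ ≤ _ := by linarith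
  exact mul_le_mul hg hin (abs_nonneg _) hη

theorem chord_int {κ g : ℝ → ℝ} {C : Set ℂ} {θ : ℝ → ℝ} (hp : ∀ s, 0 < κ s)
    (hd : ∀ s, HasDerivAt κ (g s) s) (hg : Continuous g)
    (h : IsAngle κ C θ) {s s' s0 η t k ε δ e : ℝ} {i : ℤ} (h1 : Next κ θ s s') (hη : 0 ≤ η)
    (ht : 0 < t) (ht1 : t ≤ 1/8) (hk : 1 ≤ k ∧ k ≤ 2) (hε : 0 ≤ ε) (hε1 : ε ≤ 1/10) (he : 0 ≤ e)
    (he1 : e ≤ t / 10) (hδ : 0 ≤ δ) (hθ : |θ s - t| ≤ ε * t) (hθ' : |θ s' - t| ≤ ε * t)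
    (hgη : ∀ u ∈ Icc s s', |g u| ≤ η)
    (hκ : ∀ u ∈ Icc s s', 1 ≤ κ u ∧ κ u ≤ 2 ∧ |κ u - k| ≤ δ)
    (hph : ∀ u ∈ Icc s s',
      |(psi κ u - (psi κ s + θ s)) - ((k * (u - s0) - t) - 2 * t * i)| ≤ e) :
    |(JJ κ θ s' - JJ κ θ s) + (1 / k ^ 2) * ∫ u in s..s', bb t (k * (u - s0) - t) * g u| ≤
      η * (s' - s) * (t ^ 4 + 4 * t ^ 2 * δ + 2 * t * (e + 2 * ε * t)) := by
  have hκc : Continuous κ := continuous_iff_continuousAt.2 (fun s => (hd s).continuousAt)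
  have hpsi : Continuous (psi κ) :=
    continuous_iff_continuousAt.2 (fun s => (psi_deriv hκc s).continuousAt)
  have hss : s ≤ s' := h1.1.le
  have hAc : Continuous (fun u => (1 - Real.cos (psi κ u - (psi κ s + θ s))) * (g u / κ u ^ 2)) := by
    refine Continuous.mul (by fun_prop) ?_
    exact hg.div (hκc.pow 2) (fun u => (pow_pos (hp u) 2).ne')
  have hBc : Continuous (fun u => (1 / k ^ 2) * (bb t (k * (u - s0) - t) * g u)) := by
    refine Continuous.mul continuous_const (Continuous.mul ?_ hg)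
    exact (bb_cont ht).comp (by fun_prop)
  rw [next_J hp hd hg h h1, ← intervalIntegral.integral_const_mul, neg_add_eq_sub,
    ← intervalIntegral.integral_sub (hBc.intervalIntegrable _ _) (hAc.intervalIntegrable _ _)]
  have hbound := intervalIntegral.norm_integral_le_of_norm_le_const (a := s) (b := s')
    (f := fun u => (1 / k ^ 2) * (bb t (k * (u - s0) - t) * g u) -
      (1 - Real.cos (psi κ u - (psi κ s + θ s))) * (g u / κ u ^ 2))
    (C := η * (t ^ 4 + 4 * t ^ 2 * δ + 2 * t * (e + 2 * ε * t))) (by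
      intro u hu
      rw [Set.uIoc_of_le hss] at hu
      have huI : u ∈ Icc s s' := ⟨hu.1.le, hu.2⟩
      rw [Real.norm_eq_abs]
      have hr := next_range hκc hp h h1 huI.1 huI.2
      have hY : |psi κ u - (psi κ s + θ s)| ≤ t * (1 + ε) := by
        rw [abs_le] at hθ hθ' ⊢
        constructor
        · linarith [hr.1, hθ.2]
        · linarith [hr.2, hθ'.2]
      exact chord_int_pt hη ht ht1 hk.1 (hκ u huI).1 hε hε1 he hδ (hκ u huI).2.2 (hgη u huI) hY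
        (bb_close ht hε hε1 he he1 hY (hph u huI)))
  rw [Real.norm_eq_abs, abs_of_nonneg (sub_nonneg.2 hss)] at hbound
  calc _ ≤ _ := hbound
    _ = _ := by ring

end Pool.Agent.Helper606.CA
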