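import Pool.Agent.Helper606.CA2.Defs
import Pool.Agent.Helper606.CA.P_psi_deriv

set_option autoImplicit false

namespace Pool.Agent.Helper606.CA
open Complex Set


theorem phase {κ : ℝ → ℝ} {θ : ℝ → ℝ} (hc : Continuous κ) (hp : ∀ s, 0 < κ s)
    {x : ℕ → ℝ} (hx : ∀ i, Next κ θ (x i) (x (i+1))) {m : ℕ} {t k ε δ D : ℝ} (ht : 0 < t)
    (hε : 0 ≤ ε) (hε1 : ε ≤ 1/10) (hth : ∀ i ≤ m + 1, |θ (x i) - t| ≤ ε * t)
    (hD : x (m+1) - x 0 ≤ D) (hk : 1 ≤ k ∧ k ≤ 2) (hκ2 : ∀ u ∈ Icc (x 0) (x (m+1)), κ u ≤ 2)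
    (hκk : ∀ u ∈ Icc (x 0) (x (m+1)), |κ u - k| ≤ δ) (hδ : 0 ≤ δ) {i : ℕ} (hi : i ≤ m) {u : ℝ}
    (h1 : x i ≤ u) (h2 : u ≤ x (i+1)) :
    |(psi κ u - (psi κ (x i) + θ (x i))) - ((k * (u - x 0) - t) - 2 * t * (i:ℤ))| ≤
      δ * D + 4 * ε * D + ε * t := by
  have hmono : Monotone x := monotone_nat_of_le_succ (fun i => (hx i).1.le)
  have hint : ∀ a b, IntervalIntegrable κ MeasureTheory.volume a b := fun a b => hc.intervalIntegrable a b
  have hdiff : ∀ a b, psi κ b - psi κ a = ∫ v in a..b, κ v := by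
    intro a b
    unfold psi
    exact intervalIntegral.integral_interval_sub_left (hint 0 b) (hint 0 a)
  have hxi : x 0 ≤ x i := hmono (Nat.zero_le _)
  have hxi1 : x (i+1) ≤ x (m+1) := hmono (by omega)
  have hxim : x i ≤ x (m+1) := hmono (by omega)
  have hu0 : x 0 ≤ u := hxi.trans h1
  have hum : u ≤ x (m+1) := h2.trans hxi1
  -- first
  have e1 : |psi κ u - psi κ (x 0) - k * (u - x 0)| ≤ δ * (u - x 0) := by
    have h3 : psi κ u - psi κ (x 0) - k * (u - x 0) = ∫ v in (x 0)..u, (κ v - k) := by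
      rw [intervalIntegral.integral_sub (hint _ _) intervalIntegrable_const, hdiff]
      simp; ring
    rw [h3]
    have h4 := intervalIntegral.norm_integral_le_of_norm_le_const (a := x 0) (b := u) (C := δ)
      (f := fun v => κ v - k) (by
        intro v hv
        rw [Set.uIoc_of_le hu0] at hv
        rw [Real.norm_eq_abs]
        exact hκk v ⟨hv.1.le, hv.2.trans hum⟩)
    rw [Real.norm_eq_abs, abs_of_nonneg (sub_nonneg.2 hu0)] at h4
    exact h4
  -- second
  have e2 : ∀ j : ℕ, j ≤ m + 1 → |psi κ (x j) - psi κ (x 0) - 2 * t * j| ≤ 2 * j * (ε * t) := by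
    intro j
    induction j with
    | zero => intro _; simp
    | succ j ih =>
      intro hj
      have ih' := ih (by omega)
      have a1 := hth j (by omega)
      have a2 := hth (j+1) hj
      have a3 := (hx j).2
      rw [abs_le] at *
      push_cast
      constructor <;> nlinarith [ih'.1, ih'.2, a1.1, a1.2, a2.1, a2.2, a3]
  have e2i := e2 i (by omega)
  have e3 : psi κ (x i) - psi κ (x 0) ≤ 2 * (x i - x 0) := by
    rw [hdiff]
    have h5 : ∫ v in (x 0)..(x i), κ v ≤ ∫ v in (x 0)..(x i), (2:ℝ) := by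
      apply intervalIntegral.integral_mono_on hxi (hint _ _) intervalIntegrable_const
      intro v hv
      exact hκ2 v ⟨hv.1, hv.2.trans hxim⟩
    refine h5.trans (le_of_eq ?_)
    simp; ring
  have hith := hth i (by omega)
  have hD0 : x i - x 0 ≤ D := by linarith
  have hitD : (i:ℝ) * t ≤ 2 * D := by
    have q1 := (abs_le.1 e2i).1
    have hi0 : (0:ℝ) ≤ i := Nat.cast_nonneg _
    have q2 : (i:ℝ) * t * ε ≤ (i:ℝ) * t * (1/10) := mul_le_mul_of_nonneg_left hε1 (by positivity)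
    nlinarith
  have e4 : 2 * (i:ℝ) * (ε * t) ≤ 4 * ε * D := by nlinarith
  have e5 : δ * (u - x 0) ≤ δ * D := mul_le_mul_of_nonneg_left (by linarith) hδ
  have key : (psi κ u - (psi κ (x i) + θ (x i))) - ((k * (u - x 0) - t) - 2 * t * (i:ℤ)) =
      (psi κ u - psi κ (x 0) - k * (u - x 0)) - (psi κ (x i) - psi κ (x 0) - 2 * t * i) - (θ (x i) - t) := by
    push_cast; ring
  rw [key]
  rw [abs_le] at *
  constructor <;> linarith [e1.1, e1.2, e2i.1, e2i.2, hith.1, hith.2]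

end Pool.Agent.Helper606.CA
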