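import Pool.Agent.Helper606.CA2.Defs
import Pool.Agent.Helper606.CA2.P_bb_cont
import Pool.Agent.Helper606.CA2.P_phase
import Pool.Agent.Helper606.CA2.P_chord_int

set_option autoImplicit false

namespace Pool.Agent.Helper606.CA
open Complex Set


theorem orbit_int {κ g : ℝ → ℝ} {C : Set ℂ} {θ : ℝ → ℝ} (hp : ∀ s, 0 < κ s)
    (hd : ∀ s, HasDerivAt κ (g s) s) (hg : Continuous g)
    (h : IsAngle κ C θ) {x : ℕ → ℝ} (hx : ∀ i, Next κ θ (x i) (x (i+1))) {m : ℕ}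
    {η t k ε δ D : ℝ} (hη : 0 ≤ η) (ht : 0 < t) (ht1 : t ≤ 1/8) (hk : 1 ≤ k ∧ k ≤ 2) (hε : 0 ≤ ε)
    (hε1 : ε ≤ 1/10) (hδ : 0 ≤ δ) (hth : ∀ i ≤ m + 1, |θ (x i) - t| ≤ ε * t)
    (hD : x (m+1) - x 0 ≤ D) (hgη : ∀ u ∈ Icc (x 0) (x (m+1)), |g u| ≤ η)
    (hκ : ∀ u ∈ Icc (x 0) (x (m+1)), 1 ≤ κ u ∧ κ u ≤ 2 ∧ |κ u - k| ≤ δ)
    (he1 : δ * D + 4 * ε * D + ε * t ≤ t / 10) :
    |(JJ κ θ (x (m+1)) - JJ κ θ (x 0)) +
        (1 / k ^ 2) * ∫ u in (x 0)..(x (m+1)), bb t (k * (u - x 0) - t) * g u| ≤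
      η * D * (t ^ 4 + 4 * t ^ 2 * δ + 2 * t * (δ * D + 4 * ε * D + 3 * ε * t)) := by
  have hc : Continuous κ := continuous_iff_continuousAt.mpr fun s => (hd s).continuousAt
  have hmono : StrictMono x := strictMono_nat_of_lt_succ (fun i => (hx i).1)
  have hsub : ∀ i ≤ m, ∀ u ∈ Icc (x i) (x (i+1)), u ∈ Icc (x 0) (x (m+1)) := by
    intro i hi u hu
    exact ⟨(hmono.monotone (Nat.zero_le i)).trans hu.1,
      hu.2.trans (hmono.monotone (Nat.succ_le_succ hi))⟩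
  have hx0 : x 0 < x (m+1) := hmono (Nat.succ_pos m)
  have hD0 : 0 ≤ D := by linarith
  obtain ⟨e, hedef⟩ : ∃ e : ℝ, e = δ * D + 4 * ε * D + ε * t := ⟨_, rfl⟩
  have he0 : 0 ≤ e := by rw [hedef]; positivity
  rw [← hedef] at he1
  obtain ⟨B, hB⟩ : ∃ B : ℝ, B = t ^ 4 + 4 * t ^ 2 * δ + 2 * t * (e + 2 * ε * t) := ⟨_, rfl⟩
  have hB0 : 0 ≤ B := by rw [hB]; positivity
  have hB' : t ^ 4 + 4 * t ^ 2 * δ + 2 * t * (δ * D + 4 * ε * D + 3 * ε * t) = B := by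
    rw [hB, hedef]; ring
  rw [hB']
  have hchord : ∀ i ∈ Finset.range (m+1), |(JJ κ θ (x (i+1)) - JJ κ θ (x i)) +
      (1 / k ^ 2) * ∫ u in (x i)..(x (i+1)), bb t (k * (u - x 0) - t) * g u| ≤
        η * (x (i+1) - x i) * B := by
    intro i hi
    have hi' : i ≤ m := Nat.lt_succ_iff.mp (Finset.mem_range.mp hi)
    rw [hB]
    refine chord_int (i := (i : ℤ)) hp hd hg h (hx i) hη ht ht1 hk hε hε1 he0 he1 hδ
      (hth i (by omega)) (hth (i+1) (by omega)) (fun u hu => hgη u (hsub i hi' u hu))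
      (fun u hu => hκ u (hsub i hi' u hu)) ?_
    intro u hu
    rw [hedef]
    exact phase hc hp hx ht hε hε1 hth hD hk (fun u hu => (hκ u hu).2.1) (fun u hu => (hκ u hu).2.2)
      hδ hi' hu.1 hu.2
  have hcontI : Continuous (fun u => bb t (k * (u - x 0) - t) * g u) := by
    refine Continuous.mul ?_ hg
    exact (bb_cont ht).comp (by fun_prop)
  have hsumI : ∑ i ∈ Finset.range (m+1), ∫ u in (x i)..(x (i+1)), bb t (k * (u - x 0) - t) * g u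
      = ∫ u in (x 0)..(x (m+1)), bb t (k * (u - x 0) - t) * g u :=
    intervalIntegral.sum_integral_adjacent_intervals
      (fun i _ => hcontI.intervalIntegrable _ _)
  have hsumJ : ∑ i ∈ Finset.range (m+1), (JJ κ θ (x (i+1)) - JJ κ θ (x i))
      = JJ κ θ (x (m+1)) - JJ κ θ (x 0) := Finset.sum_range_sub (fun i => JJ κ θ (x i)) (m+1)
  have hsumx : ∑ i ∈ Finset.range (m+1), (x (i+1) - x i) = x (m+1) - x 0 :=
    Finset.sum_range_sub x (m+1)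
  calc |(JJ κ θ (x (m+1)) - JJ κ θ (x 0)) +
        (1 / k ^ 2) * ∫ u in (x 0)..(x (m+1)), bb t (k * (u - x 0) - t) * g u|
      = |∑ i ∈ Finset.range (m+1), ((JJ κ θ (x (i+1)) - JJ κ θ (x i)) +
        (1 / k ^ 2) * ∫ u in (x i)..(x (i+1)), bb t (k * (u - x 0) - t) * g u)| := by
        rw [Finset.sum_add_distrib, ← Finset.mul_sum, hsumI, hsumJ]
    _ ≤ ∑ i ∈ Finset.range (m+1), |(JJ κ θ (x (i+1)) - JJ κ θ (x i)) +
        (1 / k ^ 2) * ∫ u in (x i)..(x (i+1)), bb t (k * (u - x 0) - t) * g u| :=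
        Finset.abs_sum_le_sum_abs _ _
    _ ≤ ∑ i ∈ Finset.range (m+1), η * (x (i+1) - x i) * B := Finset.sum_le_sum hchord
    _ = η * (x (m+1) - x 0) * B := by
        rw [← Finset.sum_mul, ← Finset.mul_sum, hsumx]
    _ ≤ η * D * B :=
        mul_le_mul_of_nonneg_right (mul_le_mul_of_nonneg_left hD hη) hB0

end Pool.Agent.Helper606.CA
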