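import Pool.Agent.Helper606.CA2.Defs
import Pool.Agent.Helper606.CA.P_psi_deriv
import Pool.Agent.Helper606.CA.P_psi_mono
import Pool.Agent.Helper606.CA.P_ht_int
import Pool.Agent.Helper606.CA.P_ht_add
import Pool.Agent.Helper606.CA.P_ht_polar
import Pool.Agent.Helper606.CA.P_fwd_le
import Pool.Agent.Helper606.CA.P_bwd_lt
import Pool.Agent.Helper606.CA2.P_angle_strict
import Pool.Agent.Helper606.CA2.P_next_mono
import Pool.Agent.Helper606.CA2.P_next_range

set_option autoImplicit false

namespace Pool.Agent.Helper606.CA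
open Complex Set


theorem next_short {κ : ℝ → ℝ} {C : Set ℂ} {θ : ℝ → ℝ} (hc : Continuous κ) (hp : ∀ s, 0 < κ s)
    (h : IsAngle κ C θ) {s s' : ℝ} (h1 : Next κ θ s s') (hs : θ s ≤ 1/4)
    (hκ : ∀ u ∈ Icc s (s + 4 * θ s), 1 ≤ κ u ∧ κ u ≤ 2) : s' ≤ s + 4 * θ s := by
  by_contra hcon
  have hcon := not_le.mp hcon
  obtain ⟨hss, hnext⟩ := h1
  have hθ := h.pos s
  obtain ⟨u, hu⟩ : ∃ u, u = s + 4 * θ s := ⟨_, rfl⟩
  rw [← hu] at hcon hκ
  obtain ⟨α, hα⟩ : ∃ α, α = psi κ s + θ s := ⟨_, rfl⟩
  rw [← hα] at hnext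
  have hsu : s < u := by rw [hu]; linarith
  have hpc : Continuous (psi κ) :=
    continuous_iff_continuousAt.mpr (fun x => (psi_deriv hc x).continuousAt)
  have hpm := psi_mono hc hp
  have h2 := (angle_strict hc hp h hcon).2
  rw [hnext] at h2
  have hint : ∫ v in s..u, κ v = psi κ u - psi κ s :=
    intervalIntegral.integral_eq_sub_of_hasDerivAt (fun x _ => psi_deriv hc x)
      (hc.intervalIntegrable _ _)
  have hlow : u - s ≤ psi κ u - psi κ s := by
    rw [← hint]
    have h3 : ∫ v in s..u, (1:ℝ) ≤ ∫ v in s..u, κ v :=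
      intervalIntegral.integral_mono_on hsu.le (continuous_const.intervalIntegrable s u)
        (hc.intervalIntegrable s u) (fun x hx => (hκ x hx).1)
    simpa using h3
  have hupp : psi κ u - psi κ s ≤ 2 * (u - s) := by
    rw [← hint]
    have h3 : ∫ v in s..u, κ v ≤ ∫ v in s..u, (2:ℝ) :=
      intervalIntegral.integral_mono_on hsu.le (hc.intervalIntegrable s u)
        (continuous_const.intervalIntegrable s u) (fun x hx => (hκ x hx).2)
    rw [intervalIntegral.integral_const, smul_eq_mul] at h3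
    linarith
  have hb1 : 3 * θ s ≤ psi κ u - α := by rw [hα]; linarith
  have hb2 : psi κ u - α ≤ 7 * θ s := by rw [hα]; linarith
  have hlt := h.lt u
  have hpi := Real.pi_gt_three
  have h3 := (bwd_lt h (s := u) (β := psi κ u - α) (by linarith) (by linarith)).mpr (by linarith)
  obtain ⟨c, hcC, hcang⟩ := h.attl s
  have h4 := h3 c hcC
  rw [sub_sub_cancel] at h4
  have h5 : ht κ α s c = 0 := by
    rw [ht_polar, hcang, hα, add_sub_cancel_left, sub_self, Real.sin_zero, mul_zero]
  have h6 := ht_add κ α s u c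
  have h7 : ht κ α s (gam κ u) < 0 := by linarith
  rw [ht_int hc] at h7
  obtain ⟨v0, hv0, hv0'⟩ : ∃ v0 ∈ Icc s u, psi κ v0 = α := by
    have h8 := intermediate_value_Icc hsu.le hpc.continuousOn
    exact h8 ⟨by linarith, by linarith⟩
  have hcs : Continuous (fun v => Real.sin (psi κ v - α)) :=
    Real.continuous_sin.comp (hpc.sub continuous_const)
  have hF : ∀ a b : ℝ, ∫ v in a..b, κ v * Real.sin (psi κ v - α) =
      -Real.cos (psi κ b - α) - -Real.cos (psi κ a - α) := by
    intro a b
    apply intervalIntegral.integral_eq_sub_of_hasDerivAt (f := fun v => -Real.cos (psi κ v - α))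
    · intro x _
      have e := ((psi_deriv hc x).sub_const α).cos.neg
      have e' : -(-Real.sin (psi κ x - α) * κ x) = κ x * Real.sin (psi κ x - α) := by ring
      rw [e'] at e
      exact e
    · exact (hc.mul hcs).intervalIntegrable _ _
  have hneg : -1 + Real.cos (θ s) ≤ ∫ v in s..v0, Real.sin (psi κ v - α) := by
    have e := hF s v0
    have e2 : psi κ s - α = -θ s := by rw [hα]; ring
    rw [hv0', sub_self, Real.cos_zero, e2, Real.cos_neg] at e
    have e3 : ∫ v in s..v0, κ v * Real.sin (psi κ v - α) ≤ ∫ v in s..v0, Real.sin (psi κ v - α) := by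
      apply intervalIntegral.integral_mono_on hv0.1 ((hc.mul hcs).intervalIntegrable _ _)
        (hcs.intervalIntegrable _ _)
      intro v hv
      have hv1 : v ∈ Icc s u := ⟨hv.1, hv.2.trans hv0.2⟩
      have hk := (hκ v hv1).1
      have hx : psi κ v - α ≤ 0 := by
        have := hpm.monotone hv.2
        linarith
      have hx2 : -θ s ≤ psi κ v - α := by
        have := hpm.monotone hv.1
        linarith
      have hsin : Real.sin (psi κ v - α) ≤ 0 :=
        Real.sin_nonpos_of_nonpos_of_neg_pi_le hx (by linarith)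
      show κ v * Real.sin (psi κ v - α) ≤ Real.sin (psi κ v - α)
      nlinarith
    linarith
  have hposp : (1 - Real.cos (3 * θ s)) / 2 ≤ ∫ v in v0..u, Real.sin (psi κ v - α) := by
    have e := hF v0 u
    rw [hv0', sub_self, Real.cos_zero] at e
    have e3 : ∫ v in v0..u, κ v * Real.sin (psi κ v - α) ≤
        ∫ v in v0..u, 2 * Real.sin (psi κ v - α) := by
      apply intervalIntegral.integral_mono_on hv0.2 ((hc.mul hcs).intervalIntegrable _ _)
        ((continuous_const.mul hcs).intervalIntegrable _ _)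
      intro v hv
      have hv1 : v ∈ Icc s u := ⟨hv0.1.trans hv.1, hv.2⟩
      have hk := (hκ v hv1).2
      have hx : 0 ≤ psi κ v - α := by
        have := hpm.monotone hv.1
        linarith
      have hx2 : psi κ v - α ≤ 7 * θ s := by
        have := hpm.monotone hv.2
        linarith
      have hsin : 0 ≤ Real.sin (psi κ v - α) :=
        Real.sin_nonneg_of_nonneg_of_le_pi hx (by linarith)
      show κ v * Real.sin (psi κ v - α) ≤ 2 * Real.sin (psi κ v - α)
      nlinarith
    rw [intervalIntegral.integral_const_mul, e] at e3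
    have hcos : Real.cos (psi κ u - α) ≤ Real.cos (3 * θ s) :=
      Real.cos_le_cos_of_nonneg_of_le_pi (by linarith) (by linarith) hb1
    linarith
  have htot : (∫ v in s..v0, Real.sin (psi κ v - α)) + (∫ v in v0..u, Real.sin (psi κ v - α)) =
      ∫ v in s..u, Real.sin (psi κ v - α) :=
    intervalIntegral.integral_add_adjacent_intervals (hcs.intervalIntegrable _ _)
      (hcs.intervalIntegrable _ _)
  have htrig : 2 * (1 - Real.cos (θ s)) ≤ 1 - Real.cos (3 * θ s) := by
    rw [Real.cos_three_mul]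
    have hc1 : 1 - θ s ^ 2 / 2 ≤ Real.cos (θ s) := Real.one_sub_sq_div_two_le_cos
    have hc2 : Real.cos (θ s) ≤ 1 := Real.cos_le_one _
    have hc3 : 1/2 ≤ Real.cos (θ s) := by nlinarith
    obtain ⟨x, hx⟩ : ∃ x, x = Real.cos (θ s) := ⟨_, rfl⟩
    rw [← hx] at hc2 hc3 ⊢
    have h9 : 0 ≤ (1 - x) * (4 * x ^ 2 + 4 * x - 1) := by
      apply mul_nonneg (by linarith)
      nlinarith
    nlinarith
  linarith

end Pool.Agent.Helper606.CA
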