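import Pool.Agent.Helper606.CA2.Defs
import Pool.Agent.Helper606.CA.P_psi_deriv
import Pool.Agent.Helper606.CA.P_psi_mono
import Pool.Agent.Helper606.CA.P_psi_per
import Pool.Agent.Helper606.CA2.P_angle_cont

set_option autoImplicit false

namespace Pool.Agent.Helper606.CA
open Complex Set


theorem next_exists {κ : ℝ → ℝ} {P : ℝ} {C : Set ℂ} {θ : ℝ → ℝ} (hκ : Closed κ P)
    (h : IsAngle κ C θ) (s : ℝ) : ∃ s', Next κ θ s s' := by
  have hθ : Continuous θ := angle_cont hκ.cont hκ.pos h
  have hψ : Continuous (psi κ) := continuous_iff_continuousAt.2 fun u =>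
    (psi_deriv hκ.cont u).continuousAt
  have hf : Continuous (fun u => psi κ u - θ u) := hψ.sub hθ
  have hlo : psi κ s - θ s < psi κ s + θ s := by
    have h1 := h.pos s
    linarith
  have hhi : psi κ s + θ s < psi κ (s + P) - θ (s + P) := by
    rw [psi_per hκ s]
    have h1 := h.lt s
    have h2 := h.lt (s + P)
    linarith
  have hle : s ≤ s + P := by
    have h1 := hκ.P_pos
    linarith
  obtain ⟨s', hs', he⟩ := intermediate_value_Icc hle hf.continuousOn ⟨hlo.le, hhi.le⟩
  have he' : psi κ s' - θ s' = psi κ s + θ s := he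
  refine ⟨s', lt_of_le_of_ne hs'.1 ?_, he'⟩
  rintro rfl
  exact absurd he' hlo.ne

end Pool.Agent.Helper606.CA
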