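import Pool.Agent.Helper606.CA2.Defs
import Pool.Agent.Helper606.CA.P_psi_deriv
import Pool.Agent.Helper606.CA.P_psi_mono
import Pool.Agent.Helper606.CA2.P_angle_cont
import Pool.Agent.Helper606.CA2.P_next_exists

set_option autoImplicit false

namespace Pool.Agent.Helper606.CA
open Complex Set


theorem orbit_exists {κ : ℝ → ℝ} {P : ℝ} {C : Set ℂ} {θ : ℝ → ℝ} (hκ : Closed κ P)
    (h : IsAngle κ C θ) {s0 q : ℝ} (hsq : s0 < q) :
    ∃ (x : ℕ → ℝ) (m : ℕ), x 0 = s0 ∧ (∀ i, Next κ θ (x i) (x (i+1))) ∧ x m < q ∧ q ≤ x (m+1) := by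
  classical
  choose nxt hnxt using fun s => next_exists hκ h s
  let x : ℕ → ℝ := fun n => nxt^[n] s0
  have hx0 : x 0 = s0 := rfl
  have hxs : ∀ i, Next κ θ (x i) (x (i+1)) := by
    intro i
    have : x (i + 1) = nxt (x i) := Function.iterate_succ_apply' nxt i s0
    rw [this]
    exact hnxt _
  have hmono : StrictMono x := strictMono_nat_of_lt_succ fun i => (hxs i).1
  have hex : ∃ i, q ≤ x i := by
    by_contra hcon
    push Not at hcon
    have hb : BddAbove (Set.range x) := ⟨q, by rintro _ ⟨i, rfl⟩; exact (hcon i).le⟩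
    have hl := tendsto_atTop_ciSup hmono.monotone hb
    set y := ⨆ i, x i with hy
    have hl1 : Filter.Tendsto (fun i => x (i + 1)) Filter.atTop (nhds y) :=
      hl.comp (Filter.tendsto_add_atTop_nat 1)
    have hθc := angle_cont hκ.cont hκ.pos h
    have hψc : Continuous (psi κ) :=
      continuous_iff_continuousAt.2 fun s => (psi_deriv hκ.cont s).continuousAt
    have h1 : Filter.Tendsto (fun i => psi κ (x (i + 1)) - θ (x (i + 1))) Filter.atTop
        (nhds (psi κ y - θ y)) :=
      ((hψc.tendsto y).comp hl1).sub ((hθc.tendsto y).comp hl1)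
    have h2 : Filter.Tendsto (fun i => psi κ (x i) + θ (x i)) Filter.atTop
        (nhds (psi κ y + θ y)) :=
      ((hψc.tendsto y).comp hl).add ((hθc.tendsto y).comp hl)
    have h3 : (fun i => psi κ (x (i + 1)) - θ (x (i + 1))) = fun i => psi κ (x i) + θ (x i) := by
      funext i
      exact (hxs i).2
    rw [h3] at h1
    have h4 := tendsto_nhds_unique h1 h2
    have h5 := h.pos y
    linarith
  have hfind := Nat.find_spec hex
  have hne : Nat.find hex ≠ 0 := by
    intro h0
    rw [h0, hx0] at hfind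
    linarith
  obtain ⟨m, hm⟩ := Nat.exists_eq_succ_of_ne_zero hne
  refine ⟨x, m, hx0, hxs, ?_, ?_⟩
  · have := Nat.find_min hex (m := m) (by omega)
    exact not_le.1 this
  · rw [hm] at hfind
    exact hfind

end Pool.Agent.Helper606.CA
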