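import Pool.Agent.Helper606.CA2.Defs

set_option autoImplicit false

namespace Pool.Agent.Helper606.CA
open Complex Set


theorem theta_from_J {a b k1 k2 e : ℝ} (ha : 0 < a) (hb : 0 < b) (ha2 : a ≤ 1/4)
    (hb2 : b < Real.pi / 2) (hk1 : 1 ≤ k1 ∧ k1 ≤ 2) (hk2 : 1 ≤ k2 ∧ k2 ≤ 2) (he : 0 ≤ e)
    (he2 : e ≤ 1/100) (hk : |k2 - k1| ≤ e)
    (hJ : |(1 - Real.cos b) / k2 - (1 - Real.cos a) / k1| ≤ 8 * e * ((1 - Real.cos a) / k1)) :
    |b - a| ≤ 20 * e * a := by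
  obtain ⟨hk1a, hk1b⟩ := hk1
  obtain ⟨hk2a, hk2b⟩ := hk2
  have hpi1 := Real.pi_gt_d2
  have hpi2 := Real.pi_lt_d2
  have hhalf : ∀ t : ℝ, 1 - Real.cos t = 2 * Real.sin (t / 2) ^ 2 := by
    intro t
    have h1 := Real.cos_two_mul (t / 2)
    have h2 := Real.sin_sq_add_cos_sq (t / 2)
    have h3 : 2 * (t / 2) = t := by ring
    rw [h3] at h1
    linarith
  rw [hhalf a, hhalf b] at hJ
  set x := Real.sin (a / 2) with hx
  set y := Real.sin (b / 2) with hy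
  have hx0 : 0 < x := Real.sin_pos_of_pos_of_lt_pi (by linarith) (by linarith)
  have hy0 : 0 < y := Real.sin_pos_of_pos_of_lt_pi (by linarith) (by linarith)
  have hxa : x ≤ a / 2 := Real.sin_le (by linarith)
  have hk1p : 0 < k1 := by linarith
  have hk2p : 0 < k2 := by linarith
  -- multiply out
  have hx2 : 0 < x ^ 2 := by positivity
  have hkk := abs_le.mp hk
  obtain ⟨hkk1, hkk2⟩ := hkk
  have hek : e ≤ k1 * e := le_mul_of_one_le_left he hk1a
  have hee : e * e ≤ e * (1 / 100) := mul_le_mul_of_nonneg_left he2 he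
  have hee0 : 0 ≤ e * e := mul_nonneg he he
  obtain ⟨hJ1, hJ2⟩ := abs_le.mp hJ
  have hup : y ^ 2 ≤ (1 + 10 * e) * x ^ 2 := by
    have h1 : 2 * y ^ 2 / k2 ≤ (1 + 8 * e) * (2 * x ^ 2 / k1) := by linarith
    have h2 : y ^ 2 * k1 ≤ (1 + 8 * e) * x ^ 2 * k2 := by
      have h3 : 2 * y ^ 2 / k2 * (k1 * k2) ≤ (1 + 8 * e) * (2 * x ^ 2 / k1) * (k1 * k2) :=
        mul_le_mul_of_nonneg_right h1 (by positivity)
      have h4 : 2 * y ^ 2 / k2 * (k1 * k2) = 2 * (y ^ 2 * k1) := by field_simp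
      have h5 : (1 + 8 * e) * (2 * x ^ 2 / k1) * (k1 * k2) = 2 * ((1 + 8 * e) * x ^ 2 * k2) := by
        field_simp
      rw [h4, h5] at h3
      linarith
    have h6 : k2 ≤ k1 * (1 + e) := by linarith
    have h7 : (1 + 8 * e) * x ^ 2 * k2 ≤ (1 + 8 * e) * x ^ 2 * (k1 * (1 + e)) :=
      mul_le_mul_of_nonneg_left h6 (by positivity)
    have h8 : y ^ 2 * k1 ≤ ((1 + 8 * e) * (1 + e) * x ^ 2) * k1 := by
      calc y ^ 2 * k1 ≤ _ := h2
        _ ≤ _ := h7
        _ = _ := by ring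
    have h9 : y ^ 2 ≤ (1 + 8 * e) * (1 + e) * x ^ 2 := le_of_mul_le_mul_right h8 hk1p
    refine h9.trans (mul_le_mul_of_nonneg_right ?_ hx2.le)
    linarith
  have hlow : (1 - 10 * e) * x ^ 2 ≤ y ^ 2 := by
    have h1 : (1 - 8 * e) * (2 * x ^ 2 / k1) ≤ 2 * y ^ 2 / k2 := by linarith
    have h2 : (1 - 8 * e) * x ^ 2 * k2 ≤ y ^ 2 * k1 := by
      have h3 : (1 - 8 * e) * (2 * x ^ 2 / k1) * (k1 * k2) ≤ 2 * y ^ 2 / k2 * (k1 * k2) :=
        mul_le_mul_of_nonneg_right h1 (by positivity)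
      have h4 : 2 * y ^ 2 / k2 * (k1 * k2) = 2 * (y ^ 2 * k1) := by field_simp
      have h5 : (1 - 8 * e) * (2 * x ^ 2 / k1) * (k1 * k2) = 2 * ((1 - 8 * e) * x ^ 2 * k2) := by
        field_simp
      rw [h4, h5] at h3
      linarith
    have h6 : k1 * (1 - e) ≤ k2 := by linarith
    have h7 : (1 - 8 * e) * x ^ 2 * (k1 * (1 - e)) ≤ (1 - 8 * e) * x ^ 2 * k2 :=
      mul_le_mul_of_nonneg_left h6 (mul_nonneg (by linarith) hx2.le)
    have h8 : ((1 - 8 * e) * (1 - e) * x ^ 2) * k1 ≤ y ^ 2 * k1 := by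
      calc ((1 - 8 * e) * (1 - e) * x ^ 2) * k1 = (1 - 8 * e) * x ^ 2 * (k1 * (1 - e)) := by ring
        _ ≤ _ := h7
        _ ≤ _ := h2
    have h9 : (1 - 8 * e) * (1 - e) * x ^ 2 ≤ y ^ 2 := le_of_mul_le_mul_right h8 hk1p
    refine le_trans (mul_le_mul_of_nonneg_right ?_ hx2.le) h9
    linarith
  -- |y - x| ≤ (27/5) e x
  have hylow : 9 / 10 * x ≤ y := by
    by_contra hcon
    push Not at hcon
    have h1 : y ^ 2 < (9 / 10 * x) ^ 2 := by
      apply pow_lt_pow_left₀ hcon hy0.le (by norm_num)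
    have h2 : 9 / 10 * x ^ 2 ≤ (1 - 10 * e) * x ^ 2 :=
      mul_le_mul_of_nonneg_right (by linarith) hx2.le
    have h3 : (9 / 10 * x) ^ 2 = 81 / 100 * x ^ 2 := by ring
    linarith
  have hdiff : |y - x| * (19 / 10) ≤ 10 * e * x := by
    have h1 : |y - x| * (y + x) = |y ^ 2 - x ^ 2| := by
      have h2 : y ^ 2 - x ^ 2 = (y - x) * (y + x) := by ring
      rw [h2, abs_mul, abs_of_pos (show 0 < y + x by linarith)]
    have h3 : |y ^ 2 - x ^ 2| ≤ 10 * e * x ^ 2 := by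
      rw [abs_le]
      constructor <;> linarith
    have h4 : |y - x| * (19 / 10 * x) ≤ |y - x| * (y + x) :=
      mul_le_mul_of_nonneg_left (by linarith) (abs_nonneg _)
    have h5 : (|y - x| * (19 / 10)) * x ≤ (10 * e * x) * x := by
      calc (|y - x| * (19 / 10)) * x = |y - x| * (19 / 10 * x) := by ring
        _ ≤ _ := h4
        _ = _ := h1
        _ ≤ _ := h3
        _ = _ := by ring
    exact le_of_mul_le_mul_right h5 hx0
  -- lower bound for |y - x|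
  have hcos : (4 : ℝ) / 5 ≤ Real.cos ((b / 2 + a / 2) / 2) := by
    have h1 := Real.one_sub_sq_div_two_le_cos (x := (b / 2 + a / 2) / 2)
    have h2 : ((b / 2 + a / 2) / 2) ≤ 1 / 2 := by linarith
    have h3 : 0 ≤ ((b / 2 + a / 2) / 2) := by linarith
    have h4 : ((b / 2 + a / 2) / 2) ^ 2 ≤ (1 / 2) ^ 2 := pow_le_pow_left₀ h3 h2 2
    linarith
  have hsin : ∀ t : ℝ, 0 ≤ t → t ≤ 1 → 3 / 5 * t ≤ Real.sin t := by
    intro t ht0 ht1
    have h1 := Real.mul_le_sin ht0 (by linarith)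
    have h2 : (3 : ℝ) / 5 ≤ 2 / Real.pi := by
      rw [le_div_iff₀ (by linarith)]
      linarith
    calc 3 / 5 * t ≤ 2 / Real.pi * t := mul_le_mul_of_nonneg_right h2 ht0
      _ ≤ _ := h1
  have hyx : y - x = 2 * Real.sin ((b / 2 - a / 2) / 2) * Real.cos ((b / 2 + a / 2) / 2) := by
    rw [hy, hx, Real.sin_sub_sin]
  have hsabs : 3 / 5 * (|b - a| / 4) ≤ |Real.sin ((b / 2 - a / 2) / 2)| := by
    have h0 : (b / 2 - a / 2) / 2 = (b - a) / 4 := by ring
    rw [h0]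
    rcases le_total a b with hab | hab
    · rw [abs_of_nonneg (show 0 ≤ b - a by linarith)]
      have h1 := hsin ((b - a) / 4) (by linarith) (by linarith)
      exact h1.trans (le_abs_self _)
    · rw [abs_of_nonpos (show b - a ≤ 0 by linarith)]
      have h1 := hsin (-(b - a) / 4) (by linarith) (by linarith)
      have h2 : Real.sin (-(b - a) / 4) = - Real.sin ((b - a) / 4) := by
        rw [neg_div, Real.sin_neg]
      rw [h2] at h1
      exact h1.trans (neg_le_abs _)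
  have hlowd : |b - a| * (6 / 25) ≤ |y - x| := by
    rw [hyx, abs_mul, abs_mul, abs_of_pos (show (0 : ℝ) < 2 by norm_num),
      abs_of_pos (show 0 < Real.cos ((b / 2 + a / 2) / 2) by linarith)]
    have h1 : 2 * (3 / 5 * (|b - a| / 4)) ≤ 2 * |Real.sin ((b / 2 - a / 2) / 2)| := by linarith
    have h2 : 2 * (3 / 5 * (|b - a| / 4)) * (4 / 5) ≤
        2 * |Real.sin ((b / 2 - a / 2) / 2)| * Real.cos ((b / 2 + a / 2) / 2) :=
      mul_le_mul h1 hcos (by norm_num) (by positivity)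
    linarith
  have hfin : 10 * e * x ≤ 10 * e * (a / 2) := mul_le_mul_of_nonneg_left hxa (by positivity)
  have hea : 0 ≤ e * a := by positivity
  linarith

end Pool.Agent.Helper606.CA
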