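import Pool.Agent.Helper606.CA2.Defs
import Pool.Agent.Helper606.CA2.P_J_orbit
import Pool.Agent.Helper606.CA2.P_theta_from_J

set_option autoImplicit false

namespace Pool.Agent.Helper606.CA
open Complex Set


theorem orbit_theta {κ g : ℝ → ℝ} {C : Set ℂ} {θ : ℝ → ℝ} (hp : ∀ s, 0 < κ s)
    (hd : ∀ s, HasDerivAt κ (g s) s) (hg : Continuous g)
    (h : IsAngle κ C θ) {x : ℕ → ℝ} (hx : ∀ i, Next κ θ (x i) (x (i+1))) {m : ℕ} {η D : ℝ}
    (hη : 0 ≤ η) (hgη : ∀ u ∈ Icc (x 0) (x m), |g u| ≤ η)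
    (hκ : ∀ u ∈ Icc (x 0) (x m), 1 ≤ κ u ∧ κ u ≤ 2) (hD : x m - x 0 ≤ D) (hsm : η * D ≤ 1/100)
    (hθ : θ (x 0) ≤ 1/4) (i : ℕ) (hi : i ≤ m) :
    |θ (x i) - θ (x 0)| ≤ 20 * (η * D) * θ (x 0) := by
  have hmono : StrictMono x := strictMono_nat_of_lt_succ (fun j => (hx j).1)
  have h0i : x 0 ≤ x i := hmono.monotone (Nat.zero_le i)
  have him : x i ≤ x m := hmono.monotone hi
  have hsub : Icc (x 0) (x i) ⊆ Icc (x 0) (x m) := Icc_subset_Icc_right him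
  have hDi : x i - x 0 ≤ D := by linarith
  have hD0 : 0 ≤ D := by linarith
  have m0 : x 0 ∈ Icc (x 0) (x i) := ⟨le_rfl, h0i⟩
  have mi : x i ∈ Icc (x 0) (x i) := ⟨h0i, le_rfl⟩
  have hJ := J_orbit hp hd hg h hx (m := i) hη (fun u hu => hgη u (hsub hu))
    (fun u hu => hκ u (hsub hu)) hDi hsm
  refine theta_from_J (h.pos _) (h.pos _) hθ (h.lt _) (hκ _ (hsub m0)) (hκ _ (hsub mi))
    (mul_nonneg hη hD0) hsm ?_ hJ
  have hmv := (convex_Icc (x 0) (x i)).norm_image_sub_le_of_norm_hasDerivWithin_le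
    (f := κ) (f' := g) (C := η) (fun u _ => (hd u).hasDerivWithinAt)
    (fun u hu => by rw [Real.norm_eq_abs]; exact hgη u (hsub hu)) m0 mi
  rw [Real.norm_eq_abs, Real.norm_eq_abs, abs_of_nonneg (by linarith : 0 ≤ x i - x 0)] at hmv
  exact hmv.trans (mul_le_mul_of_nonneg_left hDi hη)

end Pool.Agent.Helper606.CA
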