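import Pool.Agent.Helper606.CA2.Defs
import Pool.Agent.Helper606.CA2.P_next_short
import Pool.Agent.Helper606.CA2.P_orbit_theta
import Pool.Agent.Helper606.CA2.P_orbit_exists

set_option autoImplicit false

namespace Pool.Agent.Helper606.CA
open Complex Set


theorem orbit_pkg {κ g : ℝ → ℝ} {P : ℝ} {C : Set ℂ} {θ : ℝ → ℝ} (hκ : Closed κ P)
    (hd : ∀ s, HasDerivAt κ (g s) s) (hg : Continuous g)
    (h : IsAngle κ C θ) {s0 q η D : ℝ} (hsq : s0 < q) (hη : 0 ≤ η)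
    (hD : q + 8 * θ s0 - s0 ≤ D) (hsm : η * D ≤ 1/100) (hθ : θ s0 ≤ 1/8)
    (hgη : ∀ u ∈ Icc s0 (q + 8 * θ s0), |g u| ≤ η)
    (hκ2 : ∀ u ∈ Icc s0 (q + 8 * θ s0), 1 ≤ κ u ∧ κ u ≤ 2) :
    ∃ (x : ℕ → ℝ) (m : ℕ), x 0 = s0 ∧ (∀ i, Next κ θ (x i) (x (i+1))) ∧ x m < q ∧ q ≤ x (m+1) ∧
      x (m+1) ≤ q + 8 * θ s0 ∧ ∀ i ≤ m + 1, |θ (x i) - θ s0| ≤ 20 * (η * D) * θ s0 := by
  obtain ⟨x, m, hx0, hx, hxm, hqm⟩ := orbit_exists hκ h hsq
  have hmono : StrictMono x := strictMono_nat_of_lt_succ (fun i => (hx i).1)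
  have hθpos : 0 < θ s0 := h.pos s0
  have h0m : x 0 ≤ x m := hmono.monotone (Nat.zero_le m)
  have hηD : 0 ≤ η * D := by
    apply mul_nonneg hη
    linarith
  have key1 := orbit_theta hκ.pos hd hg h hx (m := m) (η := η) (D := D) hη
    (fun u hu => hgη u ⟨by rw [← hx0]; exact hu.1, by linarith [hu.2]⟩)
    (fun u hu => hκ2 u ⟨by rw [← hx0]; exact hu.1, by linarith [hu.2]⟩)
    (by rw [hx0]; linarith) hsm (by rw [hx0]; linarith) m le_rfl
  rw [hx0] at key1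
  have hle : 20 * (η * D) * θ s0 ≤ 1/5 * θ s0 := by
    apply mul_le_mul_of_nonneg_right _ hθpos.le
    linarith
  have hθm : θ (x m) ≤ 6/5 * θ s0 := by
    have := (abs_le.1 key1).2
    linarith
  have hs0m : s0 ≤ x m := by rw [← hx0]; exact h0m
  have hns := next_short hκ.cont hκ.pos h (hx m) (by linarith)
    (fun u hu => hκ2 u ⟨by linarith [hu.1], by linarith [hu.2]⟩)
  have hend : x (m+1) ≤ q + 8 * θ s0 := by linarith
  refine ⟨x, m, hx0, hx, hxm, hqm, hend, ?_⟩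
  intro i hi
  have key2 := orbit_theta hκ.pos hd hg h hx (m := m+1) (η := η) (D := D) hη
    (fun u hu => hgη u ⟨by rw [← hx0]; exact hu.1, by linarith [hu.2]⟩)
    (fun u hu => hκ2 u ⟨by rw [← hx0]; exact hu.1, by linarith [hu.2]⟩)
    (by rw [hx0]; linarith) hsm (by rw [hx0]; linarith) i hi
  rw [hx0] at key2
  exact key2

end Pool.Agent.Helper606.CA
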