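import Pool.Agent.Helper606.CA2.Defs
import Pool.Agent.Helper606.CA.P_arc_fp
import Pool.Agent.Helper606.CA.P_arc_rev
import Pool.Agent.Helper606.CA.P_arc_left
import Pool.Agent.Helper606.CA.P_right_geom

set_option autoImplicit false

namespace Pool.Agent.Helper606.CA
open Complex Set


theorem right_up {κ : ℝ → ℝ} {C : Set ℂ} {θ : ℝ → ℝ} (hc : Continuous κ) (hp : ∀ s, 0 < κ s)
    (h : IsAngle κ C θ) {k p l x : ℝ} {N : ℕ} (hk : 0 < k) (hl : 0 ≤ l) (hN : 1 ≤ N)
    (harc : ∀ u ∈ Icc p (p + l), κ u = k) (hlt : k * l < 2 * Real.pi) (hx : 0 ≤ x)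
    (hx2 : x < 2 * θ p) (hA : 2 * (N + 1) * θ p ≤ k * l) :
    |θ (p + x / k) - θ p| ≤ θ p / N := by
  have hθ : 0 < θ p := h.pos p
  have hN0 : (0 : ℝ) < N := by exact_mod_cast (Nat.lt_of_lt_of_le Nat.zero_lt_one hN)
  rcases hx.lt_or_eq with hx0 | hx0
  · have hup := right_geom hc hp h hk hl hN harc hlt hx hx2 hA
    have harc0 := arc_fp hc hp h (s1 := p) (s2 := p + l) hk (by linarith) harc
      (by rw [add_sub_cancel_left]; exact hlt)
    rw [add_sub_cancel_left] at harc0
    have hrev := arc_rev harc0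
    have hA2 : 2 * N * (fun a => (fun a => θ (p + a / k)) (k * l - a)) (k * l) + x ≤ k * l := by
      show 2 * (N : ℝ) * θ (p + (k * l - k * l) / k) + x ≤ k * l
      rw [sub_self, zero_div, add_zero]
      linarith
    have hlow := arc_left hrev hN hx0 hA2
    have hlow2 : θ (p + (k * l - k * l) / k) - x / (2 * N) ≤
        θ (p + (k * l - (k * l - x)) / k) := hlow
    rw [sub_self, zero_div, add_zero, sub_sub_cancel] at hlow2
    have hxN : x / (2 * N) ≤ θ p / N := by
      rw [div_le_div_iff₀ (by linarith) hN0]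
      nlinarith
    have hxN2 : (2 * θ p - x) / (2 * N) ≤ θ p / N := by
      rw [div_le_div_iff₀ (by linarith) hN0]
      nlinarith
    rw [abs_le]
    constructor <;> linarith
  · rw [← hx0, zero_div, add_zero, sub_self, abs_zero]
    positivity

end Pool.Agent.Helper606.CA
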