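import Pool.Agent.Helper606.CA2.Defs
import Pool.Agent.Helper606.CA.P_psi_mono
import Pool.Agent.Helper606.CA2.P_angle_strict
import Pool.Agent.Helper606.CA2.P_orbit_pkg

set_option autoImplicit false

namespace Pool.Agent.Helper606.CA
open Complex Set


theorem transit {κ g : ℝ → ℝ} {P : ℝ} {C : Set ℂ} {θ : ℝ → ℝ} (hκ : Closed κ P)
    (hd : ∀ s, HasDerivAt κ (g s) s) (hg : Continuous g)
    (h : IsAngle κ C θ) {s0 q η D : ℝ} (hsq : s0 < q) (hη : 0 ≤ η)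
    (hD : q + 8 * θ s0 - s0 ≤ D) (hsm : η * D ≤ 1/200) (hθ : θ s0 ≤ 1/8)
    (hgη : ∀ u ∈ Icc s0 (q + 8 * θ s0), |g u| ≤ η)
    (hκ2 : ∀ u ∈ Icc s0 (q + 8 * θ s0), 1 ≤ κ u ∧ κ u ≤ 2) : θ q ≤ 4 * θ s0 := by
  obtain ⟨x, m, hx0, hnext, hm1, hm2, hm3, hth⟩ :=
    orbit_pkg hκ hd hg h hsq hη hD (hsm.trans (by norm_num)) hθ hgη hκ2
  have hn := (hnext m).2
  have ha := hth m (by omega)
  have hb := hth (m + 1) le_rfl
  have hpos := h.pos s0
  have hmono := psi_mono hκ.cont hκ.pos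
  have h1 : psi κ (x m) ≤ psi κ q := hmono.monotone hm1.le
  have h2 : psi κ q + θ q ≤ psi κ (x (m + 1)) + θ (x (m + 1)) := by
    rcases eq_or_lt_of_le hm2 with heq | hlt
    · rw [← heq]
    · exact (angle_strict hκ.cont hκ.pos h hlt).1.le
  have h3 : 20 * (η * D) * θ s0 ≤ (1/10) * θ s0 := by
    apply mul_le_mul_of_nonneg_right _ hpos.le
    linarith
  have ha' := (abs_le.1 ha).2
  have hb' := (abs_le.1 hb).2
  linarith

end Pool.Agent.Helper606.CA
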