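import Pool.Agent.Helper606.CA2.Defs
import Pool.Agent.Helper606.CA2.P_next_mono
import Pool.Agent.Helper606.CA2.P_next_arc
import Pool.Agent.Helper606.CA2.P_orbit_pkg
import Pool.Agent.Helper606.CA2.P_transit
import Pool.Agent.Helper606.CA2.P_left_up
import Pool.Agent.Helper606.CA2.P_right_up
import Pool.Agent.Helper606.CA2.P_orbit_int
import Pool.Agent.Helper606.CA2.P_J_close

set_option autoImplicit false

namespace Pool.Agent.Helper606.CA
open Complex Set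


theorem cluster_Psi_gz {κ g : ℝ → ℝ} (hd : ∀ s, HasDerivAt κ (g s) s) (hg : Continuous g)
    {a b c : ℝ} (hab : a < b) (h : ∀ u ∈ Icc a b, κ u = c) : ∀ u ∈ Icc a b, g u = 0 := by
  have h1 : ∀ u ∈ Ioo a b, g u = 0 := by
    intro u hu
    have h2 : HasDerivAt κ 0 u := by
      refine (hasDerivAt_const u c).congr_of_eventuallyEq ?_
      filter_upwards [Ioo_mem_nhds hu.1 hu.2] with v hv
      exact h v ⟨hv.1.le, hv.2.le⟩
    exact (hd u).unique h2
  have h3 : closure (Ioo a b) ⊆ {u | g u = 0} :=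
    closure_minimal (fun u hu => h1 u hu) (isClosed_eq hg continuous_const)
  intro u hu
  rw [closure_Ioo hab.ne] at h3
  exact h3 hu

theorem cluster_Psi_num {η Λ t r : ℝ} (hη : 0 ≤ η) (hΛ : 0 ≤ Λ) (ht : 0 ≤ t) (hr : 0 ≤ r)
    (htΛ : t ≤ Λ) :
    4 * (η * (12 * Λ) * (t ^ 4 + 4 * t ^ 2 * (η * Λ) + 2 * t * ((η * Λ) * (12 * Λ) +
      4 * (250 * (η * Λ) + r) * (12 * Λ) + 3 * (250 * (η * Λ) + r) * t)) +
      2 * r * (4 * t) ^ 2 + 2 * r * t ^ 2) ≤
    200 * t ^ 2 * r + 100 * η * Λ * t ^ 4 + 2000000 * η * Λ * t * (Λ * (Λ * η + r)) := by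
  have ha : 0 ≤ η * Λ := mul_nonneg hη hΛ
  have h1 : t * (η * Λ) ≤ Λ * (η * Λ) := mul_le_mul_of_nonneg_right htΛ ha
  have h2 : t * r ≤ Λ * r := mul_le_mul_of_nonneg_right htΛ hr
  have h3 : 0 ≤ Λ * (η * Λ) := mul_nonneg hΛ ha
  have h4 : 0 ≤ Λ * r := mul_nonneg hΛ hr
  have hb : 0 ≤ 2000000 * Λ * (η * Λ + r) - 192 * (t * (η * Λ)) -
      96 * (12 * (η * Λ) * Λ + 48 * Λ * (250 * (η * Λ) + r) + 3 * t * (250 * (η * Λ) + r)) := by
    nlinarith
  have h5 : 0 ≤ η * Λ * t * (2000000 * Λ * (η * Λ + r) - 192 * (t * (η * Λ)) -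
      96 * (12 * (η * Λ) * Λ + 48 * Λ * (250 * (η * Λ) + r) + 3 * t * (250 * (η * Λ) + r))) :=
    mul_nonneg (mul_nonneg ha ht) hb
  have h6 : 0 ≤ t ^ 2 * r := by positivity
  have h7 : 0 ≤ η * Λ * t ^ 4 := by positivity
  nlinarith [h5, h6, h7]

set_option maxHeartbeats 4000000 in
theorem cluster_Psi {κ g : ℝ → ℝ} {P : ℝ} {C : Set ℂ} {θ : ℝ → ℝ} (hκ : Closed κ P)
    (hd : ∀ s, HasDerivAt κ (g s) s) (hg : Continuous g) (h : IsAngle κ C θ)
    {p Λ lL lR η t : ℝ} {N : ℕ} (hΛ : 0 < Λ) (hlL : 0 < lL) (hlR : 0 < lR) (hη : 0 < η)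
    (hη1 : η ≤ 1) (hN : 100 ≤ N) (htp : θ p = t) (htΛ : t ≤ Λ)
    (hLs : lL ≤ 1) (hRs : lR ≤ 1)
    (hL : ∀ u ∈ Icc (p - lL) p, κ u = κ p) (hR : ∀ u ∈ Icc (p + Λ) (p + Λ + lR), κ u = κ (p + Λ))
    (hκ12 : ∀ u ∈ Icc (p - lL) (p + Λ + lR), 1 ≤ κ u ∧ κ u ≤ 2)
    (hgη : ∀ u ∈ Icc (p - lL) (p + Λ + lR), |g u| ≤ η)
    (hAL : 2 * (N + 1) * t ≤ lL) (hAR : 8 * (N + 1) * t ≤ lR)
    (hsm : Λ * (20 * Λ * η + 1 / N) ≤ t / 10000) :
    ∀ s0, p - 2 * t / κ p < s0 → s0 ≤ p →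
      |(κ p) ^ 2 * (JJ κ θ (p + Λ) - JJ κ θ p) +
          ∫ u in p..(p + Λ), bb t (κ p * (u - s0) - t) * g u| ≤
        200 * t ^ 2 / N + 100 * η * Λ * t ^ 4 +
          2000000 * η * Λ * t * (Λ * (Λ * η + 1 / N)) := by
  intro s0 hs0 hs0p
  have ht : 0 < t := htp ▸ h.pos p
  have hc := hκ.cont
  have hp := hκ.pos
  have hN' : (100 : ℝ) ≤ N := by exact_mod_cast hN
  have hNpos : (0 : ℝ) < N := by linarith
  have hr0 : (0 : ℝ) < 1 / (N : ℝ) := by positivity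
  have hr1 : 1 / (N : ℝ) ≤ 1 / 100 := one_div_le_one_div_of_le (by norm_num) hN'
  have hNt : 100 * t ≤ N * t := mul_le_mul_of_nonneg_right hN' ht.le
  have h1202 : t ≤ 1 / 202 := by linarith
  have hk12 := hκ12 p ⟨by linarith, by linarith⟩
  have hq12 := hκ12 (p + Λ) ⟨by linarith, by linarith⟩
  set k : ℝ := κ p with hkdef
  have hkpos : 0 < k := by linarith [hk12.1]
  -- basic consequences of hsm
  have hsm1 : 20 * Λ * η + 1 / N ≤ 1 / 10000 := by
    have h1 : Λ * (20 * Λ * η + 1 / N) ≤ Λ * (1 / 10000) := by linarith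
    exact le_of_mul_le_mul_left h1 hΛ
  have ha0 : 0 ≤ η * Λ := by positivity
  have ha : η * Λ ≤ 1 / 200000 := by linarith
  have hp2t : p - s0 < 2 * t / k := by linarith
  have h2tk : 2 * t / k ≤ 2 * t := by
    rw [div_le_iff₀ hkpos]
    have := mul_le_mul_of_nonneg_left hk12.1 (by linarith : 0 ≤ 2 * t)
    linarith
  have hps : p - s0 < 2 * t := lt_of_lt_of_le hp2t h2tk
  have hlL2 : 2 * t ≤ lL := by linarith
  have hkl : k * lL ≤ 2 * 1 := mul_le_mul hk12.2 hLs hlL.le (by norm_num)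
  have hkl1 : lL ≤ k * lL := le_mul_of_one_le_left hlL.le hk12.1
  have hkx : k * (p - s0) < 2 * t := by
    rw [lt_div_iff₀ hkpos] at hp2t
    linarith
  -- theta at s0
  have hθ0 : |θ s0 - t| ≤ t / N := by
    have h1 := left_up (N := N) hc hp h (k := k) (p := p) (l := lL) (x := k * (p - s0)) hkpos
      hlL.le (by omega) hL (by linarith [Real.pi_gt_three])
      (mul_nonneg hkpos.le (by linarith)) (by rw [htp]; exact hkx)
      (by rw [htp]; linarith)
    have h2 : p - k * (p - s0) / k = s0 := by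
      rw [mul_div_cancel_left₀ _ hkpos.ne']; ring
    rw [h2, htp] at h1
    exact h1
  have htN : t / N = t * (1 / N) := by ring
  have hθ0' := abs_le.1 hθ0
  have htN1 : t / N ≤ t * (1 / 100) := by rw [htN]; exact mul_le_mul_of_nonneg_left hr1 ht.le
  have hθ0u : θ s0 ≤ 101 / 100 * t := by linarith [hθ0'.2]
  have hθ0l : 0 < θ s0 := h.pos s0
  have h8lR : 8 * θ s0 ≤ lR := by linarith
  have hsubl : p - lL ≤ s0 := by linarith
  -- the orbit
  obtain ⟨x, m, hx0, hxN, hxm, hxq, hxu, hxθ⟩ := orbit_pkg hκ hd hg h (s0 := s0) (q := p + Λ)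
    (η := η) (D := 12 * Λ) (by linarith) hη.le (by linarith) (by linarith) (by linarith)
    (fun u hu => hgη u ⟨by linarith [hu.1], by linarith [hu.2]⟩)
    (fun u hu => hκ12 u ⟨by linarith [hu.1], by linarith [hu.2]⟩)
  have h8t : 8 * t ≤ lR := by linarith
  have hθq : θ (p + Λ) ≤ 4 * t := by
    have h1 := transit hκ hd hg h (s0 := p) (q := p + Λ) (η := η) (D := 12 * Λ) (by linarith)
      hη.le (by rw [htp]; linarith) (by linarith) (by rw [htp]; linarith)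
      (fun u hu => hgη u ⟨by linarith [hu.1], by
        have := hu.2; rw [htp] at this; linarith⟩)
      (fun u hu => hκ12 u ⟨by linarith [hu.1], by
        have := hu.2; rw [htp] at this; linarith⟩)
    rw [htp] at h1
    exact h1
  have hθqpos : 0 < θ (p + Λ) := h.pos _
  set k' : ℝ := κ (p + Λ) with hk'def
  have hk'pos : 0 < k' := by linarith [hq12.1]
  have h2k' : 2 * θ (p + Λ) / k' ≤ 2 * θ (p + Λ) := by
    rw [div_le_iff₀ hk'pos]
    have := mul_le_mul_of_nonneg_left hq12.1 (by linarith : 0 ≤ 2 * θ (p + Λ))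
    linarith
  have hkr : k' * lR ≤ 2 * 1 := mul_le_mul hq12.2 hRs hlR.le (by norm_num)
  have hkr1 : lR ≤ k' * lR := le_mul_of_one_le_left hlR.le hq12.1
  have hnext := next_arc hc hp h (k := k') (s := p + Λ) hk'pos
    (fun u hu => hR u ⟨hu.1, by linarith [hu.2]⟩)
  have hxm1 : x (m + 1) < p + Λ + 2 * θ (p + Λ) / k' := next_mono hc hp h (hxN m) hnext.1 hxm
  have hyk : k' * (x (m + 1) - (p + Λ)) < 2 * θ (p + Λ) := by
    have h1 : x (m + 1) - (p + Λ) < 2 * θ (p + Λ) / k' := by linarith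
    rw [lt_div_iff₀ hk'pos] at h1
    linarith
  have hθX : |θ (x (m + 1)) - θ (p + Λ)| ≤ θ (p + Λ) / N := by
    have h1 := right_up (N := N) hc hp h (k := k') (p := p + Λ) (l := lR)
      (x := k' * (x (m + 1) - (p + Λ))) hk'pos hlR.le (by omega) hR
      (by linarith [Real.pi_gt_three]) (mul_nonneg hk'pos.le (by linarith)) hyk
      (by
        have h3 : 2 * ((N : ℝ) + 1) * θ (p + Λ) ≤ 2 * (N + 1) * (4 * t) :=
          mul_le_mul_of_nonneg_left hθq (by positivity)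
        linarith)
    have h2 : p + Λ + k' * (x (m + 1) - (p + Λ)) / k' = x (m + 1) := by
      rw [mul_div_cancel_left₀ _ hk'pos.ne']; ring
    rw [h2] at h1
    exact h1
  have hXR : x (m + 1) ≤ p + Λ + lR := by linarith
  -- J at the two ends
  have hJ1 : |JJ κ θ (x (m + 1)) - JJ κ θ (p + Λ)| ≤ 2 * (1 / N) * θ (p + Λ) ^ 2 :=
    J_close (a := x (m + 1)) (b := p + Λ) (μ := 1 / N)
      ((hR _ ⟨hxq, hXR⟩).trans hk'def) (by rw [hR _ ⟨hxq, hXR⟩]; exact hq12.1) hθqpos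
      (by linarith) hr0.le (by linarith) rfl (by rw [one_div_mul_eq_div]; exact hθX)
  have hκs0 : κ s0 = k := hL s0 ⟨hsubl, hs0p⟩
  have hJ2 : |JJ κ θ s0 - JJ κ θ p| ≤ 2 * (1 / N) * t ^ 2 :=
    J_close (a := s0) (b := p) (μ := 1 / N) hκs0 (by rw [hκs0]; exact hk12.1) ht
      (by linarith) hr0.le (by linarith) htp (by rw [htp, one_div_mul_eq_div]; exact hθ0)
  -- kappa is close to k
  have hmv : ∀ u ∈ Icc p (p + Λ), |κ u - k| ≤ η * Λ := by
    intro u hu
    have h1 := Convex.norm_image_sub_le_of_norm_hasDerivWithin_le (f := κ) (f' := g) (C := η)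
      (s := Icc p (p + Λ)) (x := p) (y := u) (fun v _ => (hd v).hasDerivWithinAt)
      (fun v hv => by
        rw [Real.norm_eq_abs]
        exact hgη v ⟨by linarith [hv.1], by linarith [hv.2]⟩)
      (convex_Icc _ _) ⟨le_rfl, by linarith⟩ hu
    rw [Real.norm_eq_abs, Real.norm_eq_abs, abs_of_nonneg (by linarith [hu.1] : 0 ≤ u - p)] at h1
    exact h1.trans (mul_le_mul_of_nonneg_left (by linarith [hu.2]) hη.le)
  have hκk : ∀ u ∈ Icc s0 (x (m + 1)), |κ u - k| ≤ η * Λ := by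
    intro u hu
    rcases le_total u p with h1 | h1
    · rw [hL u ⟨by linarith [hu.1], h1⟩, sub_self, abs_zero]
      exact ha0
    · rcases le_total u (p + Λ) with h2 | h2
      · exact hmv u ⟨h1, h2⟩
      · rw [hR u ⟨h2, by linarith [hu.2]⟩]
        exact hmv (p + Λ) ⟨by linarith, le_rfl⟩
  -- the orbit estimate
  have hε : ∀ i ≤ m + 1, |θ (x i) - t| ≤ (250 * (η * Λ) + 1 / N) * t := by
    intro i hi
    have h1 := hxθ i hi
    have h2 : |θ (x i) - t| ≤ |θ (x i) - θ s0| + |θ s0 - t| := abs_sub_le _ _ _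
    have h3 : 20 * (η * (12 * Λ)) * θ s0 ≤ 250 * (η * Λ) * t := by
      have h4 : η * Λ * θ s0 ≤ η * Λ * (101 / 100 * t) := mul_le_mul_of_nonneg_left hθ0u ha0
      have h5 : 0 ≤ η * Λ * t := mul_nonneg ha0 ht.le
      linarith
    calc |θ (x i) - t| ≤ _ := h2
      _ ≤ 20 * (η * (12 * Λ)) * θ s0 + t / N := add_le_add h1 hθ0
      _ ≤ 250 * (η * Λ) * t + t * (1 / N) := by rw [← htN]; linarith
      _ = _ := by ring
  have hsmall : (η * Λ) * (12 * Λ) + 4 * (250 * (η * Λ) + 1 / N) * (12 * Λ) +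
      (250 * (η * Λ) + 1 / N) * t ≤ t / 10 := by
    have e1 : 20 * (Λ * (η * Λ)) + Λ * (1 / N) ≤ t / 10000 := by
      calc 20 * (Λ * (η * Λ)) + Λ * (1 / N) = Λ * (20 * Λ * η + 1 / N) := by ring
        _ ≤ _ := hsm
    have e2 : 0 ≤ Λ * (1 / (N : ℝ)) := by positivity
    have e3 : 0 ≤ Λ * (η * Λ) := by positivity
    have e4 : (250 * (η * Λ) + 1 / N) * t ≤ (1 / 700) * t := by
      refine mul_le_mul_of_nonneg_right ?_ ht.le
      have : 1 / (N : ℝ) ≤ 1 / 10000 := by linarith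
      linarith
    linarith
  have horb := orbit_int hp hd hg h hxN (m := m) (η := η) (t := t) (k := k)
    (ε := 250 * (η * Λ) + 1 / N) (δ := η * Λ) (D := 12 * Λ) hη.le ht (by linarith) hk12
    (by positivity) (by linarith) ha0 hε (by rw [hx0]; linarith)
    (fun u hu => by
      rw [hx0] at hu
      exact hgη u ⟨by linarith [hu.1], by linarith [hu.2]⟩)
    (fun u hu => by
      rw [hx0] at hu
      have h1 := hκ12 u ⟨by linarith [hu.1], by linarith [hu.2]⟩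
      exact ⟨h1.1, h1.2, hκk u hu⟩) hsmall
  rw [hx0] at horb
  -- the integral
  have hgL := cluster_Psi_gz hd hg (a := p - lL) (b := p) (by linarith) hL
  have hgR := cluster_Psi_gz hd hg (a := p + Λ) (b := p + Λ + lR) (by linarith) hR
  have hint : ∫ u in s0..(x (m + 1)), bb t (k * (u - s0) - t) * g u =
      ∫ u in p..(p + Λ), bb t (k * (u - s0) - t) * g u := by
    rw [intervalIntegral.integral_of_le (by linarith), intervalIntegral.integral_of_le (by linarith)]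
    refine MeasureTheory.setIntegral_eq_of_subset_of_forall_diff_eq_zero measurableSet_Ioc ?_ ?_
    · intro u hu
      exact ⟨by linarith [hu.1], by linarith [hu.2]⟩
    · intro u hu
      have h1 : g u = 0 := by
        rcases le_or_gt u p with h2 | h2
        · exact hgL u ⟨by linarith [hu.1.1], h2⟩
        · have h3 : p + Λ < u := by
            by_contra h4
            exact hu.2 ⟨h2, not_lt.1 h4⟩
          exact hgR u ⟨h3.le, by linarith [hu.1.2]⟩
      rw [h1, mul_zero]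
  rw [hint] at horb
  set In : ℝ := ∫ u in p..(p + Λ), bb t (k * (u - s0) - t) * g u with hIn
  have hk2 : k ^ 2 ≤ 4 := by
    have := pow_le_pow_left₀ hkpos.le hk12.2 2
    linarith
  have hkk : k ^ 2 * (1 / k ^ 2 * In) = In := by
    field_simp
  have hdec : k ^ 2 * (JJ κ θ (p + Λ) - JJ κ θ p) + In =
      k ^ 2 * ((JJ κ θ (x (m + 1)) - JJ κ θ s0) + 1 / k ^ 2 * In) +
      k ^ 2 * (-(JJ κ θ (x (m + 1)) - JJ κ θ (p + Λ))) + k ^ 2 * (JJ κ θ s0 - JJ κ θ p) := by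
    rw [mul_add (k ^ 2) (JJ κ θ (x (m + 1)) - JJ κ θ s0), hkk]
    ring
  have hJ1' : |JJ κ θ (x (m + 1)) - JJ κ θ (p + Λ)| ≤ 2 * (1 / N) * (4 * t) ^ 2 := by
    refine hJ1.trans (mul_le_mul_of_nonneg_left ?_ (by positivity))
    exact pow_le_pow_left₀ hθqpos.le hθq 2
  have hk20 : 0 ≤ k ^ 2 := by positivity
  have hsum : |k ^ 2 * (JJ κ θ (p + Λ) - JJ κ θ p) + In| ≤
      k ^ 2 * (η * (12 * Λ) * (t ^ 4 + 4 * t ^ 2 * (η * Λ) + 2 * t * ((η * Λ) * (12 * Λ) +
      4 * (250 * (η * Λ) + 1 / N) * (12 * Λ) + 3 * (250 * (η * Λ) + 1 / N) * t)) +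
      2 * (1 / N) * (4 * t) ^ 2 + 2 * (1 / N) * t ^ 2) := by
    rw [hdec]
    refine (abs_add_le _ _).trans ?_
    refine (add_le_add_left (abs_add_le _ _) _).trans ?_
    rw [abs_mul, abs_mul, abs_mul, abs_of_nonneg hk20, abs_neg, ← mul_add, ← mul_add]
    exact mul_le_mul_of_nonneg_left (add_le_add (add_le_add horb hJ1') hJ2) hk20
  refine hsum.trans ?_
  have hnum := cluster_Psi_num (η := η) (Λ := Λ) (t := t) (r := 1 / N) hη.le hΛ.le ht.le hr0.le htΛ
  refine (mul_le_mul_of_nonneg_right hk2 (by positivity)).trans (hnum.trans (le_of_eq ?_))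
  ring

end Pool.Agent.Helper606.CA
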