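import Pool.Agent.Helper606.CA2.Defs
import Pool.Agent.Helper606.CA2.P_GG_ft

set_option autoImplicit false

namespace Pool.Agent.Helper606.CA
open Complex Set


theorem cluster_ft (n : ℕ) {p w η k t : ℝ} (hw : 0 < w) (hη : 0 < η) (hk : 0 < k) (ht : 0 < t)
    (hkw : k * w ≤ t) :
    η * w * ((1/4) * (3/2:ℝ)^n) ≤
      ‖∫ u in p..(p + 5^n * w), ((η * GG n ((u - p) / w) : ℝ) : ℂ) *
        exp ((Real.pi * k * u / t : ℝ) * I)‖ := by
  have hω0 : 0 < Real.pi * k * w / t := by positivity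
  have hω1 : Real.pi * k * w / t ≤ Real.pi := by
    rw [div_le_iff₀ ht, mul_assoc]
    exact mul_le_mul_of_nonneg_left hkw Real.pi_pos.le
  have h1 := GG_ft n hω0 hω1
  have h2 : ∫ u in p..(p + 5^n * w), ((η * GG n ((u - p) / w) : ℝ) : ℂ) *
        exp ((Real.pi * k * u / t : ℝ) * I) =
      w • ∫ x in (0:ℝ)..((5:ℝ)^n), ((η * GG n ((p + w * x - p) / w) : ℝ) : ℂ) *
        exp ((Real.pi * k * (p + w * x) / t : ℝ) * I) := by
    have h3 := intervalIntegral.smul_integral_comp_add_mul (a := (0:ℝ)) (b := (5:ℝ)^n)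
      (fun u : ℝ => ((η * GG n ((u - p) / w) : ℝ) : ℂ) * exp ((Real.pi * k * u / t : ℝ) * I)) w p
    rw [h3]
    congr 1
    · ring
    · ring
  have h4 : ∀ x : ℝ, ((η * GG n ((p + w * x - p) / w) : ℝ) : ℂ) *
        exp ((Real.pi * k * (p + w * x) / t : ℝ) * I) =
      ((η : ℂ) * exp ((Real.pi * k * p / t : ℝ) * I)) * ((GG n x : ℂ) * exp ((Real.pi * k * w / t * x : ℝ) * I)) := by
    intro x
    have e1 : (p + w * x - p) / w = x := by
      field_simp
      ring
    have e2 : ((Real.pi * k * (p + w * x) / t : ℝ) : ℂ) * I =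
        ((Real.pi * k * p / t : ℝ) : ℂ) * I + ((Real.pi * k * w / t * x : ℝ) : ℂ) * I := by
      rw [← add_mul, ← Complex.ofReal_add]
      congr 2
      ring
    rw [e1, e2, Complex.exp_add]
    push_cast
    ring
  rw [h2]
  simp_rw [h4]
  rw [intervalIntegral.integral_const_mul, norm_smul, norm_mul, norm_mul, Complex.norm_exp_ofReal_mul_I,
    mul_one, Real.norm_of_nonneg hw.le, Complex.norm_of_nonneg hη.le]
  calc η * w * ((1/4) * (3/2:ℝ)^n) ≤ η * w * ‖∫ x in (0:ℝ)..((5:ℝ)^n), (GG n x : ℂ) * exp ((Real.pi * k * w / t * x : ℝ) * I)‖ :=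
        mul_le_mul_of_nonneg_left h1 (by positivity)
    _ = _ := by ring

end Pool.Agent.Helper606.CA
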