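import Pool.Agent.Helper606.CA2.Defs
import Pool.Agent.Helper606.CA2.P_bb_cont
import Pool.Agent.Helper606.CA2.P_bb_facts

set_option autoImplicit false

namespace Pool.Agent.Helper606.CA
open Complex Set


noncomputable def e790 (k t s : ℝ) : ℂ := exp ((Real.pi * k * s / t : ℝ) * I)

theorem e790_add (k t a b : ℝ) : e790 k t (a + b) = e790 k t a * e790 k t b := by
  unfold e790
  rw [← Complex.exp_add]
  congr 1
  push_cast
  ring

theorem e790_norm (k t s : ℝ) : ‖e790 k t s‖ = 1 := Complex.norm_exp_ofReal_mul_I _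

theorem e790_per {k t : ℝ} (hk : 0 < k) (ht : 0 < t) : e790 k t (2 * t / k) = 1 := by
  unfold e790
  have h : (Real.pi * k * (2 * t / k) / t : ℝ) = 2 * Real.pi := by field_simp
  rw [h]
  push_cast
  exact Complex.exp_two_pi_mul_I

theorem e790_per' {k t : ℝ} (hk : 0 < k) (ht : 0 < t) : e790 k t (-(2 * t / k)) = 1 := by
  have h := e790_add k t (2 * t / k) (-(2 * t / k))
  rw [add_neg_cancel, e790_per hk ht, one_mul] at h
  rw [← h]
  simp [e790]

theorem e790_cont (k t : ℝ) : Continuous (e790 k t) := by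
  unfold e790
  fun_prop

theorem K790 {k t : ℝ} (hk : 0 < k) (ht : 0 < t) :
    ∫ x in (0:ℝ)..(2 * t / k), (((k * x - t) ^ 2 / 2 : ℝ) : ℂ) * e790 k t (-x) =
      ((2 * t ^ 3 / (Real.pi ^ 2 * k) : ℝ) : ℂ) := by
  have hk' : (k : ℂ) ≠ 0 := by exact_mod_cast hk.ne'
  have ht' : (t : ℂ) ≠ 0 := by exact_mod_cast ht.ne'
  have hpi : (Real.pi : ℂ) ≠ 0 := by exact_mod_cast Real.pi_ne_zero
  obtain ⟨α, hα⟩ : ∃ α : ℂ, α = -((Real.pi : ℂ) * k / t) * I := ⟨_, rfl⟩
  have hα0 : α ≠ 0 := by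
    rw [hα]
    exact mul_ne_zero (neg_ne_zero.2 (div_ne_zero (mul_ne_zero hpi hk') ht')) I_ne_zero
  have hα2 : α ^ 2 = -((Real.pi : ℂ) * k / t) ^ 2 := by
    rw [hα, mul_pow, I_sq]
    ring
  have he : ∀ x : ℝ, e790 k t (-x) = exp (α * x) := by
    intro x
    unfold e790
    congr 1
    rw [hα]
    push_cast
    ring
  have hder : ∀ x : ℝ, HasDerivAt (fun x : ℝ => exp (α * (x:ℂ)) *
      (((k:ℂ) * x - t) ^ 2 / (2 * α) - k * (k * x - t) / α ^ 2 + k ^ 2 / α ^ 3))
      ((((k * x - t) ^ 2 / 2 : ℝ) : ℂ) * e790 k t (-x)) x := by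
    intro x
    have h1 : HasDerivAt (fun z : ℂ => exp (α * z)) (exp (α * (x:ℂ)) * α) (x:ℂ) := by
      have := ((hasDerivAt_id (x:ℂ)).const_mul α).cexp
      simpa using this
    have h0 : HasDerivAt (fun z : ℂ => (k:ℂ) * z - t) (k:ℂ) (x:ℂ) := by
      have := ((hasDerivAt_id (x:ℂ)).const_mul (k:ℂ)).sub_const (t:ℂ)
      simpa using this
    have h2 : HasDerivAt (fun z : ℂ => ((k:ℂ) * z - t) ^ 2 / (2 * α) - k * (k * z - t) / α ^ 2 +
        k ^ 2 / α ^ 3) (2 * (k * x - t) * k / (2 * α) - k * k / α ^ 2) (x:ℂ) := by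
      have := (((h0.pow 2).div_const (2 * α)).sub
        ((h0.const_mul (k:ℂ)).div_const (α ^ 2))).add_const ((k:ℂ) ^ 2 / α ^ 3)
      refine this.congr_deriv ?_
      simp
    have h3 := (h1.mul h2).comp_ofReal
    refine h3.congr_deriv ?_
    rw [he]
    push_cast
    field_simp
    ring
  rw [intervalIntegral.integral_eq_sub_of_hasDerivAt (fun x _ => hder x)
    (by
      apply Continuous.intervalIntegrable
      have := (e790_cont k t).comp continuous_neg
      exact (by fun_prop : Continuous fun x : ℝ => (((k * x - t) ^ 2 / 2 : ℝ) : ℂ)).mul this)]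
  have e1 : exp (α * ((2 * t / k : ℝ) : ℂ)) = 1 := by rw [← he, e790_per' hk ht]
  have e2 : (k : ℂ) * ((2 * t / k : ℝ) : ℂ) - t = t := by
    push_cast
    field_simp
    ring
  rw [e1, e2]
  have h3 : (1 : ℂ) * ((t:ℂ) ^ 2 / (2 * α) - k * t / α ^ 2 + k ^ 2 / α ^ 3) -
      exp (α * ((0:ℝ):ℂ)) * (((k:ℂ) * ((0:ℝ):ℂ) - t) ^ 2 / (2 * α) -
        k * (k * ((0:ℝ):ℂ) - t) / α ^ 2 + k ^ 2 / α ^ 3) = -(2 * k * t) / α ^ 2 := by
    simp only [Complex.ofReal_zero, mul_zero, Complex.exp_zero]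
    ring
  rw [h3, hα2]
  push_cast
  field_simp

theorem J790 {k t : ℝ} (hk : 0 < k) (ht : 0 < t) (a u : ℝ) :
    ∫ s in a..(a + 2 * t / k), ((bb t (k * (u - s) - t) : ℝ) : ℂ) * e790 k t s =
      ((2 * t ^ 3 / (Real.pi ^ 2 * k) : ℝ) : ℂ) * e790 k t u := by
  obtain ⟨hb1, hb2, hb3⟩ := bb_facts ht
  have hper : Function.Periodic
      (fun s : ℝ => ((bb t (k * (u - s) - t) : ℝ) : ℂ) * e790 k t s) (2 * t / k) := by
    intro s
    have h1 : bb t (k * (u - (s + 2 * t / k)) - t) = bb t (k * (u - s) - t) := by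
      rw [← hb2 (k * (u - (s + 2 * t / k)) - t)]
      congr 1
      field_simp
      ring
    show ((bb t (k * (u - (s + 2 * t / k)) - t) : ℝ) : ℂ) * e790 k t (s + 2 * t / k) =
      ((bb t (k * (u - s) - t) : ℝ) : ℂ) * e790 k t s
    rw [h1, e790_add, e790_per hk ht, mul_one]
  rw [hper.intervalIntegral_add_eq a (u - 2 * t / k)]
  have h2 := intervalIntegral.integral_comp_sub_left (a := 0) (b := 2 * t / k)
    (fun s : ℝ => ((bb t (k * (u - s) - t) : ℝ) : ℂ) * e790 k t s) u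
  rw [sub_zero] at h2
  rw [sub_add_cancel, ← h2]
  have h3 : ∀ x ∈ Set.uIcc (0:ℝ) (2 * t / k),
      ((bb t (k * (u - (u - x)) - t) : ℝ) : ℂ) * e790 k t (u - x) =
      e790 k t u * ((((k * x - t) ^ 2 / 2 : ℝ) : ℂ) * e790 k t (-x)) := by
    intro x hx
    rw [Set.uIcc_of_le (by positivity)] at hx
    have hx2 : k * x ≤ 2 * t := by
      have := mul_le_mul_of_nonneg_left hx.2 hk.le
      have h : k * (2 * t / k) = 2 * t := by field_simp
      linarith
    have hx1 : 0 ≤ k * x := mul_nonneg hk.le hx.1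
    rw [sub_sub_cancel, hb3 (k * x - t) (abs_le.2 ⟨by linarith, by linarith⟩),
      sub_eq_add_neg u x, e790_add]
    ring
  rw [intervalIntegral.integral_congr h3, intervalIntegral.integral_const_mul, K790 hk ht]
  ring

theorem z790 {k t : ℝ} (hk : 0 < k) (ht : 0 < t) (a : ℝ) :
    ∫ s in a..(a + 2 * t / k), e790 k t s = 0 := by
  have hk' : (k : ℂ) ≠ 0 := by exact_mod_cast hk.ne'
  have ht' : (t : ℂ) ≠ 0 := by exact_mod_cast ht.ne'
  have hpi : (Real.pi : ℂ) ≠ 0 := by exact_mod_cast Real.pi_ne_zero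
  have he : ∀ x : ℝ, e790 k t x = exp (((Real.pi : ℂ) * k / t * I) * x) := by
    intro x
    unfold e790
    congr 1
    push_cast
    ring
  have h0 : ((Real.pi : ℂ) * k / t * I) ≠ 0 :=
    mul_ne_zero (div_ne_zero (mul_ne_zero hpi hk') ht') I_ne_zero
  have h1 : ∫ s in a..(a + 2 * t / k), e790 k t s =
      ∫ s in a..(a + 2 * t / k), exp (((Real.pi : ℂ) * k / t * I) * (s : ℂ)) :=
    intervalIntegral.integral_congr fun x _ => he x
  rw [h1, integral_exp_mul_complex h0, ← he, ← he, e790_add, e790_per hk ht]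
  simp

theorem psi_fourier {g : ℝ → ℝ} (hg : Continuous g) {p q k t c E : ℝ} (hk : 0 < k) (ht : 0 < t)
    (hpq : p ≤ q)
    (hE : ∀ s0, p - 2 * t / k < s0 → s0 ≤ p →
      |c + ∫ u in p..q, bb t (k * (u - s0) - t) * g u| ≤ E) :
    ‖∫ u in p..q, (g u : ℂ) * exp ((Real.pi * k * u / t : ℝ) * I)‖ ≤ 10 * E / t ^ 2 := by
  have hT : 0 < 2 * t / k := by positivity
  have hE0 : 0 ≤ E := (abs_nonneg _).trans (hE p (by linarith) le_rfl)
  have hbc := bb_cont ht
  have hcont2 : Continuous (Function.uncurry fun (s u : ℝ) =>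
      ((bb t (k * (u - s) - t) * g u : ℝ) : ℂ) * e790 k t s) := by
    have h1 : Continuous fun x : ℝ × ℝ => bb t (k * (x.2 - x.1) - t) :=
      hbc.comp (by fun_prop)
    have h2 : Continuous fun x : ℝ × ℝ => g x.2 := hg.comp continuous_snd
    have h3 : Continuous fun x : ℝ × ℝ => e790 k t x.1 := (e790_cont k t).comp continuous_fst
    exact (Complex.continuous_ofReal.comp (h1.mul h2)).mul h3
  have hpa : p - 2 * t / k + 2 * t / k = p := by ring
  -- the integral I
  have hnorm : ‖∫ s in (p - 2 * t / k)..p,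
      ((c + ∫ u in p..q, bb t (k * (u - s) - t) * g u : ℝ) : ℂ) * e790 k t s‖ ≤
      E * |p - (p - 2 * t / k)| := by
    refine intervalIntegral.norm_integral_le_of_norm_le_const fun s hs => ?_
    rw [Set.uIoc_of_le (by linarith)] at hs
    rw [norm_mul, e790_norm, mul_one, Complex.norm_real, Real.norm_eq_abs]
    exact hE s hs.1 hs.2
  rw [show |p - (p - 2 * t / k)| = 2 * t / k by
    rw [show p - (p - 2 * t / k) = 2 * t / k by ring, abs_of_pos hT]] at hnorm
  have hI : ∫ s in (p - 2 * t / k)..p,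
      ((c + ∫ u in p..q, bb t (k * (u - s) - t) * g u : ℝ) : ℂ) * e790 k t s =
      ((2 * t ^ 3 / (Real.pi ^ 2 * k) : ℝ) : ℂ) *
        ∫ u in p..q, (g u : ℂ) * e790 k t u := by
    have h1 : ∀ s : ℝ, ((c + ∫ u in p..q, bb t (k * (u - s) - t) * g u : ℝ) : ℂ) * e790 k t s =
        (c : ℂ) * e790 k t s +
          ∫ u in p..q, ((bb t (k * (u - s) - t) * g u : ℝ) : ℂ) * e790 k t s := by
      intro s
      rw [intervalIntegral.integral_mul_const, intervalIntegral.integral_ofReal]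
      push_cast
      ring
    simp only [h1]
    have hpc : Continuous fun s : ℝ =>
        ∫ u in p..q, ((bb t (k * (u - s) - t) * g u : ℝ) : ℂ) * e790 k t s :=
      intervalIntegral.continuous_parametric_intervalIntegral_of_continuous' hcont2 p q
    have hcc : Continuous fun s : ℝ => (c : ℂ) * e790 k t s :=
      continuous_const.mul (e790_cont k t)
    rw [intervalIntegral.integral_add (hcc.intervalIntegrable _ _)
      (hpc.intervalIntegrable _ _), intervalIntegral.integral_const_mul]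
    have hz := z790 hk ht (p - 2 * t / k)
    rw [hpa] at hz
    rw [hz, mul_zero, zero_add]
    rw [MeasureTheory.intervalIntegral_intervalIntegral_swap
      ((hcont2.continuousOn.integrableOn_compact
        (isCompact_uIcc.prod isCompact_uIcc)).mono_set
        (Set.prod_mono Set.uIoc_subset_uIcc Set.uIoc_subset_uIcc))]
    rw [← intervalIntegral.integral_const_mul]
    refine intervalIntegral.integral_congr fun u _ => ?_
    have hJ := J790 hk ht (p - 2 * t / k) u
    rw [hpa] at hJ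
    have h4 : ∀ s : ℝ, ((bb t (k * (u - s) - t) * g u : ℝ) : ℂ) * e790 k t s =
        (g u : ℂ) * (((bb t (k * (u - s) - t) : ℝ) : ℂ) * e790 k t s) := by
      intro s
      push_cast
      ring
    simp only [h4]
    rw [intervalIntegral.integral_const_mul, hJ]
    ring
  rw [hI, norm_mul, Complex.norm_real, Real.norm_eq_abs, abs_of_pos (by positivity)] at hnorm
  show ‖∫ u in p..q, (g u : ℂ) * e790 k t u‖ ≤ 10 * E / t ^ 2
  obtain ⟨M, hM⟩ : ∃ M : ℝ, M = ‖∫ u in p..q, (g u : ℂ) * e790 k t u‖ := ⟨_, rfl⟩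
  rw [← hM] at hnorm ⊢
  rw [div_mul_eq_mul_div, div_le_iff₀ (by positivity)] at hnorm
  rw [le_div_iff₀ (by positivity)]
  have h5 : E * (2 * t / k) * (Real.pi ^ 2 * k) = 2 * t * E * Real.pi ^ 2 := by
    field_simp
  rw [h5] at hnorm
  have h6 : M * t ^ 2 ≤ E * Real.pi ^ 2 := by
    have h7 : 2 * t * (M * t ^ 2) ≤ 2 * t * (E * Real.pi ^ 2) := by nlinarith
    exact le_of_mul_le_mul_left h7 (by positivity)
  have h8 : Real.pi ^ 2 ≤ 10 := by
    have := Real.pi_lt_d2
    have h9 := Real.pi_pos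
    nlinarith
  nlinarith

end Pool.Agent.Helper606.CA
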