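import Pool.Agent.Helper606.CA2.Defs
import Pool.Agent.Helper606.CA2.P_cluster_Psi
import Pool.Agent.Helper606.CA2.P_psi_fourier
import Pool.Agent.Helper606.CA2.P_cluster_ft

set_option autoImplicit false

namespace Pool.Agent.Helper606.CA
open Complex Set


theorem cluster_kill {κ g : ℝ → ℝ} {P : ℝ} {C : Set ℂ} {θ : ℝ → ℝ} (hκ : Closed κ P)
    (hd : ∀ s, HasDerivAt κ (g s) s) (hg : Continuous g) (h : IsAngle κ C θ)
    {p w lL lR η t : ℝ} {N n : ℕ} (hw : 0 < w) (hlL : 0 < lL) (hlR : 0 < lR) (hη : 0 < η)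
    (hη1 : η ≤ 1) (hN : 100 ≤ N) (htp : θ p = t) (htΛ : t ≤ 5^n * w)
    (hLs : lL ≤ 1) (hRs : lR ≤ 1)
    (hL : ∀ u ∈ Icc (p - lL) p, κ u = κ p)
    (hR : ∀ u ∈ Icc (p + 5^n * w) (p + 5^n * w + lR), κ u = κ (p + 5^n * w))
    (hκ12 : ∀ u ∈ Icc (p - lL) (p + 5^n * w + lR), 1 ≤ κ u ∧ κ u ≤ 2)
    (hgη : ∀ u ∈ Icc (p - lL) (p + 5^n * w + lR), |g u| ≤ η)
    (hgG : ∀ u ∈ Icc p (p + 5^n * w), g u = η * GG n ((u - p) / w))
    (hAL : 2 * (N + 1) * t ≤ lL) (hAR : 8 * (N + 1) * t ≤ lR)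
    (hsm : (5^n * w) * (20 * (5^n * w) * η + 1 / N) ≤ t / 10000)
    (hwt : 2 * w ≤ t)
    (hkill : 10 * (200 / N + 100 * η * (5^n * w) * t ^ 2 +
        2000000 * η * (5^n * w) * ((5^n * w) * ((5^n * w) * η + 1 / N)) / t) <
      η * w * ((1/4) * (3/2:ℝ)^n)) : False := by
  have ht : 0 < t := htp ▸ h.pos p
  have hΛ : 0 < (5:ℝ)^n * w := by positivity
  have hp12 : 1 ≤ κ p ∧ κ p ≤ 2 := hκ12 p ⟨by linarith, by linarith⟩
  have hk : 0 < κ p := by linarith [hp12.1]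
  have hP := cluster_Psi hκ hd hg h hΛ hlL hlR hη hη1 hN htp htΛ hLs hRs hL hR hκ12 hgη hAL hAR hsm
  have hF := psi_fourier hg (p := p) (q := p + 5^n * w) (k := κ p) (t := t)
    (c := (κ p) ^ 2 * (JJ κ θ (p + 5^n * w) - JJ κ θ p)) hk ht (by linarith) hP
  have hft := cluster_ft n (p := p) (w := w) (η := η) (k := κ p) (t := t) hw hη hk ht
    (by nlinarith [hp12.2])
  have hint : ∫ u in p..(p + 5^n * w), (g u : ℂ) * exp ((Real.pi * κ p * u / t : ℝ) * I) =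
      ∫ u in p..(p + 5^n * w), ((η * GG n ((u - p) / w) : ℝ) : ℂ) *
        exp ((Real.pi * κ p * u / t : ℝ) * I) := by
    apply intervalIntegral.integral_congr
    intro u hu
    rw [uIcc_of_le (by linarith)] at hu
    show (g u : ℂ) * _ = _
    rw [hgG u hu]
  rw [hint] at hF
  have hle := hft.trans hF
  have hN0 : (0:ℝ) < N := by exact_mod_cast (by omega : 0 < N)
  have e : 10 * (200 * t ^ 2 / N + 100 * η * (5^n * w) * t ^ 4 +
      2000000 * η * (5^n * w) * t * ((5^n * w) * ((5^n * w) * η + 1 / N))) / t ^ 2 =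
      10 * (200 / N + 100 * η * (5^n * w) * t ^ 2 +
        2000000 * η * (5^n * w) * ((5^n * w) * ((5^n * w) * η + 1 / N)) / t) := by
    field_simp
  rw [e] at hle
  exact absurd hle (not_le.mpr hkill)

end Pool.Agent.Helper606.CA
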