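import Pool.Agent.Helper606.CA2.Defs
import Pool.Agent.Helper606.CA2.P_f2_deriv
import Pool.Agent.Helper606.CA2.P_h2_bounds
import Pool.Agent.Helper606.CA2.P_kap2_eq

set_option autoImplicit false

namespace Pool.Agent.Helper606.CA
open Complex Set


theorem kap2_hd {s : ℝ} (h1 : 0 < s) (h2' : s < h2) : HasDerivAt kap2 (gg s) s := by
  refine (f2_deriv s).congr_of_eventuallyEq ?_
  filter_upwards [Ioo_mem_nhds h1 h2'] with u hu
  rw [kap2_eq (by rw [abs_of_pos hu.1]; exact hu.2.le), abs_of_pos hu.1]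

end Pool.Agent.Helper606.CA
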