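import Pool.Agent.Helper606.CA2.Defs
import Pool.Agent.Helper606.CA2.P_f2_top
import Pool.Agent.Helper606.CA2.P_h2_bounds
import Pool.Agent.Helper606.CA2.P_kap2_eq
import Pool.Agent.Helper606.CA2.P_kap2_per

set_option autoImplicit false

namespace Pool.Agent.Helper606.CA
open Complex Set


theorem kap2_top {s : ℝ} (h1 : 3/2 ≤ s) (h2' : s ≤ 2 * h2 - 3/2) : kap2 s = f2 (3/2) := by
  rcases le_total s h2 with hs | hs
  · have h3 : |s| = s := abs_of_nonneg (by linarith)
    rw [kap2_eq (by rw [h3]; exact hs), h3]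
    exact (f2_top h1).1
  · have h3 : kap2 s = kap2 (s - 2 * h2) := by
      have h4 := kap2_per (s - 2 * h2)
      rw [sub_add_cancel] at h4
      exact h4
    have h5 : |s - 2 * h2| = 2 * h2 - s := by
      rw [abs_of_nonpos (by linarith)]
      ring
    rw [h3, kap2_eq (by rw [h5]; linarith), h5]
    exact (f2_top (by linarith)).1

end Pool.Agent.Helper606.CA
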