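import Pool.Agent.Helper606.CA2.Defs
import Pool.Agent.Helper606.CA2.P_gg_cont
import Pool.Agent.Helper606.CA2.P_gg_low
import Pool.Agent.Helper606.CA2.P_gg_top
import Pool.Agent.Helper606.CA2.P_h2_bounds
import Pool.Agent.Helper606.CA2.P_kap2_eq
import Pool.Agent.Helper606.CA2.P_kap2_per
import Pool.Agent.Helper606.CA2.P_kap2_even
import Pool.Agent.Helper606.CA2.P_kap2_low
import Pool.Agent.Helper606.CA2.P_kap2_top
import Pool.Agent.Helper606.CA2.P_kap2_hd

set_option autoImplicit false

namespace Pool.Agent.Helper606.CA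
open Complex Set


theorem dk_locA {s : ℝ} (hs : |s| < h2) : HasDerivAt kap2 (gg s - gg (-s)) s := by
  rw [abs_lt] at hs
  rcases lt_trichotomy s 0 with h | h | h
  · have h1 := kap2_hd (s := -s) (by linarith) (by linarith)
    have h3 := h1.comp s (hasDerivAt_neg s)
    have h4 : (kap2 ∘ fun t : ℝ => -t) = kap2 := by
      funext t
      exact kap2_even t
    rw [gg_low (by linarith : s ≤ 1), zero_sub]
    have h5 : gg (-s) * -1 = - gg (-s) := by ring
    rw [h5] at h3
    have h6 : HasDerivAt (fun t => kap2 (-t)) (- gg (-s)) s := h3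
    have h7 : (fun t => kap2 (-t)) = kap2 := h4
    rwa [h7] at h6
  · subst h
    have h1 : kap2 =ᶠ[nhds 0] fun _ => k0 := by
      filter_upwards [Metric.ball_mem_nhds (0:ℝ) one_pos] with t ht
      rw [Metric.mem_ball, Real.dist_eq, sub_zero] at ht
      exact kap2_low ht.le
    rw [gg_low (by norm_num : (0:ℝ) ≤ 1), gg_low (by norm_num : -(0:ℝ) ≤ 1), sub_zero]
    exact (hasDerivAt_const 0 k0).congr_of_eventuallyEq h1
  · rw [gg_low (s := -s) (by linarith), sub_zero]
    exact kap2_hd h hs.2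

theorem dk_locB {s : ℝ} (h1 : 3/2 < s) (h2' : s < 2 * h2 - 3/2) : HasDerivAt kap2 0 s := by
  have h : kap2 =ᶠ[nhds s] fun _ => f2 (3/2) := by
    filter_upwards [Ioo_mem_nhds h1 h2'] with t ht
    exact kap2_top ht.1.le ht.2.le
  exact (hasDerivAt_const s (f2 (3/2))).congr_of_eventuallyEq h

theorem dk_ex (s : ℝ) : ∃ (n : ℤ) (s' : ℝ), s' = s - n * (2 * h2) ∧ (|s'| < h2 ∨ s' = h2) := by
  have hh : 0 < 2 * h2 := by linarith [h2_bounds.1]
  refine ⟨⌈(s - h2) / (2 * h2)⌉, _, rfl, ?_⟩
  have a1 := Int.le_ceil ((s - h2) / (2 * h2))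
  have a2 := Int.ceil_lt_add_one ((s - h2) / (2 * h2))
  generalize ⌈(s - h2) / (2 * h2)⌉ = n at a1 a2
  rw [div_le_iff₀ hh] at a1
  rw [← sub_lt_iff_lt_add, lt_div_iff₀ hh] at a2
  rcases eq_or_lt_of_le a1 with h | h
  · right; linarith
  · left
    rw [abs_lt]
    constructor <;> linarith

theorem dk_per (n : ℤ) : (fun t => kap2 (t - n * (2 * h2))) = kap2 := by
  have hp : Function.Periodic kap2 (2 * h2) := kap2_per
  funext t
  exact hp.sub_int_mul_eq n

theorem dkap : (∀ s, HasDerivAt kap2 (deriv kap2 s) s) ∧ Continuous (deriv kap2) := by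
  have hb := h2_bounds
  have hd : ∀ s, DifferentiableAt ℝ kap2 s := by
    intro s
    obtain ⟨n, s', hs', h⟩ := dk_ex s
    have h1 : ∃ d, HasDerivAt kap2 d s' := by
      rcases h with h | h
      · exact ⟨_, dk_locA h⟩
      · exact ⟨_, dk_locB (by rw [h]; linarith) (by rw [h]; linarith)⟩
    obtain ⟨d, hd⟩ := h1
    rw [hs'] at hd
    have h3 := hd.comp_sub_const s (n * (2 * h2))
    rw [dk_per n] at h3
    exact h3.differentiableAt
  refine ⟨fun s => (hd s).hasDerivAt, ?_⟩
  rw [continuous_iff_continuousAt]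
  intro s
  obtain ⟨n, s', hs', h⟩ := dk_ex s
  have h1 : ContinuousAt (deriv kap2) s' := by
    rcases h with h | h
    · have h3 : deriv kap2 =ᶠ[nhds s'] fun t => gg t - gg (-t) := by
        have h4 : {t : ℝ | |t| < h2} ∈ nhds s' :=
          (isOpen_lt continuous_abs continuous_const).mem_nhds h
        filter_upwards [h4] with t ht
        exact (dk_locA ht).deriv
      refine ContinuousAt.congr ?_ h3.symm
      exact (gg_cont.sub (gg_cont.comp continuous_neg)).continuousAt
    · have h3 : deriv kap2 =ᶠ[nhds s'] fun _ => (0:ℝ) := by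
        have h4 : Ioo (3/2 : ℝ) (2 * h2 - 3/2) ∈ nhds s' :=
          Ioo_mem_nhds (by rw [h]; linarith) (by rw [h]; linarith)
        filter_upwards [h4] with t ht
        exact (dk_locB ht.1 ht.2).deriv
      exact ContinuousAt.congr continuousAt_const h3.symm
  have h5 : deriv kap2 = fun t => deriv kap2 (t - n * (2 * h2)) := by
    funext t
    have h6 := (hd (t - n * (2 * h2))).hasDerivAt.comp_sub_const t (n * (2 * h2))
    rw [dk_per n] at h6
    exact h6.deriv
  rw [h5]
  rw [hs'] at h1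
  exact ContinuousAt.comp (f := fun t : ℝ => t - n * (2 * h2)) h1
    (continuous_id.sub continuous_const).continuousAt

end Pool.Agent.Helper606.CA
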