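import Pool.Agent.Helper606.CA2.Defs
import Pool.Agent.Helper606.CA2.P_k0_facts
import Pool.Agent.Helper606.CA2.P_f2_12
import Pool.Agent.Helper606.CA2.P_f2_top
import Pool.Agent.Helper606.CA2.P_h2_bounds
import Pool.Agent.Helper606.CA2.P_kap2_eq

set_option autoImplicit false

namespace Pool.Agent.Helper606.CA
open Complex Set


theorem kap2_12 {s : ℝ} (h1 : 1 + k0 ≤ s) (h2' : s ≤ 3/2) : 1 ≤ kap2 s ∧ kap2 s ≤ 2 := by
  have hk := k0_facts.1
  have hs : 0 ≤ s := by linarith
  have habs : |s| = s := abs_of_nonneg hs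
  have hle : |s| ≤ h2 := by rw [habs]; linarith [h2_bounds.1]
  rw [kap2_eq hle, habs]
  rcases lt_or_eq_of_le h2' with h | h
  · exact f2_12 h1 h
  · rw [h]; exact (f2_top (s := 3/2) le_rfl).2

end Pool.Agent.Helper606.CA
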