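import Pool.Agent.Helper606.CA2.Defs
import Pool.Agent.Helper606.CA2.P_GG_facts
import Pool.Agent.Helper606.CA2.P_pq_facts
import Pool.Agent.Helper606.CA2.P_gg_cluster
import Pool.Agent.Helper606.CA2.P_h2_bounds
import Pool.Agent.Helper606.CA2.P_kap2_hd

set_option autoImplicit false

namespace Pool.Agent.Helper606.CA
open Complex Set


theorem kap2_clus {j : ℕ} (hj : 130 ≤ j) {u : ℝ} (h1 : pq j ≤ u) (h2' : u ≤ pq (j+1)) :
    deriv kap2 u = etq j * GG j ((u - pq j) / wq j) ∧ |deriv kap2 u| ≤ etq j := by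
  obtain ⟨-, p2, -, -, p5, -, p7, -, -⟩ := pq_facts
  have hu0 : 0 < u := by linarith [p7 j hj]
  have huh : u < h2 := by linarith [p5 (j+1), h2_bounds.1]
  have hd : deriv kap2 u = etq j * GG j ((u - pq j) / wq j) := by
    rw [(kap2_hd hu0 huh).deriv, gg_cluster hj h1 h2']
  refine ⟨hd, ?_⟩
  rw [hd, abs_mul, abs_of_pos (p2 j).1]
  have h3 := (GG_facts j).2.1 ((u - pq j) / wq j)
  calc etq j * |GG j ((u - pq j) / wq j)| ≤ etq j * 1 :=
        mul_le_mul_of_nonneg_left h3 (p2 j).1.le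
    _ = etq j := mul_one _

end Pool.Agent.Helper606.CA
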