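import Pool.Agent.Helper606.CA2.Defs
import Pool.Agent.Helper606.CA2.P_pq_facts
import Pool.Agent.Helper606.CA2.P_T_zero
import Pool.Agent.Helper606.CA2.P_gg_cluster

set_option autoImplicit false

namespace Pool.Agent.Helper606.CA
open Complex Set


theorem gg_arc {j : ℕ} (hj : 130 ≤ j) {s : ℝ} (h1 : pq j + lq j ≤ s) (h2 : s ≤ pq (j+1)) :
    gg s = 0 := by
  have h3 : 0 < lq j := pq_facts.2.2.1 j
  rw [gg_cluster hj (by linarith) h2, T_zero (Or.inr h1), mul_zero]

end Pool.Agent.Helper606.CA
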