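import Pool.Agent.Helper606.CA2.Defs
import Pool.Agent.Helper606.CA2.P_gg_cont
import Pool.Agent.Helper606.CA2.P_gg_arc
import Pool.Agent.Helper606.CA2.P_f2_deriv

set_option autoImplicit false

namespace Pool.Agent.Helper606.CA
open Complex Set


theorem f2_arc {j : ℕ} (hj : 130 ≤ j) {s : ℝ} (h1 : pq j + lq j ≤ s) (h2 : s ≤ pq (j+1)) :
    f2 s = f2 (pq j + lq j) := by
  have e1 : ∫ u in (pq j + lq j)..s, gg u = f2 s - f2 (pq j + lq j) :=
    intervalIntegral.integral_eq_sub_of_hasDerivAt (fun x _ => f2_deriv x)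
      (gg_cont.intervalIntegrable _ _)
  have e2 : ∫ u in (pq j + lq j)..s, gg u = 0 := by
    have : ∫ u in (pq j + lq j)..s, gg u = ∫ u in (pq j + lq j)..s, (0:ℝ) := by
      apply intervalIntegral.integral_congr
      intro u hu
      rw [Set.uIcc_of_le h1] at hu
      exact gg_arc hj hu.1 (hu.2.trans h2)
    rw [this, intervalIntegral.integral_zero]
  linarith

end Pool.Agent.Helper606.CA
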