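import Pool.Agent.Helper606.CA2.Defs
import Pool.Agent.Helper606.CA2.P_k0_facts
import Pool.Agent.Helper606.CA2.P_pq_facts
import Pool.Agent.Helper606.CA2.P_pq_mono
import Pool.Agent.Helper606.CA2.P_gg_gap
import Pool.Agent.Helper606.CA2.P_gg_arc
import Pool.Agent.Helper606.CA2.P_f2_gap
import Pool.Agent.Helper606.CA2.P_f2_arc
import Pool.Agent.Helper606.CA2.P_h2_bounds
import Pool.Agent.Helper606.CA2.P_kap2_eq
import Pool.Agent.Helper606.CA2.P_kap2_hd

set_option autoImplicit false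

namespace Pool.Agent.Helper606.CA
open Complex Set


theorem kap2_left {j : ℕ} (hj : 130 ≤ j) {u : ℝ} (h1 : pq j - etq j / 2 ≤ u) (h2' : u ≤ pq j) :
    1 + k0 ≤ u ∧ kap2 u = kap2 (pq j) ∧ deriv kap2 u = 0 := by
  obtain ⟨hk0, hk1, -⟩ := k0_facts
  obtain ⟨hw, he, hl, hd, hlt, h6, h7, h8, h9⟩ := pq_facts
  have a1 := h7 j hj
  have a2 := h9 j hj
  have a3 := hlt j
  have a4 := h2_bounds.1
  have hu1 : 1 + k0 ≤ u := by linarith
  have hu0 : 0 < u := by linarith
  have huh : u < h2 := by linarith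
  have e1 : kap2 u = f2 u := by
    rw [kap2_eq (by rw [abs_of_pos hu0]; exact huh.le), abs_of_pos hu0]
  have hpos : 0 < pq j := by linarith
  have e2 : kap2 (pq j) = f2 (pq j) := by
    rw [kap2_eq (by rw [abs_of_pos hpos]; linarith), abs_of_pos hpos]
  have e3 : deriv kap2 u = gg u := (kap2_hd hu0 huh).deriv
  rw [e1, e2, e3]
  refine ⟨hu1, ?_, ?_⟩
  · rcases Nat.eq_or_lt_of_le hj with hj' | hj'
    · subst hj'
      rw [f2_gap hu1 h2', f2_gap (by linarith) le_rfl]
    · obtain ⟨i, rfl⟩ : ∃ i, j = i + 1 := ⟨j - 1, by omega⟩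
      have hi : 130 ≤ i := by omega
      have b1 := h8 i hi
      have b2 : pq i + lq i ≤ u := by linarith
      rw [f2_arc hi b2 h2', f2_arc hi (by linarith) le_rfl]
  · rcases Nat.eq_or_lt_of_le hj with hj' | hj'
    · subst hj'
      exact gg_gap hu1 h2'
    · obtain ⟨i, rfl⟩ : ∃ i, j = i + 1 := ⟨j - 1, by omega⟩
      have hi : 130 ≤ i := by omega
      have b1 := h8 i hi
      exact gg_arc hi (by linarith) h2'

end Pool.Agent.Helper606.CA
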