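import Pool.Agent.Helper606.CA2.Defs
import Pool.Agent.Helper606.CA2.P_pq_facts
import Pool.Agent.Helper606.CA2.P_gg_arc
import Pool.Agent.Helper606.CA2.P_f2_arc
import Pool.Agent.Helper606.CA2.P_h2_bounds
import Pool.Agent.Helper606.CA2.P_kap2_eq
import Pool.Agent.Helper606.CA2.P_kap2_hd

set_option autoImplicit false

namespace Pool.Agent.Helper606.CA
open Complex Set


theorem kap2_right {j : ℕ} (hj : 130 ≤ j) {u : ℝ} (h1 : pq j + lq j ≤ u) (h2' : u ≤ pq (j+1)) :
    kap2 u = kap2 (pq j + lq j) ∧ deriv kap2 u = 0 := by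
  obtain ⟨_, _, hl, _, hlt, _, h54, _, _⟩ := pq_facts
  have a1 : 5/4 ≤ pq j := h54 j hj
  have a2 : 0 < lq j := hl j
  have a3 : pq (j+1) < 3/2 := hlt (j+1)
  have a4 : 3/2 < h2 := h2_bounds.1
  have b0 : 0 < pq j + lq j := by linarith
  have b1 : 0 < u := by linarith
  have b2 : u < h2 := by linarith
  have b3 : pq j + lq j < h2 := by linarith
  constructor
  · rw [kap2_eq (by rw [abs_of_pos b1]; exact b2.le), kap2_eq (by rw [abs_of_pos b0]; exact b3.le),
      abs_of_pos b1, abs_of_pos b0, f2_arc hj h1 h2']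
  · rw [(kap2_hd b1 b2).deriv, gg_arc hj h1 h2']

end Pool.Agent.Helper606.CA
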