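import Pool.Agent.Helper606.CA2.Defs

set_option autoImplicit false

namespace Pool.Agent.Helper606.CA
open Complex Set


theorem num_N {t η : ℝ} (ht : 0 < t) (h : 4000 * t ≤ η) :
    ∃ N : ℕ, 100 ≤ N ∧ 8 * (N + 1) * t ≤ η / 2 ∧ 1 / (N:ℝ) ≤ 32 * t / η := by
  have hη : 0 < η := by linarith [mul_pos (by norm_num : (0:ℝ) < 4000) ht]
  obtain ⟨x, hx⟩ : ∃ x : ℝ, x = η / (16 * t) := ⟨_, rfl⟩
  have hxt : 16 * t * x = η := by
    rw [hx]; field_simp
  have hx250 : 250 ≤ x := by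
    rw [hx, le_div_iff₀ (by positivity)]
    linarith
  have hx0 : 0 ≤ x := by linarith
  have hf1 : (⌊x⌋₊ : ℝ) ≤ x := Nat.floor_le hx0
  have hf2 : x < (⌊x⌋₊ : ℝ) + 1 := Nat.lt_floor_add_one x
  have hf3 : 250 ≤ ⌊x⌋₊ := Nat.le_floor (by exact_mod_cast hx250)
  obtain ⟨N, hN⟩ : ∃ N : ℕ, ⌊x⌋₊ = N + 1 := by
    cases hfx : ⌊x⌋₊ with
    | zero => rw [hfx] at hf3; exact absurd hf3 (by norm_num)
    | succ k => exact ⟨k, rfl⟩
  rw [hN] at hf1 hf2 hf3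
  push_cast at hf1 hf2
  have hN100 : 100 ≤ N := by
    clear hf1 hf2
    exact le_trans (by norm_num : 100 ≤ 249) (Nat.le_of_succ_le_succ hf3)
  refine ⟨N, hN100, ?_, ?_⟩
  · have h1 : ((N:ℝ) + 1) * t ≤ x * t := mul_le_mul_of_nonneg_right hf1 ht.le
    have h3 : η / 2 = 8 * (x * t) := by rw [← hxt]; ring
    rw [h3]
    calc 8 * ((N:ℝ) + 1) * t = 8 * (((N:ℝ) + 1) * t) := by ring
      _ ≤ 8 * (x * t) := mul_le_mul_of_nonneg_left h1 (by norm_num)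
  · have hNx : x / 2 ≤ (N : ℝ) := by linarith only [hf2, hx250]
    have hx2 : 0 < x / 2 := by linarith
    have h2 : 32 * t / η = 1 / (x / 2) := by
      rw [← hxt]
      have : x ≠ 0 := by linarith
      field_simp
      norm_num
    rw [h2]
    exact one_div_le_one_div_of_le hx2 hNx

end Pool.Agent.Helper606.CA
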