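import Pool.Agent.Helper606.CA2.Defs

set_option autoImplicit false

namespace Pool.Agent.Helper606.CA
open Complex Set


theorem pf_small (r c : ℝ) (h0 : 0 ≤ r) (h1 : r ≤ 1) (hc : 0 ≤ c) (h : c * r ^ 130 ≤ 1) {j : ℕ}
    (hj : 130 ≤ j) : c * r ^ j ≤ 1 :=
  (mul_le_mul_of_nonneg_left (pow_le_pow_of_le_one h0 h1 hj) hc).trans h

theorem pow_facts {j : ℕ} (hj : 130 ≤ j) : 10^7 * wq j ≤ etq j ∧
    16 * 10^8 ≤ etq j ^ 2 * (3/2:ℝ)^j ∧ 10^12 * (5:ℝ)^j * wq j ^ 2 ≤ 1 ∧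
    10^9 * (25:ℝ)^j * ((5:ℝ)^j * wq j * etq j) ≤ (3/2:ℝ)^j ∧ 10^14 * (25:ℝ)^j * wq j ≤ etq j ∧
    10^6 * (25:ℝ)^j * wq j ≤ 1 ∧ 10^10 * (5:ℝ)^j * wq j ≤ etq j ∧ 2048 ≤ (5:ℝ)^j ∧
    1 ≤ (3/2:ℝ)^j := by
  have hw : wq j = (1/128:ℝ)^j := by
    unfold wq
    rw [pow_mul]
    norm_num
  have he : etq j = (9/10:ℝ)^j := rfl
  rw [hw, he]
  have hep : (0:ℝ) < (9/10:ℝ)^j := by positivity
  have hp : (0:ℝ) < (3/2:ℝ)^j := by positivity
  refine ⟨?_, ?_, ?_, ?_, ?_, ?_, ?_, ?_, ?_⟩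
  · have h := pf_small (10/1152) (10^7) (by norm_num) (by norm_num) (by norm_num) (by norm_num) hj
    have e : (1/128:ℝ)^j = (9/10:ℝ)^j * (10/1152:ℝ)^j := by rw [← mul_pow]; norm_num
    calc 10^7 * (1/128:ℝ)^j = (9/10:ℝ)^j * (10^7 * (10/1152:ℝ)^j) := by rw [e]; ring
      _ ≤ (9/10:ℝ)^j * 1 := mul_le_mul_of_nonneg_left h hep.le
      _ = _ := mul_one _
  · have e : ((9/10:ℝ)^j)^2 * (3/2:ℝ)^j = (243/200:ℝ)^j := by
      rw [← pow_mul, mul_comm j 2, pow_mul, ← mul_pow]; norm_num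
    rw [e]
    calc (16 * 10^8 : ℝ) ≤ (243/200:ℝ)^130 := by norm_num
      _ ≤ (243/200:ℝ)^j := pow_le_pow_right₀ (by norm_num) hj
  · have h := pf_small (5/16384) (10^12) (by norm_num) (by norm_num) (by norm_num) (by norm_num) hj
    have e : (5:ℝ)^j * ((1/128:ℝ)^j)^2 = (5/16384:ℝ)^j := by
      rw [← pow_mul, mul_comm j 2, pow_mul, ← mul_pow]; norm_num
    rw [mul_assoc, e]
    exact h
  · have h := pf_small (1125/1920) (10^9) (by norm_num) (by norm_num) (by norm_num) (by norm_num) hj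
    have e : (25:ℝ)^j * ((5:ℝ)^j * (1/128:ℝ)^j * (9/10:ℝ)^j) = (3/2:ℝ)^j * (1125/1920:ℝ)^j := by
      rw [← mul_pow, ← mul_pow, ← mul_pow, ← mul_pow]; norm_num
    calc 10^9 * (25:ℝ)^j * ((5:ℝ)^j * (1/128:ℝ)^j * (9/10:ℝ)^j) = (3/2:ℝ)^j * (10^9 * (1125/1920:ℝ)^j) := by
          rw [mul_assoc, e]; ring
      _ ≤ (3/2:ℝ)^j * 1 := mul_le_mul_of_nonneg_left h hp.le
      _ = _ := mul_one _
  · have h := pf_small (250/1152) (10^14) (by norm_num) (by norm_num) (by norm_num) (by norm_num) hj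
    have e : (25:ℝ)^j * (1/128:ℝ)^j = (9/10:ℝ)^j * (250/1152:ℝ)^j := by
      rw [← mul_pow, ← mul_pow]; norm_num
    calc 10^14 * (25:ℝ)^j * (1/128:ℝ)^j = (9/10:ℝ)^j * (10^14 * (250/1152:ℝ)^j) := by
          rw [mul_assoc, e]; ring
      _ ≤ (9/10:ℝ)^j * 1 := mul_le_mul_of_nonneg_left h hep.le
      _ = _ := mul_one _
  · have h := pf_small (25/128) (10^6) (by norm_num) (by norm_num) (by norm_num) (by norm_num) hj
    have e : (25:ℝ)^j * (1/128:ℝ)^j = (25/128:ℝ)^j := by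
      rw [← mul_pow]; norm_num
    rw [mul_assoc, e]
    exact h
  · have h := pf_small (50/1152) (10^10) (by norm_num) (by norm_num) (by norm_num) (by norm_num) hj
    have e : (5:ℝ)^j * (1/128:ℝ)^j = (9/10:ℝ)^j * (50/1152:ℝ)^j := by
      rw [← mul_pow, ← mul_pow]; norm_num
    calc 10^10 * (5:ℝ)^j * (1/128:ℝ)^j = (9/10:ℝ)^j * (10^10 * (50/1152:ℝ)^j) := by
          rw [mul_assoc, e]; ring
      _ ≤ (9/10:ℝ)^j * 1 := mul_le_mul_of_nonneg_left h hep.le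
      _ = _ := mul_one _
  · calc (2048 : ℝ) ≤ (5:ℝ)^130 := by norm_num
      _ ≤ (5:ℝ)^j := pow_le_pow_right₀ (by norm_num) hj
  · exact one_le_pow₀ (by norm_num)

end Pool.Agent.Helper606.CA
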