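import Pool.Agent.Helper606.CA2.Defs
import Pool.Agent.Helper606.CA2.P_pq_facts
import Pool.Agent.Helper606.CA2.P_num_N
import Pool.Agent.Helper606.CA2.P_pow_facts

set_option autoImplicit false

namespace Pool.Agent.Helper606.CA
open Complex Set


theorem nk_core {W E F R q t : ℝ} (hW : 0 < W) (hE : 0 < E) (hE1 : E ≤ 1) (hq0 : 0 ≤ q)
    (h1 : 2 * W < t) (h2 : t ≤ 2048 * W) (hq : q * E ≤ 65536 * W)
    (p2 : 16 * 10^8 ≤ E ^ 2 * R) (p3 : 10^12 * F * W ^ 2 ≤ 1)
    (p4 : 10^9 * F^2 * (F * W * E) ≤ R) (p5 : 10^14 * F^2 * W ≤ E)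
    (p6 : 10^6 * F^2 * W ≤ 1) (p7 : 10^10 * F * W ≤ E) (p8 : 2048 ≤ F) (p9 : 1 ≤ R) :
    (F * W) * (20 * (F * W) * E + q) ≤ t / 10000 ∧ t ≤ F * W ∧
    10 * (200 * q + 100 * E * (F * W) * t ^ 2 +
        2000000 * E * (F * W) * ((F * W) * ((F * W) * E + q)) / t) <
      E * W * ((1/4) * R) := by
  have hF : 0 < F := by linarith
  have ht : 0 < t := by linarith
  have hFq : F * q ≤ 65536 / 10^10 := by
    have : (F * q) * E ≤ (65536 / 10^10) * E := by
      have a := mul_le_mul_of_nonneg_left hq hF.le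
      nlinarith
    exact le_of_mul_le_mul_right this hE
  have hF2q : F ^ 2 * q ≤ 65536 / 10^14 := by
    have : (F ^ 2 * q) * E ≤ (65536 / 10^14) * E := by
      have a := mul_le_mul_of_nonneg_left hq (sq_nonneg F)
      nlinarith
    exact le_of_mul_le_mul_right this hE
  have hqq : 2000 * q ≤ E * W * R / 12 := by
    have : (2000 * q) * E ≤ (E * W * R / 12) * E := by
      have a := mul_le_mul_of_nonneg_left p2 hW.le
      nlinarith
    exact le_of_mul_le_mul_right this hE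
  have hFWE : F ^ 2 * W * E ≤ 1 / 10^6 := by
    have a : F ^ 2 * W ≤ 1 / 10^6 := by linarith
    calc F ^ 2 * W * E ≤ F ^ 2 * W * 1 := mul_le_mul_of_nonneg_left hE1 (by positivity)
      _ ≤ 1 / 10^6 := by linarith
  refine ⟨?_, ?_, ?_⟩
  · have e : (F * W) * (20 * (F * W) * E + q) = W * (20 * (F ^ 2 * W * E) + F * q) := by ring
    rw [e]
    have a : 20 * (F ^ 2 * W * E) + F * q ≤ 2 / 10000 := by
      norm_num at hFWE hFq ⊢
      linarith
    have b := mul_le_mul_of_nonneg_left a hW.le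
    linarith
  · calc t ≤ 2048 * W := h2
      _ ≤ F * W := mul_le_mul_of_nonneg_right p8 hW.le
  · have hP : 0 < E * W := mul_pos hE hW
    have hPR : E * W ≤ E * W * R := le_mul_of_one_le_right hP.le p9
    have hB : 100 * E * (F * W) * t ^ 2 ≤ 100 * 2048 ^ 2 / 10^12 * (E * W) := by
      have a : t ^ 2 ≤ (2048 * W) ^ 2 := pow_le_pow_left₀ ht.le h2 2
      have b : 100 * E * (F * W) * t ^ 2 ≤ 100 * E * (F * W) * (2048 * W) ^ 2 :=
        mul_le_mul_of_nonneg_left a (by positivity)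
      have c : 100 * E * (F * W) * (2048 * W) ^ 2 =
        (100 * 2048 ^ 2 / 10 ^ 12 * (E * W)) * (10^12 * F * W ^ 2) := by ring
      rw [c] at b
      refine b.trans ?_
      exact mul_le_of_le_one_right (by positivity) p3
    have hC : 2000000 * E * (F * W) * ((F * W) * ((F * W) * E + q)) / t ≤
        1000000 * (E * W) * (R / 10^9 + 65536 / 10^14) := by
      have hY : F ^ 2 * (F * W * E) + F ^ 2 * q ≤ R / 10^9 + 65536 / 10^14 := by
        have : F ^ 2 * (F * W * E) ≤ R / 10^9 := by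
          rw [le_div_iff₀ (by positivity)]
          linarith
        linarith
      have hY0 : 0 ≤ F ^ 2 * (F * W * E) + F ^ 2 * q := by positivity
      refine le_trans ?_ (mul_le_mul_of_nonneg_left hY (by positivity))
      rw [div_le_iff₀ ht]
      have a : 2000000 * E * (F * W) * ((F * W) * ((F * W) * E + q)) =
        (1000000 * (E * W) * (F ^ 2 * (F * W * E) + F ^ 2 * q)) * (2 * W) := by ring
      rw [a]
      exact mul_le_mul_of_nonneg_left h1.le (by positivity)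
    have e1 : E * W * ((1/4) * R) = (E * W * R) / 4 := by ring
    have e2 : 1000000 * (E * W) * (R / 10^9 + 65536 / 10^14) =
      1000000 / 10^9 * (E * W * R) + 1000000 * 65536 / 10^14 * (E * W) := by ring
    rw [e1]
    rw [e2] at hC
    norm_num at hB hC ⊢
    linarith

theorem num_kill {j : ℕ} (hj : 130 ≤ j) {t : ℝ} (h1 : 2 * wq j < t) (h2' : t ≤ 2048 * wq j) :
    ∃ N : ℕ, 100 ≤ N ∧ 8 * (N + 1) * t ≤ etq j / 2 ∧
      ((5:ℝ)^j * wq j) * (20 * ((5:ℝ)^j * wq j) * etq j + 1 / N) ≤ t / 10000 ∧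
      t ≤ (5:ℝ)^j * wq j ∧
      10 * (200 / N + 100 * etq j * ((5:ℝ)^j * wq j) * t ^ 2 +
        2000000 * etq j * ((5:ℝ)^j * wq j) *
          (((5:ℝ)^j * wq j) * (((5:ℝ)^j * wq j) * etq j + 1 / N)) / t) <
      etq j * wq j * ((1/4) * (3/2:ℝ)^j) := by
  obtain ⟨f1, f2, -, -, -, -, -, -, f9⟩ := pq_facts
  obtain ⟨p1, p2, p3, p4, p5, p6, p7, p8, p9⟩ := pow_facts hj
  have hW := f1 j
  obtain ⟨hE, hE1⟩ := f2 j
  have ht : 0 < t := by linarith
  obtain ⟨N, hN, hN2, hN3⟩ := num_N (η := etq j) ht (by linarith)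
  have h25 : (25:ℝ) ^ j = ((5:ℝ) ^ j) ^ 2 := by
    rw [← pow_mul, mul_comm, pow_mul]; norm_num
  rw [h25] at p4 p5 p6
  have hq : (1 / (N:ℝ)) * etq j ≤ 65536 * wq j := by
    rw [le_div_iff₀ hE] at hN3
    linarith
  have hq0 : 0 ≤ 1 / (N:ℝ) := by positivity
  obtain ⟨c1, c2, c3⟩ := nk_core hW hE hE1 hq0 h1 h2' hq p2 p3 p4 p5 p6 p7 p8 p9
  refine ⟨N, hN, hN2, c1, c2, ?_⟩
  have e : (200:ℝ) / N = 200 * (1 / N) := by ring
  rw [e]
  exact c3

end Pool.Agent.Helper606.CA
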