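import Pool.Agent.Helper606.CA2.Defs
import Pool.Agent.Helper606.CA2.P_cluster_kill
import Pool.Agent.Helper606.CA2.P_pq_facts
import Pool.Agent.Helper606.CA2.P_kap2_closed
import Pool.Agent.Helper606.CA2.P_dkap
import Pool.Agent.Helper606.CA2.P_kap2_12
import Pool.Agent.Helper606.CA2.P_kap2_left
import Pool.Agent.Helper606.CA2.P_kap2_right
import Pool.Agent.Helper606.CA2.P_kap2_clus
import Pool.Agent.Helper606.CA2.P_num_kill

set_option autoImplicit false

namespace Pool.Agent.Helper606.CA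
open Complex Set


theorem step_kill2 {C : Set ℂ} {θ : ℝ → ℝ} (h : IsAngle kap2 C θ) {j : ℕ} (hj : 130 ≤ j)
    (h1 : θ (pq j) ≤ 2048 * wq j) : θ (pq j) ≤ 2 * wq j := by
  by_contra hc
  rw [not_le] at hc
  obtain ⟨hw, he, hl, hs, hlt, h6, h7, h8, h9⟩ := pq_facts
  have hwj := hw j
  have hej := he j
  have hlj := hl j
  have h6j := h6 j hj
  have hltj := hlt (j + 1)
  have htpos : 0 < θ (pq j) := by linarith
  obtain ⟨N, hN, hA, hB, hC, hD⟩ := num_kill hj hc h1
  have hlow : 1 + k0 ≤ pq j - etq j / 2 :=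
    (kap2_left hj (le_refl (pq j - etq j / 2)) (by linarith [hej.1])).1
  have hlq : lq j = (5:ℝ)^j * wq j := rfl
  refine cluster_kill (κ := kap2) (g := deriv kap2) (P := 2 * h2) (C := C) (θ := θ) kap2_closed
    dkap.1 dkap.2 h (p := pq j) (w := wq j) (lL := etq j / 2) (lR := etq j / 2) (η := etq j)
    (t := θ (pq j)) (N := N) (n := j) hwj (by linarith [hej.1]) (by linarith [hej.1]) hej.1 hej.2 hN rfl
    hC (by linarith [hej.2, hej.1]) (by linarith [hej.2, hej.1]) ?_ ?_ ?_ ?_ ?_ ?_ hA hB hc.le hD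
  · intro u hu
    exact (kap2_left hj hu.1 hu.2).2.1
  · intro u hu
    rw [← hlq] at hu ⊢
    exact (kap2_right hj hu.1 (hu.2.trans h6j)).1
  · intro u hu
    rw [← hlq] at hu
    exact kap2_12 (hlow.trans hu.1) (by linarith [hu.2])
  · intro u hu
    rw [← hlq] at hu
    rcases le_total u (pq j) with hup | hup
    · rw [(kap2_left hj hu.1 hup).2.2, abs_zero]
      exact hej.1.le
    · exact (kap2_clus hj hup (hu.2.trans h6j)).2
  · intro u hu
    rw [← hlq] at hu
    exact (kap2_clus hj hu.1 (by linarith [hu.2, hej.1])).1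
  · have h10 : 0 ≤ ((N : ℝ) + 1) * θ (pq j) := by positivity
    nlinarith

end Pool.Agent.Helper606.CA
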