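import Pool.Agent.Helper606.CA2.Defs
import Pool.Agent.Helper606.CA.P_end_geom
import Pool.Agent.Helper606.CA2.P_transit
import Pool.Agent.Helper606.CA2.P_k0_facts
import Pool.Agent.Helper606.CA2.P_pq_facts
import Pool.Agent.Helper606.CA2.P_kap2_cont
import Pool.Agent.Helper606.CA2.P_kap2_closed
import Pool.Agent.Helper606.CA2.P_dkap
import Pool.Agent.Helper606.CA2.P_kap2_12
import Pool.Agent.Helper606.CA2.P_kap2_right
import Pool.Agent.Helper606.CA2.P_kap2_clus

set_option autoImplicit false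

namespace Pool.Agent.Helper606.CA
open Complex Set


theorem step_next2 {C : Set ℂ} {θ : ℝ → ℝ} (h : IsAngle kap2 C θ) {j : ℕ} (hj : 130 ≤ j)
    (h1 : θ (pq j) ≤ 2 * wq j) : θ (pq (j+1)) ≤ 2048 * wq (j+1) := by
  obtain ⟨hw, he, hl, hpq, hlt, hle, h54, -, hsm⟩ := pq_facts
  obtain ⟨hk0, hk1, -⟩ := k0_facts
  have hwj := hw j
  have hej := (he j).1
  have hlj := hl j
  have hlej := hle j hj
  have h54j := h54 j hj
  have hsmj := hsm j hj
  have hltj := hlt (j+1)
  have hpqj := hpq j
  -- numeric fact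
  have hnum : 16 * wq j ≤ etq j / 2 := by
    obtain ⟨n, rfl⟩ : ∃ n, j = n + 1 := ⟨j - 1, by omega⟩
    unfold wq etq
    have e1 : ((1/2:ℝ))^(7*(n+1)) = (1/128) * (1/128:ℝ)^n := by
      rw [pow_mul, pow_succ]
      norm_num
      ring
    have e2 : (9/10:ℝ)^(n+1) = 9/10 * (9/10:ℝ)^n := by
      rw [pow_succ]; ring
    have e3 : (1/128:ℝ)^n ≤ (9/10:ℝ)^n :=
      pow_le_pow_left₀ (by norm_num) (by norm_num) n
    have e4 : (0:ℝ) < (9/10:ℝ)^n := by positivity
    rw [e1, e2]
    clear * - e3 e4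
    generalize (1/128:ℝ)^n = a at *
    generalize (9/10:ℝ)^n = b at *
    linarith
  have hw1 : wq j = 128 * wq (j+1) := by
    unfold wq
    rw [show 7 * (j+1) = 7 * j + 7 by ring, pow_add]
    norm_num
    ring
  have hθ0 : 0 < θ (pq j) := h.pos _
  have htr : θ (pq j + lq j) ≤ 4 * θ (pq j) := by
    refine transit (g := deriv kap2) (η := etq j) (D := 1) kap2_closed dkap.1 dkap.2 h ?_ hej.le ?_ ?_ ?_ ?_ ?_
    · linarith
    · linarith
    · linarith
    · linarith
    · intro u hu
      exact (kap2_clus hj hu.1 (by linarith [hu.2])).2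
    · intro u hu
      exact kap2_12 (by linarith [hu.1]) (by linarith [hu.2])
  have hk12 := kap2_12 (s := pq j + lq j) (by linarith) (by linarith)
  have hgeo : θ (pq (j+1)) < 2 * θ (pq j + lq j) := by
    refine end_geom (k := kap2 (pq j + lq j)) kap2_cont kap2_closed.pos h (by linarith) (by linarith) ?_ ?_ ?_
    · intro u hu
      exact (kap2_right hj hu.1 hu.2).1
    · have hd : pq (j+1) - (pq j + lq j) ≤ 1 := by linarith
      have hd0 : 0 ≤ pq (j+1) - (pq j + lq j) := by linarith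
      nlinarith [Real.pi_gt_three, hk12.1, hk12.2]
    · have hd0 : etq j / 2 ≤ pq (j+1) - (pq j + lq j) := by linarith
      have : pq (j+1) - (pq j + lq j) ≤ kap2 (pq j + lq j) * (pq (j+1) - (pq j + lq j)) := by
        have : 0 ≤ pq (j+1) - (pq j + lq j) := by linarith
        nlinarith [hk12.1]
      linarith
  linarith

end Pool.Agent.Helper606.CA
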