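import Pool.Agent.Helper606.CA2.Defs
import Pool.Agent.Helper606.CA2.P_base2
import Pool.Agent.Helper606.CA2.P_start2
import Pool.Agent.Helper606.CA2.P_step_next2
import Pool.Agent.Helper606.CA2.P_step_kill2

set_option autoImplicit false

namespace Pool.Agent.Helper606.CA
open Complex Set


theorem chain2 {C : Set ℂ} {θ : ℝ → ℝ} (h : IsAngle kap2 C θ)
    (hC : ∀ c ∈ C, ‖c - gam kap2 1‖ ≤ 2 * h2) (i : ℕ) :
    θ (pq (i+130)) ≤ 2 * wq (i+130) := by
  induction i with
  | zero =>
    have h1 := base2 h hC
    have h2 := start2 h h1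
    have h3 := step_kill2 h (j := 130) le_rfl h2
    simpa using h3
  | succ i ih =>
    have h1 := step_next2 h (j := i + 130) (by omega) ih
    have h2 := step_kill2 h (j := i + 130 + 1) (by omega) h1
    have e : i + 1 + 130 = i + 130 + 1 := by omega
    rw [e]
    exact h2

end Pool.Agent.Helper606.CA
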