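import Pool.Agent.Helper606.CA2.Defs
import Pool.Agent.Helper606.CA2.P_dkap

set_option autoImplicit false

namespace Pool.Agent.Helper606.CA
open Complex Set


theorem kap2_c1 : ContDiff ℝ 1 kap2 := by
  rw [contDiff_one_iff_deriv]
  exact ⟨fun s => (dkap.1 s).differentiableAt, dkap.2⟩

end Pool.Agent.Helper606.CA
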