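import Pool.Agent.Helper606.CA2.Defs
import Pool.Agent.Helper606.CA2.P_angle_cont
import Pool.Agent.Helper606.CA2.P_pq_facts
import Pool.Agent.Helper606.CA2.P_kap2_closed
import Pool.Agent.Helper606.CA2.P_chain2

set_option autoImplicit false

namespace Pool.Agent.Helper606.CA
open Complex Set


theorem no_angle2 {C : Set ℂ} {θ : ℝ → ℝ} (h : IsAngle kap2 C θ)
    (hC : ∀ c ∈ C, ‖c - gam kap2 1‖ ≤ 2 * h2) : False := by
  have hθ : Continuous θ := angle_cont kap2_closed.cont kap2_closed.pos h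
  have h1 : Filter.Tendsto (fun i : ℕ => (9/10:ℝ)^(i+130)) Filter.atTop (nhds 0) :=
    (Filter.tendsto_add_atTop_iff_nat 130).2
      (tendsto_pow_atTop_nhds_zero_of_lt_one (by norm_num) (by norm_num))
  have h2' : Filter.Tendsto (fun i : ℕ => pq (i+130)) Filter.atTop (nhds (3/2)) := by
    have := (tendsto_const_nhds (x := (3/2:ℝ))).sub (h1.const_mul 10)
    simpa [pq] using this
  have h3 : Filter.Tendsto (fun i : ℕ => 2 * wq (i+130)) Filter.atTop (nhds 0) := by
    have h4 : Filter.Tendsto (fun i : ℕ => (((1/2:ℝ)^7))^(i+130)) Filter.atTop (nhds 0) :=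
      (Filter.tendsto_add_atTop_iff_nat 130).2
        (tendsto_pow_atTop_nhds_zero_of_lt_one (by norm_num) (by norm_num))
    have h5 : ∀ i : ℕ, 2 * wq (i+130) = 2 * (((1/2:ℝ)^7))^(i+130) := by
      intro i
      unfold wq
      rw [pow_mul]
    have h6 := h4.const_mul 2
    rw [mul_zero] at h6
    exact h6.congr (fun i => (h5 i).symm)
  have h7 : Filter.Tendsto (fun i : ℕ => θ (pq (i+130))) Filter.atTop (nhds (θ (3/2))) :=
    (hθ.tendsto _).comp h2'
  have h8 : θ (3/2) ≤ 0 := le_of_tendsto_of_tendsto' h7 h3 (fun i => chain2 h hC i)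
  exact absurd (h.pos (3/2)) (not_lt.2 h8)

end Pool.Agent.Helper606.CA
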