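import Pool.Agent.Helper606.CA2.Defs
import Pool.Agent.Helper606.CA.P_tab_dist
import Pool.Agent.Helper606.CA.P_exists_angle
import Pool.Agent.Helper606.CA2.P_kap2_closed
import Pool.Agent.Helper606.CA2.P_no_angle2

set_option autoImplicit false

namespace Pool.Agent.Helper606.CA
open Complex Set


theorem no_caustic2 (C : Set ℂ) :
    ¬ IsConvexCaustic (Tab kap2) (gam kap2) (psi kap2) C := by
  intro hC
  obtain ⟨θ, hθ⟩ := exists_angle kap2_closed hC
  exact no_angle2 hθ (fun c hc => tab_dist kap2_closed 1 (interior_subset (hC.subset hc)))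

end Pool.Agent.Helper606.CA
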