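import Pool.Agent.Helper606.CA2.Defs
import Pool.Agent.Helper606.CA.P_tab_table
import Pool.Agent.Helper606.CA.P_tab_curve
import Pool.Agent.Helper606.CA2.P_kap2_closed
import Pool.Agent.Helper606.CA2.P_kap2_c1
import Pool.Agent.Helper606.CA2.P_no_caustic2

set_option autoImplicit false

namespace Pool.Agent.Helper606.CA
open Complex Set


theorem not_PP1 : ¬ PP 1 := by
  intro h
  obtain ⟨C, hC⟩ := h (Tab kap2) (gam kap2) (psi kap2) kap2 (2 * (2 * h2)) (tab_table kap2_closed)
    (tab_curve kap2_closed) (by exact_mod_cast kap2_c1) kap2_closed.pos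
  exact no_caustic2 C hC

end Pool.Agent.Helper606.CA
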