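import Pool.Agent.Helper606.CA2.Defs
import Pool.Agent.Helper606.CA2.P_not_PP1

set_option autoImplicit false

namespace Pool.Agent.Helper606.CA
open Complex Set


theorem PP_mono_aux {m k : ℕ} (hmk : m ≤ k) (h : PP m) : PP k := by
  intro T γ ψ κ L h1 h2 h3 h4
  refine h T γ ψ κ L h1 h2 (h3.of_le ?_) h4
  exact_mod_cast hmk

theorem main2 : ¬ PP 1 ∧ ∀ m : ℕ, PP m → 2 ≤ m := by
  refine ⟨not_PP1, ?_⟩
  intro m hm
  by_contra hc
  exact not_PP1 (PP_mono_aux (by omega) hm)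

end Pool.Agent.Helper606.CA
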